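import Mathlib

set_option autoImplicit false

namespace Pool.Agent.H42.Circ

open Set Cardinal Algebra AlgebraicIndependent

/-- The relative algebraic closure in the reals of the field generated by a set. -/
noncomputable def clF (s : Set ℝ) : Subfield ℝ where
  carrier := {z | IsAlgebraic (Algebra.adjoin ℚ s) z}
  mul_mem' := fun ha hb => IsAlgebraic.mul ha hb
  one_mem' := isAlgebraic_one
  add_mem' := fun ha hb => IsAlgebraic.add ha hb
  zero_mem' := isAlgebraic_zero
  neg_mem' := fun ha => IsAlgebraic.neg ha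
  inv_mem' := fun _ ha => IsAlgebraic.inv ha

theorem mem_clF {s : Set ℝ} {z : ℝ} : z ∈ clF s ↔ IsAlgebraic (Algebra.adjoin ℚ s) z := Iff.rfl

theorem mem_clF_iff_closure {s : Set ℝ} {z : ℝ} :
    z ∈ clF s ↔ z ∈ (matroid ℚ ℝ).closure s := by
  rw [matroid_closure_eq]
  rfl

theorem subset_clF {s : Set ℝ} {z : ℝ} (hz : z ∈ s) : z ∈ clF s := by
  rw [mem_clF]
  exact isAlgebraic_algebraMap (⟨z, Algebra.subset_adjoin hz⟩ : Algebra.adjoin ℚ s)

theorem clF_mono {s t : Set ℝ} (h : s ⊆ t) : clF s ≤ clF t := by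
  intro z hz
  rw [mem_clF_iff_closure] at hz ⊢
  exact (matroid ℚ ℝ).closure_subset_closure h hz

theorem ai_clF {ι : Type} {x : ι → ℝ} {s : Set ℝ}
    (h : AlgebraicIndependent (Algebra.adjoin ℚ s) x) : AlgebraicIndependent (clF s) x := by
  have h2 := h.subalgebraAlgebraicClosure
  refine AlgebraicIndependent.of_ringHom_of_comp_eq
    (f := (?f : clF s →+* Subalgebra.algebraicClosure (Algebra.adjoin ℚ s) ℝ))
    (g := RingHom.id ℝ) (by simpa using h2) ?_ ?_
  · exact
    { toFun := fun z => ⟨z.1, z.2⟩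
      map_one' := rfl
      map_mul' := fun _ _ => rfl
      map_zero' := rfl
      map_add' := fun _ _ => rfl }
  · intro a b hab
    have := congrArg Subtype.val hab
    exact Subtype.ext this
  · rfl

theorem adjoin_Ioo_eq_top : Algebra.adjoin ℚ (Ioo (0:ℝ) 1) = ⊤ := by
  rw [_root_.eq_top_iff]
  intro r _
  have h1 : r = (algebraMap ℚ ℝ (⌊r⌋ : ℚ)) + Int.fract r := by
    simp [Int.floor_add_fract]
  rw [h1]
  refine add_mem (Subalgebra.algebraMap_mem _ _) ?_
  rcases (Int.fract_nonneg r).eq_or_lt with h0 | h0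
  · rw [← h0]; exact zero_mem _
  · exact Algebra.subset_adjoin ⟨h0, Int.fract_lt_one r⟩

theorem exists_tb (ι : Type) (hι : #ι = 𝔠) :
    ∃ x : ι → ℝ, IsTranscendenceBasis ℚ x ∧ ∀ i, x i ∈ Ioo (0:ℝ) 1 := by
  have : Algebra.IsAlgebraic (adjoin ℚ (Ioo (0:ℝ) 1)) ℝ := by
    rw [adjoin_Ioo_eq_top]
    exact ⟨fun z => isAlgebraic_algebraMap (⟨z, trivial⟩ : (⊤ : Subalgebra ℚ ℝ))⟩
  obtain ⟨t, ht, htb⟩ := exists_isTranscendenceBasis_subset (R := ℚ) (Ioo (0:ℝ) 1)
  have hne : Nonempty t := by
    by_contra hemp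
    rw [not_nonempty_iff] at hemp
    have halg := htb.isEmpty_iff_isAlgebraic.mp hemp
    have h1 := Algebra.IsAlgebraic.cardinalMk_le_max ℚ ℝ
    rw [Cardinal.mk_real] at h1
    have h2 : #ℚ = ℵ₀ := Cardinal.mkRat
    rw [h2, max_self] at h1
    exact absurd h1 (not_le.mpr Cardinal.aleph0_lt_continuum)
  have hcard := htb.lift_cardinalMk_eq_max_lift
  simp only [Cardinal.lift_id, Cardinal.mk_real] at hcard
  have h2 : #ℚ = ℵ₀ := Cardinal.mkRat
  rw [h2] at hcard
  have ht𝔠 : #t = 𝔠 := by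
    have h3 : 𝔠 = max (#t) ℵ₀ := by
      rw [hcard]
      rw [max_comm ℵ₀ (#t), max_assoc, max_self]
    rcases le_total (#t) ℵ₀ with h4 | h4
    · rw [max_eq_right h4] at h3
      exact absurd h3.symm (ne_of_lt Cardinal.aleph0_lt_continuum)
    · rw [max_eq_left h4] at h3
      exact h3.symm
  obtain ⟨e⟩ := Cardinal.eq.mp (hι.trans ht𝔠.symm)
  refine ⟨fun i => (e i : ℝ), ?_, fun i => ht (e i).2⟩
  exact (isTranscendenceBasis_equiv e).mpr htb

theorem exists_params (P : Type) (hP : #P = 𝔠) :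
    ∃ (T : ℕ → P → ℝ) (K : ℕ → Subfield ℝ),
      (∀ m p, T m p ∈ Ioo (0:ℝ) 1) ∧ Monotone K ∧ (∀ z, ∃ m, z ∈ K m) ∧
      (∀ m p, T m p ∈ K (m+1)) ∧
      (∀ m z, (z ∈ K m ∨ z ∉ K (m+1)) → ∃ L : Subfield ℝ, K m ≤ L ∧ z ∈ L ∧
        AlgebraicIndependent L (T m)) := by
  have hι : #(ℕ × P) = 𝔠 := by
    rw [Cardinal.mk_prod, Cardinal.lift_id, Cardinal.lift_id, hP, Cardinal.mk_nat,
      Cardinal.aleph0_mul_continuum]
  obtain ⟨x, hx, hx01⟩ := exists_tb (ℕ × P) hι
  refine ⟨fun m p => x (m, p), fun m => clF (x '' {i | i.1 < m}), fun m p => hx01 _, ?_, ?_, ?_, ?_⟩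
  · intro m m' hmm'
    apply clF_mono
    apply Set.image_mono
    intro i hi
    exact lt_of_lt_of_le hi hmm'
  · intro z
    have h1 : z ∈ (matroid ℚ ℝ).closure (Set.range x) := by
      rw [matroid_closure_eq]
      exact hx.isAlgebraic.1 z
    obtain ⟨I, hI, hIfin, hz⟩ := Matroid.exists_mem_finite_closure_of_mem_closure h1
    have h2 : ∃ m, I ⊆ x '' {i | i.1 < m} := by
      have hz' := hIfin
      clear hz
      induction I, hIfin using Set.Finite.induction_on with
      | empty => exact ⟨0, Set.empty_subset _⟩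
      | @insert a s ha hs ih =>
        obtain ⟨m, hm⟩ := ih ((Set.subset_insert _ _).trans hI) hs
        obtain ⟨i, hi⟩ := hI (Set.mem_insert a s)
        refine ⟨max m (i.1+1), ?_⟩
        intro b hb
        rcases Set.mem_insert_iff.mp hb with rfl | hb
        · exact ⟨i, lt_of_lt_of_le (Nat.lt_succ_self _) (le_max_right _ _), hi⟩
        · obtain ⟨i', hi', hb'⟩ := hm hb
          exact ⟨i', lt_of_lt_of_le (show i'.1 < m from hi') (le_max_left _ _), hb'⟩
    obtain ⟨m, hm⟩ := h2
    refine ⟨m, ?_⟩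
    rw [mem_clF_iff_closure]
    exact (matroid ℚ ℝ).closure_subset_closure hm hz.2
  · intro m p
    apply subset_clF
    exact ⟨(m, p), Nat.lt_succ_self m, rfl⟩
  · intro m z hz
    have hxm := hx.1
    rcases hz with hz | hz
    · refine ⟨_, le_rfl, hz, ?_⟩
      apply ai_clF
      have h1 := hxm.adjoin_of_disjoint (s := {i | i.1 < m}) (t := {i | i.1 = m}) (by
        rw [Set.disjoint_left]
        intro i hi hi'
        simp only [Set.mem_ofPred_eq] at hi hi'
        omega)
      exact h1.comp (fun p : P => (⟨(m, p), rfl⟩ : {i : ℕ × P | i.1 = m})) (by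
        intro a b hab
        simpa using hab)
    · refine ⟨clF (insert z (x '' {i | i.1 < m})), clF_mono (Set.subset_insert _ _),
        subset_clF (Set.mem_insert _ _), ?_⟩
      apply ai_clF
      have h0 : AlgebraicIndependent ℚ (fun i : {i : ℕ × P | i.1 < m+1} => x i) :=
        hxm.comp _ Subtype.val_injective
      have h1 : AlgebraicIndependent ℚ
          (fun o : Option {i : ℕ × P | i.1 < m+1} => o.elim z (fun i => x i)) := by
        rw [AlgebraicIndependent.option_iff_transcendental h0]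
        intro halg
        apply hz
        rw [mem_clF, Set.image_eq_range]
        exact halg
      have h2 := h1.adjoin_of_disjoint (s := {o | ∀ i ∈ o, i.1.1 < m})
        (t := {o | ∃ i ∈ o, i.1.1 = m}) (by
        rw [Set.disjoint_left]
        intro o ho ho'
        obtain ⟨i, hi, him⟩ := ho'
        have := ho i hi
        omega)
      have h3 : (fun o : Option {i : ℕ × P | i.1 < m+1} => o.elim z (fun i => x i)) ''
          {o | ∀ i ∈ o, i.1.1 < m} = insert z (x '' {i | i.1 < m}) := by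
        ext w
        constructor
        · rintro ⟨o, ho, rfl⟩
          cases o with
          | none => exact Set.mem_insert _ _
          | some i => exact Set.mem_insert_of_mem _ ⟨i.1, ho i rfl, rfl⟩
        · intro hw
          rcases Set.mem_insert_iff.mp hw with rfl | ⟨i, hi, rfl⟩
          · exact ⟨none, by simp, rfl⟩
          · refine ⟨some ⟨i, Nat.lt_succ_of_lt hi⟩, ?_, rfl⟩
            intro j hj
            simp only [Option.mem_def, Option.some.injEq] at hj
            rw [← hj]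
            exact hi
      rw [h3] at h2
      exact h2.comp (fun p : P => (⟨some ⟨(m, p), Nat.lt_succ_self m⟩, ⟨_, rfl, rfl⟩⟩ :
        {o : Option {i : ℕ × P | i.1 < m+1} | ∃ i ∈ o, i.1.1 = m})) (by
        intro a b hab
        simpa using hab)

end Pool.Agent.H42.Circ
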