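import Mathlib

set_option autoImplicit false

namespace Pool.Agent.H42.Circ

open Set

/-- The subdivision points of the unit interval, indexed by the integers. -/
def sq (i : ℤ) : ℚ := (1 + (i : ℚ) / (1 + |(i : ℚ)|)) / 2

theorem sq_strictMono : StrictMono sq := by
  intro i j hij
  have h1 : (i : ℚ) < j := by exact_mod_cast hij
  have hi : (0 : ℚ) < 1 + |(i : ℚ)| := by positivity
  have hj : (0 : ℚ) < 1 + |(j : ℚ)| := by positivity
  have h2 : (i : ℚ) / (1 + |(i : ℚ)|) < (j : ℚ) / (1 + |(j : ℚ)|) := by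
    rw [div_lt_div_iff₀ hi hj]
    rcases abs_cases (i : ℚ) with ⟨ha, hb⟩ | ⟨ha, hb⟩ <;>
    rcases abs_cases (j : ℚ) with ⟨hc, hd⟩ | ⟨hc, hd⟩ <;> rw [ha, hc] <;> nlinarith
  unfold sq
  linarith

theorem sq_pos (i : ℤ) : 0 < sq i := by
  have hi : (0 : ℚ) < 1 + |(i : ℚ)| := by positivity
  have h2 : -1 < (i : ℚ) / (1 + |(i : ℚ)|) := by
    rw [lt_div_iff₀ hi]
    have := neg_abs_le (i : ℚ)
    linarith
  unfold sq
  linarith

theorem sq_lt_one (i : ℤ) : sq i < 1 := by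
  have hi : (0 : ℚ) < 1 + |(i : ℚ)| := by positivity
  have h2 : (i : ℚ) / (1 + |(i : ℚ)|) < 1 := by
    rw [div_lt_iff₀ hi]
    have := le_abs_self (i : ℚ)
    linarith
  unfold sq
  linarith

theorem exists_sq_le {y : ℝ} (hy : 0 < y) : ∃ i, (sq i : ℝ) ≤ y := by
  obtain ⟨k, hk⟩ := exists_nat_gt (1 / y)
  refine ⟨-(k : ℤ), ?_⟩
  have hk0 : (0 : ℝ) ≤ k := Nat.cast_nonneg k
  have h1 : (sq (-(k : ℤ)) : ℝ) = 1 / (2 * (1 + k)) := by
    unfold sq
    push_cast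
    rw [abs_neg, abs_of_nonneg hk0]
    field_simp
    ring
  rw [h1]
  have h2 : 1 < k * y := by
    rw [div_lt_iff₀ hy] at hk
    exact hk
  rw [div_le_iff₀ (by positivity)]
  nlinarith

theorem exists_lt_sq {y : ℝ} (hy : y < 1) : ∃ i, y < (sq i : ℝ) := by
  obtain ⟨k, hk⟩ := exists_nat_gt (1 / (1 - y))
  refine ⟨(k : ℤ), ?_⟩
  have hk0 : (0 : ℝ) ≤ k := Nat.cast_nonneg k
  have h1 : (sq (k : ℤ) : ℝ) = 1 - 1 / (2 * (1 + k)) := by
    unfold sq
    push_cast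
    rw [abs_of_nonneg hk0]
    field_simp
    ring
  rw [h1]
  have hy' : 0 < 1 - y := by linarith
  have h2 : 1 < k * (1 - y) := by
    rw [div_lt_iff₀ hy'] at hk
    exact hk
  have h3 : 1 / (2 * (1 + (k : ℝ))) < 1 - y := by
    rw [div_lt_iff₀ (by positivity)]
    nlinarith
  linarith

/-- Locating a point between consecutive terms of an increasing integer sequence. -/
theorem exists_loc {c : ℤ → ℝ} (hc : StrictMono c) {z : ℝ} (h1 : ∃ i, c i ≤ z)
    (h2 : ∃ i, z < c i) : ∃ i, c i ≤ z ∧ z < c (i+1) := by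
  obtain ⟨k, hk⟩ := h2
  obtain ⟨u, hu, hmax⟩ := Int.exists_greatest_of_bdd (P := fun i => c i ≤ z) ⟨k, fun i hi => by
    by_contra hlt
    push Not at hlt
    exact absurd (lt_of_lt_of_le (hk.trans (hc hlt)) hi) (lt_irrefl _)⟩ h1
  refine ⟨u, hu, ?_⟩
  by_contra hge
  push Not at hge
  have := hmax (u+1) hge
  omega

theorem loc_unique {c : ℤ → ℝ} (hc : StrictMono c) {z : ℝ} {i i' : ℤ}
    (h1 : c i ≤ z) (h2 : z < c (i+1)) (h1' : c i' ≤ z) (h2' : z < c (i'+1)) : i = i' := by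
  have h3 : i < i' + 1 := hc.lt_iff_lt.mp (lt_of_le_of_lt h1 h2')
  have h4 : i' < i + 1 := hc.lt_iff_lt.mp (lt_of_le_of_lt h1' h2)
  omega

/-- Break points in the source. -/
def cc (j i : ℤ) : ℝ := (j : ℝ) + (sq i : ℝ)

theorem cc_strictMono (j : ℤ) : StrictMono (cc j) := by
  intro i i' h
  have : (sq i : ℝ) < (sq i' : ℝ) := by exact_mod_cast sq_strictMono h
  unfold cc
  linarith

theorem lt_cc (j i : ℤ) : (j : ℝ) < cc j i := by
  have : (0 : ℝ) < (sq i : ℝ) := by exact_mod_cast sq_pos i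
  unfold cc
  linarith

theorem cc_lt (j i : ℤ) : cc j i < (j : ℝ) + 1 := by
  have : (sq i : ℝ) < 1 := by exact_mod_cast sq_lt_one i
  unfold cc
  linarith

theorem cc_lt_succ (j i : ℤ) : cc j i < cc j (i+1) := cc_strictMono j (lt_add_one i)

/-- Images of the break points. -/
def DD (x : ℤ → ℝ) (t : ℤ → ℤ → ℝ) (j i : ℤ) : ℝ :=
  x j + (x (j+1) - x j) * ((sq i : ℝ) + ((sq (i+1) : ℝ) - (sq i : ℝ)) * t j i)

section
variable {x : ℤ → ℝ} {t : ℤ → ℤ → ℝ} {σ : ℤ → ℤ → ℝ}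

theorem dl_bounds (ht : ∀ j i, t j i ∈ Ioo (0:ℝ) 1) (j i : ℤ) :
    (sq i : ℝ) < (sq i : ℝ) + ((sq (i+1) : ℝ) - (sq i : ℝ)) * t j i ∧
    (sq i : ℝ) + ((sq (i+1) : ℝ) - (sq i : ℝ)) * t j i < (sq (i+1) : ℝ) := by
  have h1 : (sq i : ℝ) < (sq (i+1) : ℝ) := by exact_mod_cast sq_strictMono (lt_add_one i)
  have h2 := ht j i
  constructor
  · have : 0 < ((sq (i+1) : ℝ) - (sq i : ℝ)) * t j i := mul_pos (by linarith) h2.1
    linarith
  · have : ((sq (i+1) : ℝ) - (sq i : ℝ)) * t j i < ((sq (i+1) : ℝ) - (sq i : ℝ)) * 1 :=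
      mul_lt_mul_of_pos_left h2.2 (by linarith)
    linarith

theorem DD_strictMono (hx : StrictMono x) (ht : ∀ j i, t j i ∈ Ioo (0:ℝ) 1) (j : ℤ) :
    StrictMono (DD x t j) := by
  apply strictMono_int_of_lt_succ
  intro i
  have h1 := (dl_bounds ht j i).2
  have h2 := (dl_bounds ht j (i+1)).1
  have h3 : 0 < x (j+1) - x j := sub_pos.mpr (hx (lt_add_one j))
  have h4 := mul_lt_mul_of_pos_left (h1.trans h2) h3
  unfold DD
  linarith

theorem lt_DD (hx : StrictMono x) (ht : ∀ j i, t j i ∈ Ioo (0:ℝ) 1) (j i : ℤ) :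
    x j < DD x t j i := by
  have h1 := (dl_bounds ht j i).1
  have h2 : (0 : ℝ) < (sq i : ℝ) := by exact_mod_cast sq_pos i
  have h3 : 0 < x (j+1) - x j := sub_pos.mpr (hx (lt_add_one j))
  have h4 := mul_pos h3 (h2.trans h1)
  unfold DD
  linarith

theorem DD_lt (hx : StrictMono x) (ht : ∀ j i, t j i ∈ Ioo (0:ℝ) 1) (j i : ℤ) :
    DD x t j i < x (j+1) := by
  have h1 := (dl_bounds ht j i).2
  have h2 : (sq (i+1) : ℝ) < 1 := by exact_mod_cast sq_lt_one (i+1)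
  have h3 : 0 < x (j+1) - x j := sub_pos.mpr (hx (lt_add_one j))
  have h4 := mul_lt_mul_of_pos_left (h1.trans h2) h3
  unfold DD
  linarith

theorem exists_DD_le (hx : StrictMono x) (ht : ∀ j i, t j i ∈ Ioo (0:ℝ) 1) (j : ℤ) {y : ℝ}
    (hy : x j < y) : ∃ i, DD x t j i ≤ y := by
  have h3 : 0 < x (j+1) - x j := sub_pos.mpr (hx (lt_add_one j))
  obtain ⟨i, hi⟩ := exists_sq_le (y := (y - x j) / (x (j+1) - x j)) (div_pos (by linarith) h3)
  refine ⟨i - 1, ?_⟩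
  have h1 := (dl_bounds ht j (i-1)).2
  rw [sub_add_cancel] at h1
  rw [le_div_iff₀ h3] at hi
  have h4 := mul_lt_mul_of_pos_left h1 h3
  unfold DD
  rw [sub_add_cancel]
  linarith

theorem exists_lt_DD (hx : StrictMono x) (ht : ∀ j i, t j i ∈ Ioo (0:ℝ) 1) (j : ℤ) {y : ℝ}
    (hy : y < x (j+1)) : ∃ i, y < DD x t j i := by
  have h3 : 0 < x (j+1) - x j := sub_pos.mpr (hx (lt_add_one j))
  obtain ⟨i, hi⟩ := exists_lt_sq (y := (y - x j) / (x (j+1) - x j)) (by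
    rw [div_lt_one h3]; linarith)
  refine ⟨i, ?_⟩
  have h1 := (dl_bounds ht j i).1
  rw [div_lt_iff₀ h3] at hi
  have h4 := mul_lt_mul_of_pos_left h1 h3
  unfold DD
  linarith

/-- Every real is an integer or lies in a piece of the source. -/
theorem source_cases (z : ℝ) : (∃ j : ℤ, z = j) ∨ ∃ j i, cc j i ≤ z ∧ z < cc j (i+1) := by
  by_cases h : ∃ j : ℤ, z = j
  · exact Or.inl h
  · right
    have h0 : 0 < Int.fract z := by
      rcases (Int.fract_nonneg z).eq_or_lt with h1 | h1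
      · exfalso
        apply h
        refine ⟨⌊z⌋, ?_⟩
        have := Int.floor_add_fract z
        linarith
      · exact h1
    obtain ⟨i, hi⟩ := exists_sq_le h0
    obtain ⟨i', hi'⟩ := exists_lt_sq (Int.fract_lt_one z)
    have hf := Int.floor_add_fract z
    refine ⟨⌊z⌋, exists_loc (cc_strictMono ⌊z⌋) ⟨i, ?_⟩ ⟨i', ?_⟩⟩
    · unfold cc; linarith
    · unfold cc; linarith

theorem target_cases (hx : StrictMono x) (hx1 : ∀ y, ∃ j, x j ≤ y) (hx2 : ∀ y, ∃ j, y < x j)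
    (ht : ∀ j i, t j i ∈ Ioo (0:ℝ) 1) (y : ℝ) :
    (∃ j : ℤ, y = x j) ∨ ∃ j i, DD x t j i ≤ y ∧ y < DD x t j (i+1) := by
  obtain ⟨j, hj1, hj2⟩ := exists_loc hx (hx1 y) (hx2 y)
  rcases hj1.eq_or_lt with h | h
  · exact Or.inl ⟨j, h.symm⟩
  · exact Or.inr ⟨j, exists_loc (DD_strictMono hx ht j) (exists_DD_le hx ht j h)
      (exists_lt_DD hx ht j hj2)⟩

/-- The Moebius piece. -/
noncomputable def mob (x : ℤ → ℝ) (t σ : ℤ → ℤ → ℝ) (j i : ℤ) (z : ℝ) : ℝ :=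
  (DD x t j (i+1) * (z - cc j i) + σ j i * DD x t j i * (cc j (i+1) - z)) /
    ((z - cc j i) + σ j i * (cc j (i+1) - z))

open Classical in
/-- The piecewise Moebius map. -/
noncomputable def bfun (x : ℤ → ℝ) (t σ : ℤ → ℤ → ℝ) (z : ℝ) : ℝ :=
  if h : ∃ p : ℤ × ℤ, cc p.1 p.2 ≤ z ∧ z < cc p.1 (p.2+1) then
    mob x t σ h.choose.1 h.choose.2 z
  else x ⌊z⌋

theorem piece_floor {j i : ℤ} {z : ℝ} (h1 : cc j i ≤ z) (h2 : z < cc j (i+1)) : ⌊z⌋ = j := by
  rw [Int.floor_eq_iff]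
  exact ⟨((lt_cc j i).trans_le h1).le, h2.trans (cc_lt j (i+1))⟩

theorem piece_unique {j i j' i' : ℤ} {z : ℝ} (h1 : cc j i ≤ z) (h2 : z < cc j (i+1))
    (h1' : cc j' i' ≤ z) (h2' : z < cc j' (i'+1)) : j = j' ∧ i = i' := by
  have hj : j = j' := (piece_floor h1 h2).symm.trans (piece_floor h1' h2')
  subst hj
  exact ⟨rfl, loc_unique (cc_strictMono j) h1 h2 h1' h2'⟩

theorem bfun_piece {j i : ℤ} {z : ℝ} (h1 : cc j i ≤ z) (h2 : z < cc j (i+1)) :
    bfun x t σ z = mob x t σ j i z := by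
  have h : ∃ p : ℤ × ℤ, cc p.1 p.2 ≤ z ∧ z < cc p.1 (p.2+1) := ⟨(j, i), h1, h2⟩
  unfold bfun
  rw [dif_pos h]
  have h3 := h.choose_spec
  obtain ⟨ha, hb⟩ := piece_unique h1 h2 h3.1 h3.2
  rw [← ha, ← hb]

theorem bfun_int (j : ℤ) : bfun x t σ (j : ℝ) = x j := by
  have h : ¬ ∃ p : ℤ × ℤ, cc p.1 p.2 ≤ (j : ℝ) ∧ (j : ℝ) < cc p.1 (p.2+1) := by
    rintro ⟨⟨a, b⟩, h1, h2⟩
    simp only at h1 h2
    have h3 : (a : ℝ) < j := (lt_cc a b).trans_le h1
    have h4 : (j : ℝ) < a + 1 := h2.trans (cc_lt a (b+1))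
    have h5 : a < j := by exact_mod_cast h3
    have h6 : j < a + 1 := by exact_mod_cast h4
    omega
  unfold bfun
  rw [dif_neg h, Int.floor_intCast]

theorem den_pos {c c' σ z : ℝ} (hσ : 0 < σ) (h1 : c ≤ z) (h2 : z < c') :
    0 < (z - c) + σ * (c' - z) := by
  have : 0 < σ * (c' - z) := mul_pos hσ (by linarith)
  linarith

theorem mob_bounds (hx : StrictMono x) (ht : ∀ j i, t j i ∈ Ioo (0:ℝ) 1)
    (hσ : ∀ j i, σ j i ∈ Ioo (0:ℝ) 1) {j i : ℤ} {z : ℝ}
    (h1 : cc j i ≤ z) (h2 : z < cc j (i+1)) :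
    DD x t j i ≤ mob x t σ j i z ∧ mob x t σ j i z < DD x t j (i+1) := by
  have hd := den_pos (hσ j i).1 h1 h2
  have hD := DD_strictMono hx ht j (lt_add_one i)
  unfold mob
  constructor
  · rw [le_div_iff₀ hd]
    have : 0 ≤ (DD x t j (i+1) - DD x t j i) * (z - cc j i) :=
      mul_nonneg (by linarith) (by linarith)
    linarith
  · rw [div_lt_iff₀ hd]
    have : 0 < σ j i * ((DD x t j (i+1) - DD x t j i) * (cc j (i+1) - z)) :=
      mul_pos (hσ j i).1 (mul_pos (by linarith) (by linarith))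
    linarith

theorem mob_mono (hx : StrictMono x) (ht : ∀ j i, t j i ∈ Ioo (0:ℝ) 1)
    (hσ : ∀ j i, σ j i ∈ Ioo (0:ℝ) 1) {j i : ℤ} {z w : ℝ}
    (h1 : cc j i ≤ z) (h2 : z < w) (h3 : w < cc j (i+1)) :
    mob x t σ j i z < mob x t σ j i w := by
  have hd := den_pos (hσ j i).1 h1 (h2.trans h3)
  have hd' := den_pos (hσ j i).1 (h1.trans h2.le) h3
  have hD := DD_strictMono hx ht j (lt_add_one i)
  have hc := cc_lt_succ j i
  unfold mob
  rw [div_lt_div_iff₀ hd hd']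
  have : 0 < σ j i * ((DD x t j (i+1) - DD x t j i) * ((w - z) * (cc j (i+1) - cc j i))) :=
    mul_pos (hσ j i).1 (mul_pos (by linarith) (mul_pos (by linarith) (by linarith)))
  nlinarith

theorem bfun_strictMono (hx : StrictMono x) (ht : ∀ j i, t j i ∈ Ioo (0:ℝ) 1)
    (hσ : ∀ j i, σ j i ∈ Ioo (0:ℝ) 1) : StrictMono (bfun x t σ) := by
  have key : ∀ z : ℝ, x ⌊z⌋ ≤ bfun x t σ z ∧ bfun x t σ z < x (⌊z⌋ + 1) := by
    intro z
    rcases source_cases z with ⟨j, rfl⟩ | ⟨j, i, h1, h2⟩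
    · rw [bfun_int, Int.floor_intCast]
      exact ⟨le_rfl, hx (lt_add_one j)⟩
    · rw [bfun_piece h1 h2, piece_floor h1 h2]
      have h3 := mob_bounds hx ht hσ h1 h2
      exact ⟨(lt_DD hx ht j i).le.trans h3.1, h3.2.trans (DD_lt hx ht j (i+1))⟩
  intro z w hzw
  rcases (Int.floor_mono hzw.le).eq_or_lt with hf | hf
  · rcases source_cases w with ⟨j, rfl⟩ | ⟨j, i, h1, h2⟩
    · exfalso
      rw [Int.floor_intCast] at hf
      have := Int.floor_le z
      rw [hf] at this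
      linarith
    · rcases source_cases z with ⟨j', rfl⟩ | ⟨j', i', h1', h2'⟩
      · rw [Int.floor_intCast, piece_floor h1 h2] at hf
        subst hf
        rw [bfun_int, bfun_piece h1 h2]
        exact (lt_DD hx ht j' i).trans_le (mob_bounds hx ht hσ h1 h2).1
      · rw [piece_floor h1 h2, piece_floor h1' h2'] at hf
        subst hf
        rw [bfun_piece h1 h2, bfun_piece h1' h2']
        have h3 : i' < i + 1 := (cc_strictMono j').lt_iff_lt.mp (lt_of_le_of_lt h1' (hzw.trans h2))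
        rcases (Int.lt_add_one_iff.mp h3).eq_or_lt with rfl | hlt
        · exact mob_mono hx ht hσ h1' hzw h2
        · calc mob x t σ j' i' z < DD x t j' (i'+1) := (mob_bounds hx ht hσ h1' h2').2
            _ ≤ DD x t j' i := (DD_strictMono hx ht j').monotone (by omega)
            _ ≤ _ := (mob_bounds hx ht hσ h1 h2).1
  · calc bfun x t σ z < x (⌊z⌋ + 1) := (key z).2
      _ ≤ x ⌊w⌋ := hx.monotone (by omega)
      _ ≤ _ := (key w).1

theorem bfun_surj (hx : StrictMono x) (hx1 : ∀ y, ∃ j, x j ≤ y) (hx2 : ∀ y, ∃ j, y < x j)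
    (ht : ∀ j i, t j i ∈ Ioo (0:ℝ) 1)
    (hσ : ∀ j i, σ j i ∈ Ioo (0:ℝ) 1) : Function.Surjective (bfun x t σ) := by
  intro y
  rcases target_cases hx hx1 hx2 ht y with ⟨j, rfl⟩ | ⟨j, i, h1, h2⟩
  · exact ⟨j, bfun_int j⟩
  · have hs := (hσ j i).1
    have hc := cc_lt_succ j i
    have hden : 0 < (DD x t j (i+1) - y) + σ j i * (y - DD x t j i) := by
      have : 0 ≤ σ j i * (y - DD x t j i) := mul_nonneg hs.le (by linarith)
      linarith
    set z : ℝ := (cc j i * (DD x t j (i+1) - y) + cc j (i+1) * (σ j i * (y - DD x t j i))) /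
      ((DD x t j (i+1) - y) + σ j i * (y - DD x t j i)) with hz
    have hz0 : z * ((DD x t j (i+1) - y) + σ j i * (y - DD x t j i)) =
      cc j i * (DD x t j (i+1) - y) + cc j (i+1) * (σ j i * (y - DD x t j i)) := by
      rw [hz]
      field_simp
    have hz1 : cc j i ≤ z := by
      rw [hz, le_div_iff₀ hden]
      have : 0 ≤ (cc j (i+1) - cc j i) * (σ j i * (y - DD x t j i)) :=
        mul_nonneg (by linarith) (mul_nonneg hs.le (by linarith))
      linarith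
    have hz2 : z < cc j (i+1) := by
      rw [hz, div_lt_iff₀ hden]
      have : 0 < (cc j (i+1) - cc j i) * (DD x t j (i+1) - y) :=
        mul_pos (by linarith) (by linarith)
      linarith
    refine ⟨z, ?_⟩
    rw [bfun_piece hz1 hz2]
    unfold mob
    have hd := den_pos hs hz1 hz2
    rw [div_eq_iff hd.ne']
    have hD := DD_strictMono hx ht j (lt_add_one i)
    linear_combination hz0

/-- The order isomorphism. -/
noncomputable def bIso (x : ℤ → ℝ) (t σ : ℤ → ℤ → ℝ) (hx : StrictMono x)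
    (hx1 : ∀ y, ∃ j, x j ≤ y) (hx2 : ∀ y, ∃ j, y < x j)
    (ht : ∀ j i, t j i ∈ Ioo (0:ℝ) 1) (hσ : ∀ j i, σ j i ∈ Ioo (0:ℝ) 1) : ℝ ≃o ℝ :=
  StrictMono.orderIsoOfSurjective (bfun x t σ) (bfun_strictMono hx ht hσ)
    (bfun_surj hx hx1 hx2 ht hσ)

end

/-- Summary of the properties of the piecewise Moebius map. -/
theorem exists_b (x : ℤ → ℝ) (t σ : ℤ → ℤ → ℝ) (n : ℤ) (hn : 0 < n) (hx : StrictMono x)
    (hxn : ∀ j, x (j + n) = x j + n)
    (ht : ∀ j i, t j i ∈ Ioo (0:ℝ) 1) (hσ : ∀ j i, σ j i ∈ Ioo (0:ℝ) 1)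
    (htn : ∀ j i, t (j + n) i = t j i) (hσn : ∀ j i, σ (j + n) i = σ j i) :
    ∃ b : ℝ ≃o ℝ, (∀ z, b (z + n) = b z + n) ∧ (∀ j : ℤ, b j = x j) ∧
      (∀ j i z, cc j i ≤ z → z < cc j (i+1) →
        DD x t j i ≤ b z ∧ b z < DD x t j (i+1) ∧
        (z - cc j i) * (DD x t j (i+1) - b z) = σ j i * (cc j (i+1) - z) * (b z - DD x t j i)) ∧
      (∀ y, (∃ j : ℤ, y = x j) ∨ ∃ j i z, cc j i ≤ z ∧ z < cc j (i+1) ∧ b z = y) := by
  have hnR : (0 : ℝ) < n := by exact_mod_cast hn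
  have hxk : ∀ (k : ℕ) (j : ℤ), x (j + k * n) = x j + k * n := by
    intro k
    induction k with
    | zero => intro j; simp
    | succ k ih =>
      intro j
      have h1 : j + ((k+1 : ℕ) : ℤ) * n = (j + k * n) + n := by push_cast; ring
      rw [h1, hxn, ih]
      push_cast
      ring
  have hx2 : ∀ y, ∃ j, y < x j := by
    intro y
    obtain ⟨k, hk⟩ := exists_nat_gt ((y - x 0) / n)
    refine ⟨0 + k * n, ?_⟩
    rw [hxk]
    rw [div_lt_iff₀ hnR] at hk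
    linarith
  have hx1 : ∀ y, ∃ j, x j ≤ y := by
    intro y
    obtain ⟨k, hk⟩ := exists_nat_gt ((x 0 - y) / n)
    refine ⟨-(k * n), ?_⟩
    have h1 := hxk k (-(k * n))
    rw [neg_add_cancel] at h1
    rw [div_lt_iff₀ hnR] at hk
    linarith
  refine ⟨bIso x t σ hx hx1 hx2 ht hσ, ?_, fun j => bfun_int j, ?_, ?_⟩
  · intro z
    change bfun x t σ (z + n) = bfun x t σ z + n
    rcases source_cases z with ⟨j, rfl⟩ | ⟨j, i, h1, h2⟩
    · have : ((j : ℝ) + (n : ℝ)) = ((j + n : ℤ) : ℝ) := by push_cast; ring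
      rw [this, bfun_int, bfun_int, hxn]
    · have e1 : ∀ i, cc (j + n) i = cc j i + n := by intro i; unfold cc; push_cast; ring
      have e2 : ∀ i, DD x t (j + n) i = DD x t j i + n := by
        intro i
        unfold DD
        rw [htn, show j + n + 1 = (j + 1) + n by ring, hxn, hxn]
        ring
      have h1' : cc (j + n) i ≤ z + n := by rw [e1]; linarith
      have h2' : z + n < cc (j + n) (i+1) := by rw [e1]; linarith
      rw [bfun_piece h1 h2, bfun_piece h1' h2']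
      have hd := den_pos (hσ j i).1 h1 h2
      unfold mob
      rw [e1, e1, e2, e2, hσn]
      have hd2 : (z + n - (cc j i + n)) + σ j i * (cc j (i + 1) + n - (z + n)) =
        (z - cc j i) + σ j i * (cc j (i+1) - z) := by ring
      rw [hd2]
      rw [div_add' _ _ _ hd.ne', div_left_inj' hd.ne']
      ring
  · intro j i z h1 h2
    change DD x t j i ≤ bfun x t σ z ∧ bfun x t σ z < DD x t j (i+1) ∧
        (z - cc j i) * (DD x t j (i+1) - bfun x t σ z) =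
          σ j i * (cc j (i+1) - z) * (bfun x t σ z - DD x t j i)
    rw [bfun_piece h1 h2]
    refine ⟨(mob_bounds hx ht hσ h1 h2).1, (mob_bounds hx ht hσ h1 h2).2, ?_⟩
    have hd := den_pos (hσ j i).1 h1 h2
    have hm : mob x t σ j i z * ((z - cc j i) + σ j i * (cc j (i+1) - z)) =
      DD x t j (i+1) * (z - cc j i) + σ j i * DD x t j i * (cc j (i+1) - z) := by
      unfold mob
      rw [div_mul_cancel₀ _ hd.ne']
    linear_combination -hm
  · intro y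
    obtain ⟨z, rfl⟩ := bfun_surj (σ := σ) hx hx1 hx2 ht hσ y
    rcases source_cases z with ⟨j, rfl⟩ | ⟨j, i, h1, h2⟩
    · exact Or.inl ⟨j, bfun_int j⟩
    · exact Or.inr ⟨j, i, z, h1, h2, rfl⟩

end Pool.Agent.H42.Circ
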