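import Mathlib
import Pool.Agent.H42.CircPiece

set_option autoImplicit false

namespace Pool.Agent.H42.Circ

open Set

/-- A homeomorphism is locally given off the field by invertible matrices over the field. -/
def PP (K : Subfield ℝ) (g : ℝ ≃o ℝ) : Prop :=
  (∀ z, z ∈ K → g z ∈ K) ∧ (∀ z, g z ∈ K → z ∈ K) ∧
    ∀ z, z ∉ K → ∃ α β γ δ : K, α * δ - β * γ ≠ 0 ∧
      g z * ((γ : ℝ) * z + δ) = (α : ℝ) * z + β

theorem den_ne {K : Subfield ℝ} {z : ℝ} (hz : z ∉ K) {α β γ δ : K} (h : α * δ - β * γ ≠ 0) :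
    (γ : ℝ) * z + δ ≠ 0 := by
  intro h0
  by_cases hγ : γ = 0
  · subst hγ
    have h1 : δ = 0 := by
      have : (δ : ℝ) = 0 := by simpa using h0
      exact_mod_cast this
    apply h
    rw [h1]
    ring
  · apply hz
    have hγ' : (γ : ℝ) ≠ 0 := by exact_mod_cast hγ
    have h1 : z = ((-δ / γ : K) : ℝ) := by
      push_cast
      field_simp
      linarith
    rw [h1]
    exact (-δ / γ : K).2

theorem PP_one (K : Subfield ℝ) : PP K 1 := by
  refine ⟨fun z h => h, fun z h => h, fun z _ => ⟨1, 0, 0, 1, ?_, ?_⟩⟩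
  · simp
  · simp

theorem PP_mul {K : Subfield ℝ} {f g : ℝ ≃o ℝ} (hf : PP K f) (hg : PP K g) : PP K (f * g) := by
  refine ⟨fun z h => hf.1 _ (hg.1 _ h), fun z h => hg.2.1 _ (hf.2.1 _ h), fun z hz => ?_⟩
  have hgz : g z ∉ K := fun h => hz (hg.2.1 _ h)
  obtain ⟨α, β, γ, δ, hd, he⟩ := hg.2.2 z hz
  obtain ⟨α', β', γ', δ', hd', he'⟩ := hf.2.2 (g z) hgz
  refine ⟨α' * α + β' * γ, α' * β + β' * δ, γ' * α + δ' * γ, γ' * β + δ' * δ, ?_, ?_⟩
  · have : (α' * α + β' * γ) * (γ' * β + δ' * δ) - (α' * β + β' * δ) * (γ' * α + δ' * γ) =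
      (α' * δ' - β' * γ') * (α * δ - β * γ) := by ring
    rw [this]
    exact mul_ne_zero hd' hd
  · have hden := den_ne hz hd
    change f (g z) * _ = _
    push_cast
    have h1 : f (g z) * ((γ' : ℝ) * (g z * ((γ : ℝ) * z + δ)) + δ' * ((γ : ℝ) * z + δ)) =
      (α' : ℝ) * (g z * ((γ : ℝ) * z + δ)) + β' * ((γ : ℝ) * z + δ) := by
      linear_combination ((γ : ℝ) * z + δ) * he'
    rw [he] at h1
    linear_combination h1

theorem PP_inv {K : Subfield ℝ} {g : ℝ ≃o ℝ} (hg : PP K g) : PP K g⁻¹ := by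
  have hgg : ∀ z, g (g⁻¹ z) = z := fun z => g.apply_symm_apply z
  refine ⟨fun z h => hg.2.1 _ (by rwa [hgg]), fun z h => ?_, fun z hz => ?_⟩
  · have := hg.1 _ h
    rwa [hgg] at this
  · have hgz : g⁻¹ z ∉ K := fun h => hz (by have := hg.1 _ h; rwa [hgg] at this)
    obtain ⟨α, β, γ, δ, hd, he⟩ := hg.2.2 _ hgz
    rw [hgg] at he
    refine ⟨δ, -β, -γ, α, ?_, ?_⟩
    · intro h
      apply hd
      linear_combination h
    · push_cast
      linear_combination -he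

theorem PP_mono {K K' : Subfield ℝ} (hKK : K ≤ K') {g : ℝ ≃o ℝ} (hg : PP K g) : PP K' g := by
  have key : ∀ g : ℝ ≃o ℝ, PP K g → ∀ z, z ∈ K' → g z ∈ K' := by
    intro g hg z hz
    by_cases h : z ∈ K
    · exact hKK (hg.1 _ h)
    · obtain ⟨α, β, γ, δ, hd, he⟩ := hg.2.2 z h
      have hden := den_ne h hd
      have h1 : g z = ((α : ℝ) * z + β) / ((γ : ℝ) * z + δ) := by
        rw [eq_div_iff hden]
        exact he
      rw [h1]
      exact K'.div_mem (K'.add_mem (K'.mul_mem (hKK α.2) hz) (hKK β.2))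
        (K'.add_mem (K'.mul_mem (hKK γ.2) hz) (hKK δ.2))
  refine ⟨key g hg, fun z h => ?_, fun z hz => ?_⟩
  · have := key g⁻¹ (PP_inv hg) _ h
    rwa [show g⁻¹ (g z) = z from g.symm_apply_apply z] at this
  · have hz' : z ∉ K := fun h => hz (hKK h)
    obtain ⟨α, β, γ, δ, hd, he⟩ := hg.2.2 z hz'
    refine ⟨⟨α, hKK α.2⟩, ⟨β, hKK β.2⟩, ⟨γ, hKK γ.2⟩, ⟨δ, hKK δ.2⟩, ?_, he⟩
    intro h
    apply hd
    have h2 := congrArg Subtype.val h
    apply Subtype.ext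
    simpa using h2

theorem PP_mem_sup {K L : Subfield ℝ} (hKL : K ≤ L) {g : ℝ ≃o ℝ} (hg : PP K g) {z : ℝ}
    (hz : z ∈ L) : g z ∈ L := (PP_mono hKL hg).1 z hz

end Pool.Agent.H42.Circ
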