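import Mathlib
import Pool.Agent.H42.CircPiece
import Pool.Agent.H42.CircPP

set_option autoImplicit false

namespace Pool.Agent.H42.Circ

open Set MvPolynomial

/-- Index of the parameters of one stage. -/
abbrev Pt : Type := (ℤ → ℝ) × ℤ × ℤ × Bool

def tt (n : ℤ) (T : Pt → ℝ) (x : ℤ → ℝ) (j i : ℤ) : ℝ := T (x, j % n, i, false)
def ss (n : ℤ) (T : Pt → ℝ) (x : ℤ → ℝ) (j i : ℤ) : ℝ := T (x, j % n, i, true)

/-- Admissible marked sequences. -/
structure Adm (n : ℤ) (K : Subfield ℝ) (x : ℤ → ℝ) : Prop where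
  mono : StrictMono x
  per : ∀ j, x (j + n) = x j + n
  mem : ∀ j, x j ∈ K

structure BSpec (n : ℤ) (T : Pt → ℝ) (x : ℤ → ℝ) (b : ℝ ≃o ℝ) : Prop where
  eqv : ∀ z, b (z + n) = b z + n
  int : ∀ j : ℤ, b j = x j
  piece : ∀ j i z, cc j i ≤ z → z < cc j (i+1) →
        DD x (tt n T x) j i ≤ b z ∧ b z < DD x (tt n T x) j (i+1) ∧
        (z - cc j i) * (DD x (tt n T x) j (i+1) - b z) =
          ss n T x j i * (cc j (i+1) - z) * (b z - DD x (tt n T x) j i)
  surj : ∀ y, (∃ j : ℤ, y = x j) ∨ ∃ j i z, cc j i ≤ z ∧ z < cc j (i+1) ∧ b z = y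

open Classical in
/-- The letter attached to a marked sequence. -/
noncomputable def bel (n : ℤ) (T : Pt → ℝ) (x : ℤ → ℝ) : ℝ ≃o ℝ :=
  if h : ∃ b : ℝ ≃o ℝ, BSpec n T x b then h.choose else 1

theorem bel_spec {n : ℤ} (hn : 0 < n) {T : Pt → ℝ} (hT : ∀ p, T p ∈ Ioo (0:ℝ) 1) {K : Subfield ℝ}
    {x : ℤ → ℝ} (hx : Adm n K x) : BSpec n T x (bel n T x) := by
  have h : ∃ b : ℝ ≃o ℝ, BSpec n T x b := by
    obtain ⟨b, h1, h2, h3, h4⟩ := exists_b x (tt n T x) (ss n T x) n hn hx.mono hx.per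
      (fun j i => hT _) (fun j i => hT _)
      (fun j i => by unfold tt; rw [Int.add_emod_right])
      (fun j i => by unfold ss; rw [Int.add_emod_right])
    exact ⟨b, h1, h2, h3, h4⟩
  unfold bel
  rw [dif_pos h]
  exact h.choose_spec

/-- The specialisation of the parameters. -/
noncomputable def SS (T : Pt → ℝ) (p : Pt) : ℝ :=
  if p.2.2.2 = true then T p else
    ((T (p.1, 0, 0, false) - p.1 p.2.1) / (p.1 (p.2.1 + 1) - p.1 p.2.1) - (sq p.2.2.1 : ℝ)) /
      ((sq (p.2.2.1 + 1) : ℝ) - (sq p.2.2.1 : ℝ))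

def Good (L : Subfield ℝ) (T : Pt → ℝ) (z v1 v2 : ℝ) : Prop :=
  ∃ P Q : MvPolynomial Pt L, (aeval T Q : ℝ) ≠ 0 ∧ z * (aeval T Q : ℝ) = aeval T P ∧
    (aeval (SS T) P : ℝ) = v1 ∧ (aeval (SS T) Q : ℝ) = v2

section alg
variable {L : Subfield ℝ} {T : Pt → ℝ}

theorem pair_indep (hind : AlgebraicIndependent L T) {p q : Pt} (hpq : p ≠ q)
    (α0 α1 β0 β1 : L) (h : (α0 : ℝ) + α1 * T p + (β0 + β1 * T p) * T q = 0) :
    α0 = 0 ∧ α1 = 0 ∧ β0 = 0 ∧ β1 = 0 := by
  classical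
  have hf : (C α0 + C α1 * X p + (C β0 + C β1 * X p) * X q : MvPolynomial Pt L) = 0 := by
    rw [algebraicIndependent_iff] at hind
    apply hind
    simp only [map_add, map_mul, aeval_X, aeval_C]
    exact h
  have he : ∀ e : Pt → L, α0 + α1 * e p + (β0 + β1 * e p) * e q = 0 := by
    intro e
    have := congrArg (eval e) hf
    simpa using this
  have h0 := he (fun _ => 0)
  have h1 := he (fun r => if r = p then 1 else 0)
  have h2 := he (fun r => if r = q then 1 else 0)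
  have h3 := he (fun _ => 1)
  simp [hpq, hpq.symm] at h0 h1 h2 h3
  subst h0
  refine ⟨rfl, ?_, ?_, ?_⟩
  · simpa using h1
  · simpa using h2
  · have h1' : α1 = 0 := by simpa using h1
    have h2' : β0 = 0 := by simpa using h2
    subst h1' h2'
    simpa using h3

theorem single_indep (hind : AlgebraicIndependent L T) (p : Pt)
    (α0 α1 α2 : L) (h : (α0 : ℝ) + α1 * T p + α2 * T p ^ 2 = 0) :
    α0 = 0 ∧ α1 = 0 ∧ α2 = 0 := by
  classical
  have hf : (C α0 + C α1 * X p + C α2 * X p ^ 2 : MvPolynomial Pt L) = 0 := by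
    rw [algebraicIndependent_iff] at hind
    apply hind
    simp only [map_add, map_mul, aeval_X, aeval_C, map_pow]
    exact h
  have he : ∀ e : L, α0 + α1 * e + α2 * e ^ 2 = 0 := by
    intro e
    have := congrArg (eval (fun _ => e)) hf
    simpa using this
  have h0 := he 0
  have h1 := he 1
  have h2 := he (-1)
  have h0' : α0 = 0 := by simpa using h0
  subst h0'
  have h3 : 2 * α2 = 0 := by linear_combination h1 + h2
  have h4 : α2 = 0 := by simpa using h3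
  subst h4
  refine ⟨rfl, ?_, rfl⟩
  simpa using h1

theorem good_mem (hind : AlgebraicIndependent L T) {z v1 v2 : ℝ} (h : Good L T z v1 v2)
    (hz : z ∈ L) : v1 = z * v2 := by
  obtain ⟨P, Q, hQ, hPQ, h1, h2⟩ := h
  have hf : (C (⟨z, hz⟩ : L) * Q - P : MvPolynomial Pt L) = 0 := by
    rw [algebraicIndependent_iff] at hind
    apply hind
    simp only [map_sub, map_mul, aeval_C]
    change z * (aeval T Q : ℝ) - aeval T P = 0
    rw [hPQ, sub_self]
  have h3 := congrArg (aeval (SS T)) hf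
  simp only [map_sub, map_mul, aeval_C, map_zero] at h3
  change z * (aeval (SS T) Q : ℝ) - aeval (SS T) P = 0 at h3
  rw [h1, h2] at h3
  linarith

theorem good_mob {z v1 v2 w : ℝ} (h : Good L T z v1 v2) (α β γ δ : L)
    (hden : (γ : ℝ) * z + δ ≠ 0) (hw : w * ((γ : ℝ) * z + δ) = (α : ℝ) * z + β) :
    Good L T w (α * v1 + β * v2) (γ * v1 + δ * v2) := by
  obtain ⟨P, Q, hQ, hPQ, h1, h2⟩ := h
  refine ⟨C α * P + C β * Q, C γ * P + C δ * Q, ?_, ?_, ?_, ?_⟩
  · simp only [map_add, map_mul, aeval_C]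
    change (γ : ℝ) * aeval T P + (δ : ℝ) * aeval T Q ≠ 0
    rw [← hPQ]
    have : (γ : ℝ) * (z * aeval T Q) + (δ : ℝ) * aeval T Q = aeval T Q * ((γ : ℝ) * z + δ) := by ring
    rw [this]
    exact mul_ne_zero hQ hden
  · simp only [map_add, map_mul, aeval_C]
    change w * ((γ : ℝ) * aeval T P + (δ : ℝ) * aeval T Q) = (α : ℝ) * aeval T P + (β : ℝ) * aeval T Q
    rw [← hPQ]
    linear_combination (aeval T Q : ℝ) * hw
  · simp only [map_add, map_mul, aeval_C]
    rw [h1, h2]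
    rfl
  · simp only [map_add, map_mul, aeval_C]
    rw [h1, h2]
    rfl

theorem good_of_mem {z : ℝ} (hz : z ∈ L) : Good L T z z 1 := by
  refine ⟨C ⟨z, hz⟩, 1, ?_, ?_, ?_, ?_⟩
  · simp
  · simp only [map_one, aeval_C]
    change z * 1 = z
    ring
  · simp only [aeval_C]
    rfl
  · simp

end alg

section pieces
variable {n : ℤ} {K L : Subfield ℝ} {T : Pt → ℝ} {x : ℤ → ℝ}

/-- Polynomial version of the break point. -/
noncomputable def Dp (n : ℤ) (L : Subfield ℝ) (x : ℤ → ℝ) (hx : ∀ j, x j ∈ L) (j i : ℤ) :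
    MvPolynomial Pt L :=
  C ⟨x j, hx j⟩ + C (⟨x (j+1), hx (j+1)⟩ - ⟨x j, hx j⟩) *
    (C ((sq i : ℚ) : L) + C (((sq (i+1) : ℚ) : L) - ((sq i : ℚ) : L)) * X (x, j % n, i, false))

theorem aeval_Dp (S : Pt → ℝ) (hx : ∀ j, x j ∈ L) (j i : ℤ) :
    (aeval S (Dp n L x hx j i) : ℝ) = DD x (tt n S x) j i := by
  unfold Dp DD tt
  simp only [map_add, map_mul, map_sub, aeval_C, aeval_X]
  rfl

theorem per_mul (hx : Adm n K x) (j : ℤ) (k : ℤ) : x (j + k * n) = x j + k * n := by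
  induction k using Int.induction_on with
  | zero => simp
  | succ k ih =>
    have h1 : j + ((k : ℤ) + 1) * n = (j + k * n) + n := by ring
    rw [h1, hx.per, ih]
    push_cast
    ring
  | pred k ih =>
    have h1 : j + (-(k : ℤ)) * n = (j + (-(k:ℤ) - 1) * n) + n := by ring
    rw [h1, hx.per] at ih
    have h2 : x (j + (-(k:ℤ) - 1) * n) = x j + ((-(k : ℤ) : ℤ) : ℝ) * n - n := by linarith
    rw [h2]
    push_cast
    ring

theorem DD_SS (hx : Adm n K x) (j i : ℤ) :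
    DD x (tt n (SS T) x) j i = T (x, 0, 0, false) + ((j / n : ℤ) : ℝ) * n := by
  have hs : (0 : ℝ) < (sq (i+1) : ℝ) - (sq i : ℝ) := by
    have : (sq i : ℝ) < (sq (i+1) : ℝ) := by exact_mod_cast sq_strictMono (lt_add_one i)
    linarith
  have h0 : j = j % n + (j / n) * n := by
    have := Int.emod_add_mul_ediv j n
    linarith
  have h1 : x j = x (j % n) + ((j / n : ℤ) : ℝ) * n := by
    have := per_mul hx (j % n) (j / n)
    rw [← h0] at this
    exact this
  have h2 : x (j + 1) = x (j % n + 1) + ((j / n : ℤ) : ℝ) * n := by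
    have := per_mul hx (j % n + 1) (j / n)
    rw [show j % n + 1 + j / n * n = (j % n + (j / n) * n) + 1 by ring, ← h0] at this
    exact this
  have h3 : 0 < x (j % n + 1) - x (j % n) := sub_pos.mpr (hx.mono (lt_add_one _))
  unfold DD tt SS
  simp only [Bool.false_eq_true, if_false]
  rw [h1, h2]
  have h4 : ((sq (i+1) : ℝ) - (sq i : ℝ)) *
      (((T (x, 0, 0, false) - x (j % n)) / (x (j % n + 1) - x (j % n)) - (sq i : ℝ)) /
        ((sq (i+1) : ℝ) - (sq i : ℝ))) =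
      (T (x, 0, 0, false) - x (j % n)) / (x (j % n + 1) - x (j % n)) - (sq i : ℝ) := by
    field_simp
  rw [h4]
  have h5 : (x (j % n + 1) - x (j % n)) *
     ((T (x, 0, 0, false) - x (j % n)) / (x (j % n + 1) - x (j % n))) =
      T (x, 0, 0, false) - x (j % n) := by
    field_simp
  linear_combination h5

theorem good_pos {b : ℝ ≃o ℝ} (hb : BSpec n T x b) (hx : Adm n K x) (hKL : K ≤ L)
    (hT : ∀ p, T p ∈ Ioo (0:ℝ) 1)
    {z v1 v2 : ℝ} (h : Good L T z v1 v2) {j i : ℤ} (h1 : cc j i ≤ z) (h2 : z < cc j (i+1)) :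
    Good L T (b z)
      (((v1 - cc j i * v2) + ss n T x j i * (cc j (i+1) * v2 - v1)) *
        (T (x, 0, 0, false) + ((j / n : ℤ) : ℝ) * n))
      ((v1 - cc j i * v2) + ss n T x j i * (cc j (i+1) * v2 - v1)) := by
  obtain ⟨P, Q, hQ, hPQ, hv1, hv2⟩ := h
  have hxL : ∀ j, x j ∈ L := fun j => hKL (hx.mem j)
  obtain ⟨hb1, hb2, hb3⟩ := hb.piece j i z h1 h2
  have hc : ∀ i, ∃ c : L, (c : ℝ) = cc j i := fun i =>
    ⟨(j : L) + ((sq i : ℚ) : L), by unfold cc; push_cast; rfl⟩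
  obtain ⟨c, hcc⟩ := hc i
  obtain ⟨c', hcc'⟩ := hc (i+1)
  have hσ : (0:ℝ) < ss n T x j i := (hT _).1
  refine ⟨Dp n L x hxL j (i+1) * (P - C c * Q) + X (x, j % n, i, true) * Dp n L x hxL j i *
    (C c' * Q - P), (P - C c * Q) + X (x, j % n, i, true) * (C c' * Q - P), ?_, ?_, ?_, ?_⟩
  · simp only [map_add, map_sub, map_mul, aeval_C, aeval_X]
    change (aeval T P : ℝ) - (c : ℝ) * aeval T Q + ss n T x j i * ((c' : ℝ) * aeval T Q - aeval T P) ≠ 0
    rw [← hPQ, hcc, hcc']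
    have : z * (aeval T Q : ℝ) - cc j i * aeval T Q +
      ss n T x j i * (cc j (i+1) * aeval T Q - z * aeval T Q) =
      aeval T Q * ((z - cc j i) + ss n T x j i * (cc j (i+1) - z)) := by ring
    rw [this]
    exact mul_ne_zero hQ (den_pos hσ h1 h2).ne'
  · simp only [map_add, map_sub, map_mul, aeval_C, aeval_X, aeval_Dp]
    change b z * ((aeval T P : ℝ) - (c : ℝ) * aeval T Q +
      ss n T x j i * ((c' : ℝ) * aeval T Q - aeval T P)) =
      DD x (tt n T x) j (i+1) * ((aeval T P : ℝ) - (c : ℝ) * aeval T Q) +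
      ss n T x j i * DD x (tt n T x) j i * ((c' : ℝ) * aeval T Q - aeval T P)
    rw [← hPQ, hcc, hcc']
    linear_combination -(aeval T Q : ℝ) * hb3
  · simp only [map_add, map_sub, map_mul, aeval_C, aeval_X, aeval_Dp, hv1, hv2, DD_SS hx]
    change _ * (v1 - (c : ℝ) * v2) + ss n T x j i * _ * ((c' : ℝ) * v2 - v1) = _
    rw [hcc, hcc']
    ring
  · simp only [map_add, map_sub, map_mul, aeval_C, aeval_X, hv1, hv2]
    change (v1 - (c : ℝ) * v2) + ss n T x j i * ((c' : ℝ) * v2 - v1) = _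
    rw [hcc, hcc']

theorem good_neg {b : ℝ ≃o ℝ} (hb : BSpec n T x b) (hx : Adm n K x) (hKL : K ≤ L)
    (hT : ∀ p, T p ∈ Ioo (0:ℝ) 1)
    {z v1 v2 : ℝ} (h : Good L T (b z) v1 v2) {j i : ℤ} (h1 : cc j i ≤ z) (h2 : z < cc j (i+1)) :
    Good L T z
      ((v1 - (T (x, 0, 0, false) + ((j / n : ℤ) : ℝ) * n) * v2) *
        (ss n T x j i * cc j (i+1) - cc j i))
      ((v1 - (T (x, 0, 0, false) + ((j / n : ℤ) : ℝ) * n) * v2) * (ss n T x j i - 1)) := by
  obtain ⟨P, Q, hQ, hPQ, hv1, hv2⟩ := h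
  have hxL : ∀ j, x j ∈ L := fun j => hKL (hx.mem j)
  obtain ⟨hb1, hb2, hb3⟩ := hb.piece j i z h1 h2
  have hc : ∀ i, ∃ c : L, (c : ℝ) = cc j i := fun i =>
    ⟨(j : L) + ((sq i : ℚ) : L), by unfold cc; push_cast; rfl⟩
  obtain ⟨c, hcc⟩ := hc i
  obtain ⟨c', hcc'⟩ := hc (i+1)
  have hσ : (0:ℝ) < ss n T x j i := (hT _).1
  refine ⟨C c * (Dp n L x hxL j (i+1) * Q - P) + X (x, j % n, i, true) * C c' *
    (P - Dp n L x hxL j i * Q),
    (Dp n L x hxL j (i+1) * Q - P) + X (x, j % n, i, true) * (P - Dp n L x hxL j i * Q),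
    ?_, ?_, ?_, ?_⟩
  · simp only [map_add, map_sub, map_mul, aeval_C, aeval_X, aeval_Dp]
    change DD x (tt n T x) j (i+1) * (aeval T Q : ℝ) - aeval T P + ss n T x j i *
      ((aeval T P : ℝ) - DD x (tt n T x) j i * aeval T Q) ≠ 0
    rw [← hPQ]
    have : DD x (tt n T x) j (i+1) * (aeval T Q : ℝ) - b z * aeval T Q + ss n T x j i *
      (b z * (aeval T Q : ℝ) - DD x (tt n T x) j i * aeval T Q) =
      aeval T Q * ((DD x (tt n T x) j (i+1) - b z) +
        ss n T x j i * (b z - DD x (tt n T x) j i)) := by ring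
    rw [this]
    refine mul_ne_zero hQ ?_
    have h3 : 0 ≤ ss n T x j i * (b z - DD x (tt n T x) j i) := mul_nonneg hσ.le (by linarith)
    have h4 : 0 < (DD x (tt n T x) j (i+1) - b z) +
        ss n T x j i * (b z - DD x (tt n T x) j i) := by linarith
    exact h4.ne'
  · simp only [map_add, map_sub, map_mul, aeval_C, aeval_X, aeval_Dp]
    change z * (DD x (tt n T x) j (i+1) * (aeval T Q : ℝ) - aeval T P + ss n T x j i *
      ((aeval T P : ℝ) - DD x (tt n T x) j i * aeval T Q)) =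
      (c : ℝ) * (DD x (tt n T x) j (i+1) * (aeval T Q : ℝ) - aeval T P) + ss n T x j i * (c' : ℝ) *
      ((aeval T P : ℝ) - DD x (tt n T x) j i * aeval T Q)
    rw [← hPQ, hcc, hcc']
    linear_combination (aeval T Q : ℝ) * hb3
  · simp only [map_add, map_sub, map_mul, aeval_C, aeval_X, aeval_Dp, hv1, hv2, DD_SS hx]
    change (c : ℝ) * (_ * v2 - v1) + ss n T x j i * (c' : ℝ) * (v1 - _ * v2) = _
    rw [hcc, hcc']
    ring
  · simp only [map_add, map_sub, map_mul, aeval_C, aeval_X, aeval_Dp, hv1, hv2, DD_SS hx]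
    change (_ * v2 - v1) + ss n T x j i * (v1 - _ * v2) = _
    ring

end pieces

end Pool.Agent.H42.Circ
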