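import Mathlib
import Pool.Agent.H42.CircGood

set_option autoImplicit false

namespace Pool.Agent.H42.Circ

open Set MvPolynomial

/-- Translations by multiples of the period. -/
def IsTr (n : ℤ) (g : ℝ ≃o ℝ) : Prop := ∃ k : ℤ, ∀ z, g z = z + k * n

/-- Signed letters. -/
noncomputable def ell (n : ℤ) (T : Pt → ℝ) (e : Bool) (x : ℤ → ℝ) : ℝ ≃o ℝ :=
  if e = true then bel n T x else (bel n T x)⁻¹

/-- Forbidden values of the starting point. -/
def bad (e : Bool) (x : ℤ → ℝ) (j : ℤ) : ℝ := if e = true then (j : ℝ) else x j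

/-- The state of the orbit of a generic point after a letter. -/
def St (n : ℤ) (L : Subfield ℝ) (T : Pt → ℝ) (e : Bool) (x : ℤ → ℝ) (z : ℝ) : Prop :=
  (e = true ∧ ∃ lam : ℝ, lam ≠ 0 ∧ ∃ k : ℤ,
      Good L T z (lam * (T (x, 0, 0, false) + k * n)) lam) ∨
  (e = false ∧ ∃ lam : ℝ, lam ≠ 0 ∧ ∃ j i : ℤ,
      Good L T z (lam * (ss n T x j i * cc j (i+1) - cc j i)) (lam * (ss n T x j i - 1)))

section
variable {n : ℤ} {K L : Subfield ℝ} {T : Pt → ℝ}

theorem exists_cc (L : Subfield ℝ) (j i : ℤ) : ∃ c : L, (c : ℝ) = cc j i :=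
  ⟨(j : L) + ((sq i : ℚ) : L), by unfold cc; push_cast; rfl⟩

theorem St_not_mem (hind : AlgebraicIndependent L T) {e : Bool} {x : ℤ → ℝ} {z : ℝ}
    (h : St n L T e x z) : z ∉ L := by
  intro hz
  rcases h with ⟨-, lam, hlam, k, hg⟩ | ⟨-, lam, hlam, j, i, hg⟩
  · have h1 := good_mem hind hg hz
    have h2 : T (x, 0, 0, false) + k * n = z := by
      apply mul_left_cancel₀ hlam
      linarith
    have h3 := single_indep hind (x, 0, 0, false) ((k : L) * (n : L) - ⟨z, hz⟩) 1 0 (by
      push_cast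
      linarith)
    exact one_ne_zero h3.2.1
  · have h1 := good_mem hind hg hz
    obtain ⟨c, hc⟩ := exists_cc L j i
    obtain ⟨c', hc'⟩ := exists_cc L j (i+1)
    have h2 : ss n T x j i * cc j (i+1) - cc j i = z * (ss n T x j i - 1) := by
      apply mul_left_cancel₀ hlam
      linarith
    have h3 := single_indep hind (x, j % n, i, true) (⟨z, hz⟩ - c) (c' - ⟨z, hz⟩) 0 (by
      push_cast
      rw [hc, hc']
      change z - cc j i + (cc j (i+1) - z) * ss n T x j i + 0 * _ = 0
      linarith)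
    have h4 : (c : L) = ⟨z, hz⟩ := by
      have := h3.1
      exact (sub_eq_zero.mp this).symm
    have h5 : (c' : L) = ⟨z, hz⟩ := sub_eq_zero.mp h3.2.1
    have h6 : cc j i = cc j (i+1) := by rw [← hc, ← hc', h4, h5]
    exact absurd h6 (cc_lt_succ j i).ne

theorem St_base (hn : 0 < n) (hT : ∀ p, T p ∈ Ioo (0:ℝ) 1) (hKL : K ≤ L)
    (hind : AlgebraicIndependent L T) (e : Bool) {x : ℤ → ℝ} (hx : Adm n K x) {u : ℝ}
    (hu : u ∈ L) (hbad : ∀ j, u ≠ bad e x j) : St n L T e x (ell n T e x u) := by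
  have hb := bel_spec hn hT hx
  cases e with
  | true =>
    left
    refine ⟨rfl, ?_⟩
    rcases source_cases u with ⟨j, hj⟩ | ⟨j, i, h1, h2⟩
    · exact absurd hj (hbad j)
    · have h3 := good_pos hb hx hKL hT (good_of_mem (T := T) hu) h1 h2
      have hσ : (0:ℝ) < ss n T x j i := (hT _).1
      refine ⟨_, ?_, _, h3⟩
      have := den_pos hσ h1 h2
      rw [mul_one, mul_one]
      exact this.ne'
  | false =>
    right
    refine ⟨rfl, ?_⟩
    rcases hb.surj u with ⟨j, hj⟩ | ⟨j, i, z, h1, h2, h3⟩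
    · exact absurd hj (hbad j)
    · have h5 : ell n T false x u = z := by
        change (bel n T x)⁻¹ u = z
        rw [← h3]
        exact (bel n T x).symm_apply_apply z
      rw [h5]
      subst h3
      have h4 := good_neg hb hx hKL hT (good_of_mem (T := T) hu) h1 h2
      refine ⟨_, ?_, _, _, h4⟩
      rw [mul_one]
      intro h0
      have h6 := single_indep hind (x, 0, 0, false)
        (⟨_, hu⟩ - ((j / n : ℤ) : L) * (n : L)) (-1) 0 (by
        push_cast
        change (bel n T x) z - _ + _ + _ = 0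
        linear_combination h0)
      exact one_ne_zero (neg_eq_zero.mp h6.2.1)

theorem nv1 (hind : AlgebraicIndependent L T) {x x' : ℤ → ℝ} {j i : ℤ} {k : ℤ} {lam : ℝ}
    (hlam : lam ≠ 0) (α β γ δ : L) (hd : α * δ - β * γ ≠ 0) :
    ((α * (lam * (T (x', 0, 0, false) + k * n)) + β * lam) -
      cc j i * (γ * (lam * (T (x', 0, 0, false) + k * n)) + δ * lam)) + ss n T x j i *
      (cc j (i+1) * (γ * (lam * (T (x', 0, 0, false) + k * n)) + δ * lam) -
        (α * (lam * (T (x', 0, 0, false) + k * n)) + β * lam)) ≠ (0 : ℝ) := by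
  intro h
  obtain ⟨c, hc⟩ := exists_cc L j i
  obtain ⟨c', hc'⟩ := exists_cc L j (i+1)
  have hcc : c' - c ≠ 0 := by
    intro h0
    have : (c' : ℝ) = c := by rw [sub_eq_zero.mp h0]
    rw [hc, hc'] at this
    exact absurd this.symm (cc_lt_succ j i).ne
  obtain ⟨e1, e2, e3, e4⟩ := pair_indep hind
    (p := (x', 0, 0, false)) (q := (x, j % n, i, true)) (by simp)
    (α * k * n + β - c * (γ * k * n + δ)) (α - c * γ) (c' * (γ * k * n + δ) - (α * k * n + β))
    (c' * γ - α) (by
    push_cast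
    rw [hc, hc']
    apply mul_left_cancel₀ hlam
    rw [mul_zero]
    unfold ss at h
    linear_combination h)
  have h5 : (c' - c) * γ = 0 := by linear_combination e2 + e4
  have h6 : γ = 0 := (mul_eq_zero.mp h5).resolve_left hcc
  apply hd
  rw [h6] at e2 ⊢
  have h7 : α = 0 := by simpa using e2
  rw [h7]
  ring

theorem nv4 (hind : AlgebraicIndependent L T) {x x' : ℤ → ℝ} {j i : ℤ} {k : ℤ} {lam : ℝ}
    (hlam : lam ≠ 0) (α β γ δ : L) (hd : α * δ - β * γ ≠ 0) :
    (α * (lam * (ss n T x' j i * cc j (i+1) - cc j i)) + β * (lam * (ss n T x' j i - 1))) -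
      (T (x, 0, 0, false) + k * n) *
      (γ * (lam * (ss n T x' j i * cc j (i+1) - cc j i)) + δ * (lam * (ss n T x' j i - 1)))
      ≠ (0 : ℝ) := by
  intro h
  obtain ⟨c, hc⟩ := exists_cc L j i
  obtain ⟨c', hc'⟩ := exists_cc L j (i+1)
  have hcc : c' - c ≠ 0 := by
    intro h0
    have : (c' : ℝ) = c := by rw [sub_eq_zero.mp h0]
    rw [hc, hc'] at this
    exact absurd this.symm (cc_lt_succ j i).ne
  obtain ⟨e1, e2, e3, e4⟩ := pair_indep hind
    (q := (x, 0, 0, false)) (p := (x', j % n, i, true)) (by simp)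
    (-(α * c + β) + k * n * (γ * c + δ)) ((α * c' + β) - k * n * (γ * c' + δ))
    (γ * c + δ) (-(γ * c' + δ)) (by
    push_cast
    rw [hc, hc']
    apply mul_left_cancel₀ hlam
    rw [mul_zero]
    unfold ss at h
    linear_combination h)
  have h5 : (c' - c) * γ = 0 := by linear_combination -e3 - e4
  have h6 : γ = 0 := (mul_eq_zero.mp h5).resolve_left hcc
  apply hd
  rw [h6] at e3 ⊢
  have h7 : δ = 0 := by simpa using e3
  rw [h7]
  ring

theorem nv3 (hind : AlgebraicIndependent L T) {x x' : ℤ → ℝ} {k k' : ℤ} {lam : ℝ}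
    (hlam : lam ≠ 0) (α β γ δ : L) (hd : α * δ - β * γ ≠ 0)
    (h : (α * (lam * (T (x', 0, 0, false) + k' * n)) + β * lam) -
      (T (x, 0, 0, false) + k * n) * (γ * (lam * (T (x', 0, 0, false) + k' * n)) + δ * lam) =
      (0 : ℝ)) : x = x' ∧ γ = 0 ∧ α = δ ∧ β = δ * (k - k') * n := by
  by_cases hx : x = x'
  · subst hx
    obtain ⟨e1, e2, e3⟩ := single_indep hind (x, 0, 0, false)
      (α * k' * n + β - k * n * (γ * k' * n + δ)) (α - k * n * γ - (γ * k' * n + δ)) (-γ) (by
      push_cast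
      apply mul_left_cancel₀ hlam
      rw [mul_zero]
      linear_combination h)
    have h6 : γ = 0 := neg_eq_zero.mp e3
    subst h6
    have h7 : α = δ := by linear_combination e2
    subst h7
    refine ⟨rfl, rfl, rfl, ?_⟩
    linear_combination e1
  · exfalso
    obtain ⟨e1, e2, e3, e4⟩ := pair_indep hind
      (p := (x', 0, 0, false)) (q := (x, 0, 0, false)) (by
        intro h0
        apply hx
        simpa using h0.symm)
      (α * k' * n + β - k * n * (γ * k' * n + δ)) (α - k * n * γ) (-(γ * k' * n + δ)) (-γ) (by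
      push_cast
      apply mul_left_cancel₀ hlam
      rw [mul_zero]
      linear_combination h)
    have h6 : γ = 0 := neg_eq_zero.mp e4
    rw [h6] at e3
    have h7 : δ = 0 := by simpa using e3
    apply hd
    rw [h6, h7]
    ring

theorem nv2 (hn : 0 < n) (hind : AlgebraicIndependent L T) {x x' : ℤ → ℝ} {j i j' i' : ℤ} {lam : ℝ}
    (hlam : lam ≠ 0) (α β γ δ : L) (hd : α * δ - β * γ ≠ 0)
    (h : ((α * (lam * (ss n T x' j' i' * cc j' (i'+1) - cc j' i')) +
        β * (lam * (ss n T x' j' i' - 1))) -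
      cc j i * (γ * (lam * (ss n T x' j' i' * cc j' (i'+1) - cc j' i')) +
        δ * (lam * (ss n T x' j' i' - 1)))) + ss n T x j i *
      (cc j (i+1) * (γ * (lam * (ss n T x' j' i' * cc j' (i'+1) - cc j' i')) +
        δ * (lam * (ss n T x' j' i' - 1))) -
        (α * (lam * (ss n T x' j' i' * cc j' (i'+1) - cc j' i')) +
        β * (lam * (ss n T x' j' i' - 1)))) = (0 : ℝ)) :
      x = x' ∧ γ = 0 ∧ α = δ ∧ ∃ k : ℤ, β = δ * k * n := by
  obtain ⟨c, hc⟩ := exists_cc L j i
  obtain ⟨c', hc'⟩ := exists_cc L j (i+1)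
  obtain ⟨d, hd0⟩ := exists_cc L j' i'
  obtain ⟨d', hd0'⟩ := exists_cc L j' (i'+1)
  have hcc : c' - c ≠ 0 := by
    intro h0
    have : (c' : ℝ) = c := by rw [sub_eq_zero.mp h0]
    rw [hc, hc'] at this
    exact absurd this.symm (cc_lt_succ j i).ne
  by_cases hidx : (x', j' % n, i', true) = ((x, j % n, i, true) : Pt)
  · have hx : x' = x := congrArg Prod.fst hidx
    have hjj : j' % n = j % n := congrArg (fun p : Pt => p.2.1) hidx
    have hii : i' = i := congrArg (fun p : Pt => p.2.2.1) hidx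
    subst hx hii
    obtain ⟨k, hk⟩ : ∃ k : ℤ, j - j' = k * n := by
      have h1 := Int.emod_add_mul_ediv j n
      have h2 := Int.emod_add_mul_ediv j' n
      refine ⟨j / n - j' / n, ?_⟩
      rw [hjj] at h2
      linarith
    have hdc : d = c - k * n := by
      apply Subtype.ext
      push_cast
      rw [hc, hd0]
      unfold cc
      have : (j : ℝ) - j' = k * n := by exact_mod_cast hk
      linarith
    have hdc' : d' = c' - k * n := by
      apply Subtype.ext
      push_cast
      rw [hc', hd0']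
      unfold cc
      have : (j : ℝ) - j' = k * n := by exact_mod_cast hk
      linarith
    have hss : ss n T x' j' i' = ss n T x' j i' := by
      unfold ss
      rw [hjj]
    obtain ⟨e1, e2, e3⟩ := single_indep hind (x', j % n, i', true)
      (-((α * d + β) - c * (γ * d + δ)))
      ((α * d' + β) - c * (γ * d' + δ) + ((α * d + β) - c' * (γ * d + δ)))
      (c' * (γ * d' + δ) - (α * d' + β)) (by
      push_cast
      rw [hc, hc', hd0, hd0']
      apply mul_left_cancel₀ hlam
      rw [mul_zero]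
      rw [hss] at h
      unfold ss at h
      linear_combination h)
    subst hdc hdc'
    have h5 : (c' - c) * (γ * (c' - c)) = 0 := by
      linear_combination e1 + e2 + e3
    have h6 : γ = 0 := by
      rcases mul_eq_zero.mp h5 with h7 | h7
      · exact absurd h7 hcc
      · exact (mul_eq_zero.mp h7).resolve_right hcc
    subst h6
    have h7 : α = δ := by
      have : (c' - c) * (α - δ) = 0 := by
        linear_combination e1 - e3
      exact sub_eq_zero.mp ((mul_eq_zero.mp this).resolve_left hcc)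
    subst h7
    refine ⟨rfl, rfl, rfl, k, ?_⟩
    linear_combination -e1
  · exfalso
    obtain ⟨e1, e2, e3, e4⟩ := pair_indep hind hidx
      (-((α * d + β) - c * (γ * d + δ))) ((α * d' + β) - c * (γ * d' + δ))
      ((α * d + β) - c' * (γ * d + δ)) (c' * (γ * d' + δ) - (α * d' + β)) (by
      push_cast
      rw [hc, hc', hd0, hd0']
      apply mul_left_cancel₀ hlam
      rw [mul_zero]
      unfold ss at h
      linear_combination h)
    have h5 : (c' - c) * (γ * d' + δ) = 0 := by linear_combination e2 + e4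
    have h6 : γ * d' + δ = 0 := (mul_eq_zero.mp h5).resolve_left hcc
    have h7 : α * d' + β = 0 := by
      rw [h6] at e2
      linear_combination e2
    apply hd
    linear_combination α * h6 - γ * h7

theorem St_step (hn : 0 < n) (hT : ∀ p, T p ∈ Ioo (0:ℝ) 1) (hKL : K ≤ L)
    (hind : AlgebraicIndependent L T) {e e' : Bool} {x x' : ℤ → ℝ} (hx : Adm n K x)
    {z : ℝ} (hz : St n L T e' x' z) {g : ℝ ≃o ℝ} (hg : PP K g)
    (hR : ∀ z, z ∉ K → ∀ k : ℤ, g z = z + k * n → IsTr n g)
    (hred : ¬ (x = x' ∧ e ≠ e' ∧ IsTr n g)) : St n L T e x (ell n T e x (g z)) := by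
  have hzL := St_not_mem hind hz
  have hzK : z ∉ K := fun h => hzL (hKL h)
  have hgL := PP_mono hKL hg
  obtain ⟨α, β, γ, δ, hd, hm⟩ := hgL.2.2 z hzL
  have hden := den_ne hzL hd
  have hgz : g z ∉ L := fun h => hzL (hgL.2.1 _ h)
  have hb := bel_spec hn hT hx
  -- translation criterion
  have htr : ∀ k : ℤ, γ = 0 → α = δ → β = δ * k * n → IsTr n g := by
    intro k h1 h2 h3
    apply hR z hzK k
    have hδ : (δ : ℝ) ≠ 0 := by
      intro h0
      have : δ = 0 := by exact_mod_cast h0
      apply hd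
      rw [h1, this]
      ring
    rw [h1, h2, h3] at hm
    push_cast at hm
    apply mul_left_cancel₀ hδ
    linear_combination hm
  cases e with
  | true =>
    left
    refine ⟨rfl, ?_⟩
    rcases source_cases (g z) with ⟨j, hj⟩ | ⟨j, i, h1, h2⟩
    · exact absurd (hj ▸ intCast_mem L j) hgz
    · change ∃ lam : ℝ, lam ≠ 0 ∧ ∃ k : ℤ,
        Good L T (bel n T x (g z)) (lam * (T (x, 0, 0, false) + k * n)) lam
      rcases hz with ⟨he', lam, hlam, k, hgood⟩ | ⟨he', lam, hlam, j', i', hgood⟩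
      · have h3 := good_pos hb hx hKL hT (good_mob hgood α β γ δ hden hm) h1 h2
        exact ⟨_, nv1 hind hlam α β γ δ hd, _, h3⟩
      · have h3 := good_pos hb hx hKL hT (good_mob hgood α β γ δ hden hm) h1 h2
        refine ⟨_, ?_, _, h3⟩
        intro h0
        obtain ⟨hxx, hγ, hα, k, hβ⟩ := nv2 hn hind hlam α β γ δ hd h0
        exact hred ⟨hxx, by rw [he']; simp, htr k hγ hα hβ⟩
  | false =>
    right
    refine ⟨rfl, ?_⟩
    rcases hb.surj (g z) with ⟨j, hj⟩ | ⟨j, i, w, h1, h2, h3⟩
    · exact absurd (hj ▸ hKL (hx.mem j)) hgz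
    · have h5 : ell n T false x (g z) = w := by
        change (bel n T x)⁻¹ (g z) = w
        rw [← h3]
        exact (bel n T x).symm_apply_apply w
      rw [h5]
      rcases hz with ⟨he', lam, hlam, k, hgood⟩ | ⟨he', lam, hlam, j', i', hgood⟩
      · have h4 := good_mob hgood α β γ δ hden hm
        rw [← h3] at h4
        have h6 := good_neg hb hx hKL hT h4 h1 h2
        refine ⟨_, ?_, _, _, h6⟩
        intro h0
        obtain ⟨hxx, hγ, hα, hβ⟩ := nv3 hind hlam α β γ δ hd h0
        refine hred ⟨hxx, by rw [he']; simp, htr (j / n - k) hγ hα ?_⟩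
        rw [hβ]
        push_cast
        ring
      · have h4 := good_mob hgood α β γ δ hden hm
        rw [← h3] at h4
        have h6 := good_neg hb hx hKL hT h4 h1 h2
        exact ⟨_, nv4 hind hlam α β γ δ hd, _, _, h6⟩

end

end Pool.Agent.H42.Circ
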