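import Mathlib
import Pool.Agent.H42.CircStep

set_option autoImplicit false

namespace Pool.Agent.H42.Circ

open Set MvPolynomial

/-- Reduced words, with the set of nondegenerate starting points. -/
inductive Red (n : ℤ) (K : Subfield ℝ) (T : Pt → ℝ) (G : Subgroup (ℝ ≃o ℝ)) :
    Bool → (ℤ → ℝ) → (ℝ ≃o ℝ) → (ℝ → Prop) → Prop
  | base (e : Bool) (x : ℤ → ℝ) (g : ℝ ≃o ℝ) (hx : Adm n K x) (hg : g ∈ G) :
      Red n K T G e x (ell n T e x * g) (fun u => ∀ j, g u ≠ bad e x j)
  | step (e e' : Bool) (x x' : ℤ → ℝ) (g w : ℝ ≃o ℝ) (N : ℝ → Prop) (hx : Adm n K x)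
      (hg : g ∈ G) (hw : Red n K T G e' x' w N) (hred : ¬ (x = x' ∧ e ≠ e' ∧ IsTr n g)) :
      Red n K T G e x (ell n T e x * (g * w)) N

/-- The invariants of a stage. -/
structure Inv (n : ℤ) (K : Subfield ℝ) (G : Subgroup (ℝ ≃o ℝ)) : Prop where
  tr : ∀ g, IsTr n g → g ∈ G
  eqv : ∀ g ∈ G, ∀ z, g (z + n) = g z + n
  pp : ∀ g ∈ G, PP K g
  rig : ∀ g ∈ G, ∀ z, z ∉ K → ∀ k : ℤ, g z = z + k * n → IsTr n g

/-- The next group. -/
noncomputable def nxt (n : ℤ) (K : Subfield ℝ) (T : Pt → ℝ) (G : Subgroup (ℝ ≃o ℝ)) :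
    Subgroup (ℝ ≃o ℝ) :=
  Subgroup.closure ((G : Set (ℝ ≃o ℝ)) ∪ {h | ∃ x, Adm n K x ∧ h = bel n T x})

theorem eqv_mul {n : ℤ} {g : ℝ ≃o ℝ} (h : ∀ z, g (z + n) = g z + n) (m : ℤ) (z : ℝ) :
    g (z + m * n) = g z + m * n := by
  induction m using Int.induction_on with
  | zero => simp
  | succ k ih =>
    have h1 : z + (((k : ℤ) + 1 : ℤ) : ℝ) * n = (z + ((k : ℤ) : ℝ) * n) + n := by push_cast; ring
    rw [h1, h, ih]
    push_cast
    ring
  | pred k ih =>
    have h1 : z + ((-(k : ℤ) : ℤ) : ℝ) * n = (z + ((-(k:ℤ) - 1 : ℤ) : ℝ) * n) + n := by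
      push_cast; ring
    rw [h1, h] at ih
    have h2 : g (z + ((-(k:ℤ) - 1 : ℤ) : ℝ) * n) = g z + ((-(k : ℤ) : ℤ) : ℝ) * n - n := by
      linarith
    rw [h2]
    push_cast
    ring

section
variable {n : ℤ} {K : Subfield ℝ} {T : Pt → ℝ} {G : Subgroup (ℝ ≃o ℝ)}

theorem red_St (hn : 0 < n) (hT : ∀ p, T p ∈ Ioo (0:ℝ) 1) (hG : Inv n K G) {L : Subfield ℝ}
    (hKL : K ≤ L) (hind : AlgebraicIndependent L T) {u : ℝ} (hu : u ∈ L)
    {e : Bool} {x : ℤ → ℝ} {w : ℝ ≃o ℝ} {N : ℝ → Prop} (h : Red n K T G e x w N) (hN : N u) :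
    St n L T e x (w u) := by
  induction h with
  | base e x g hx hg =>
    exact St_base hn hT hKL hind e hx (PP_mem_sup hKL (hG.pp g hg) hu) hN
  | step e e' x x' g w N hx hg hw hred ih =>
    exact St_step hn hT hKL hind hx (ih hN) (hG.pp g hg)
      (fun z hz k hk => hG.rig g hg z hz k hk) hred

theorem red_generic (hG : Inv n K G) {z : ℝ} (hz : z ∉ K)
    {e : Bool} {x : ℤ → ℝ} {w : ℝ ≃o ℝ} {N : ℝ → Prop} (h : Red n K T G e x w N) : N z := by
  induction h with
  | base e x g hx hg =>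
    intro j hj
    apply hz
    apply (hG.pp g hg).2.1
    rw [hj]
    unfold bad
    split_ifs
    · exact intCast_mem K j
    · exact hx.mem j
  | step e e' x x' g w N hx hg hw hred ih => exact ih

theorem red_pigeon {k : ℕ} (hk : 0 < k) (hnk : n = k) (hG : Inv n K G) (u : Fin (k+1) → ℝ)
    (hu : ∀ i j, i ≠ j → ∀ m : ℤ, u i ≠ u j + m * n)
    {e : Bool} {x : ℤ → ℝ} {w : ℝ ≃o ℝ} {N : ℝ → Prop} (h : Red n K T G e x w N) :
    ∃ i, N (u i) := by
  induction h with
  | base e x g hx hg =>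
    by_contra hcon
    push Not at hcon
    choose f hf using hcon
    have : NeZero k := ⟨hk.ne'⟩
    obtain ⟨i, j, hij, hfij⟩ := Fintype.exists_ne_map_eq_of_card_lt
      (fun i => ((f i : ℤ) : ZMod k)) (by rw [ZMod.card, Fintype.card_fin]; omega)
    rw [ZMod.intCast_eq_intCast_iff_dvd_sub] at hfij
    obtain ⟨m, hm⟩ := hfij
    have h1 : f i = f j + (-m) * n := by rw [hnk]; linarith
    have h2 : bad e x (f i) = bad e x (f j) + ((-m : ℤ) : ℝ) * n := by
      rw [h1]
      unfold bad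
      split_ifs
      · push_cast; ring
      · exact per_mul hx _ _
    rw [← hf, ← hf, ← eqv_mul (hG.eqv g hg)] at h2
    exact hu i j hij (-m) (g.injective h2)
  | step e e' x x' g w N hx hg hw hred ih => exact ih

theorem tr_comm {g b : ℝ ≃o ℝ} (hg : IsTr n g) (hb : ∀ z, b (z + n) = b z + n) :
    b * g = g * b := by
  obtain ⟨k, hk⟩ := hg
  ext z
  change b (g z) = g (b z)
  rw [hk, hk, eqv_mul hb]

theorem ell_cancel {e e' : Bool} (he : e ≠ e') {x : ℤ → ℝ} :
    ell n T e x * ell n T e' x = 1 := by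
  unfold ell
  cases e <;> cases e' <;> simp at he ⊢

theorem ell_eqv (hn : 0 < n) (hT : ∀ p, T p ∈ Ioo (0:ℝ) 1) {x : ℤ → ℝ} (hx : Adm n K x)
    (e : Bool) (z : ℝ) : ell n T e x (z + n) = ell n T e x z + n := by
  have hb := (bel_spec hn hT hx).eqv
  cases e with
  | true => exact hb z
  | false =>
    change (bel n T x)⁻¹ (z + n) = (bel n T x)⁻¹ z + n
    apply (bel n T x).injective
    rw [hb]
    change (bel n T x) ((bel n T x).symm _) = (bel n T x) ((bel n T x).symm _) + n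
    simp

theorem cl_red_step (hn : 0 < n) (hT : ∀ p, T p ∈ Ioo (0:ℝ) 1) {x : ℤ → ℝ} (hx : Adm n K x)
    (e : Bool) {h : ℝ ≃o ℝ}
    (hh : h ∈ G ∨ ∃ g ∈ G, ∃ e x w N, Red n K T G e x w N ∧ h = g * w) :
    (ell n T e x * h ∈ G ∨ ∃ g ∈ G, ∃ e' x' w N, Red n K T G e' x' w N ∧
      ell n T e x * h = g * w) := by
  rcases hh with hh | ⟨g, hg, e', x', w, N, hw, rfl⟩
  · exact Or.inr ⟨1, G.one_mem, _, _, _, _, Red.base e x h hx hh, (one_mul _).symm⟩
  · by_cases hred : x = x' ∧ e ≠ e' ∧ IsTr n g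
    · obtain ⟨rfl, hee, htr⟩ := hred
      have hcomm := tr_comm htr (ell_eqv hn hT hx e)
      cases hw with
      | base _ _ g1 hx1 hg1 =>
        left
        have : ell n T e x * (g * (ell n T e' x * g1)) = g * g1 := by
          rw [← mul_assoc, hcomm, mul_assoc, ← mul_assoc (ell n T e x), ell_cancel hee, one_mul]
        rw [this]
        exact G.mul_mem hg hg1
      | step _ e'' _ x'' g1 w1 _ hx1 hg1 hw1 hred1 =>
        right
        refine ⟨g * g1, G.mul_mem hg hg1, _, _, _, _, hw1, ?_⟩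
        rw [← mul_assoc, hcomm, mul_assoc, ← mul_assoc (ell n T e x), ell_cancel hee, one_mul,
          mul_assoc]
    · exact Or.inr ⟨1, G.one_mem, _, _, _, _, Red.step e e' x x' g w N hx hg hw hred,
        (one_mul _).symm⟩

theorem cl_red (hn : 0 < n) (hT : ∀ p, T p ∈ Ioo (0:ℝ) 1) {h : ℝ ≃o ℝ}
    (hh : h ∈ nxt n K T G) : h ∈ G ∨ ∃ g ∈ G, ∃ e x w N, Red n K T G e x w N ∧ h = g * w := by
  induction hh using Subgroup.closure_induction_left with
  | one => exact Or.inl G.one_mem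
  | mul_left y hy h _ ih =>
    rcases hy with hy | ⟨x, hx, rfl⟩
    · rcases ih with ih | ⟨g, hg, e', x', w, N, hw, rfl⟩
      · exact Or.inl (G.mul_mem hy ih)
      · exact Or.inr ⟨y * g, G.mul_mem hy hg, _, _, _, _, hw, (mul_assoc _ _ _).symm⟩
    · exact cl_red_step hn hT hx true ih
  | inv_mul_cancel y hy h _ ih =>
    rcases hy with hy | ⟨x, hx, rfl⟩
    · rcases ih with ih | ⟨g, hg, e', x', w, N, hw, rfl⟩
      · exact Or.inl (G.mul_mem (G.inv_mem hy) ih)
      · exact Or.inr ⟨y⁻¹ * g, G.mul_mem (G.inv_mem hy) hg, _, _, _, _, hw,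
          (mul_assoc _ _ _).symm⟩
    · exact cl_red_step hn hT hx false ih

/-- Letters belong to the class of the larger field. -/
theorem bel_PP (hn : 0 < n) (hT : ∀ p, T p ∈ Ioo (0:ℝ) 1) {K' : Subfield ℝ} (hKK : K ≤ K')
    (hTK : ∀ p, T p ∈ K') {x : ℤ → ℝ} (hx : Adm n K x) : PP K' (bel n T x) := by
  have hb := bel_spec hn hT hx
  have hcK : ∀ j i, cc j i ∈ K' := fun j i =>
    K'.add_mem (intCast_mem K' j) (SubfieldClass.ratCast_mem K' _)
  have hDK : ∀ j i, DD x (tt n T x) j i ∈ K' := fun j i =>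
    K'.add_mem (hKK (hx.mem _)) (K'.mul_mem (K'.sub_mem (hKK (hx.mem _)) (hKK (hx.mem _)))
      (K'.add_mem (SubfieldClass.ratCast_mem K' _) (K'.mul_mem
        (K'.sub_mem (SubfieldClass.ratCast_mem K' _) (SubfieldClass.ratCast_mem K' _)) (hTK _))))
  have hsK : ∀ j i, ss n T x j i ∈ K' := fun j i => hTK _
  have hDlt : ∀ j i, DD x (tt n T x) j i < DD x (tt n T x) j (i+1) := fun j i =>
    DD_strictMono hx.mono (fun _ _ => hT _) j (lt_add_one i)
  refine ⟨fun z hz => ?_, fun z hz => ?_, fun z hz => ?_⟩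
  · rcases source_cases z with ⟨j, rfl⟩ | ⟨j, i, h1, h2⟩
    · rw [hb.int]
      exact hKK (hx.mem j)
    · obtain ⟨h3, h4, h5⟩ := hb.piece j i z h1 h2
      have hσ : (0:ℝ) < ss n T x j i := (hT _).1
      have hden := den_pos hσ h1 h2
      have h6 : bel n T x z = (DD x (tt n T x) j (i+1) * (z - cc j i) +
          ss n T x j i * DD x (tt n T x) j i * (cc j (i+1) - z)) /
          ((z - cc j i) + ss n T x j i * (cc j (i+1) - z)) := by
        rw [eq_div_iff hden.ne']
        linear_combination -h5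
      rw [h6]
      exact K'.div_mem (K'.add_mem (K'.mul_mem (hDK _ _) (K'.sub_mem hz (hcK _ _)))
        (K'.mul_mem (K'.mul_mem (hsK _ _) (hDK _ _)) (K'.sub_mem (hcK _ _) hz)))
        (K'.add_mem (K'.sub_mem hz (hcK _ _)) (K'.mul_mem (hsK _ _) (K'.sub_mem (hcK _ _) hz)))
  · rcases source_cases z with ⟨j, rfl⟩ | ⟨j, i, h1, h2⟩
    · exact intCast_mem K' j
    · obtain ⟨h3, h4, h5⟩ := hb.piece j i z h1 h2
      have hσ : (0:ℝ) < ss n T x j i := (hT _).1
      have hden : 0 < (DD x (tt n T x) j (i+1) - bel n T x z) +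
          ss n T x j i * (bel n T x z - DD x (tt n T x) j i) := by
        have : 0 ≤ ss n T x j i * (bel n T x z - DD x (tt n T x) j i) :=
          mul_nonneg hσ.le (by linarith)
        linarith
      have h6 : z = (cc j i * (DD x (tt n T x) j (i+1) - bel n T x z) +
          ss n T x j i * cc j (i+1) * (bel n T x z - DD x (tt n T x) j i)) /
          ((DD x (tt n T x) j (i+1) - bel n T x z) +
          ss n T x j i * (bel n T x z - DD x (tt n T x) j i)) := by
        rw [eq_div_iff hden.ne']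
        linear_combination h5
      rw [h6]
      exact K'.div_mem (K'.add_mem (K'.mul_mem (hcK _ _) (K'.sub_mem (hDK _ _) hz))
        (K'.mul_mem (K'.mul_mem (hsK _ _) (hcK _ _)) (K'.sub_mem hz (hDK _ _))))
        (K'.add_mem (K'.sub_mem (hDK _ _) hz) (K'.mul_mem (hsK _ _) (K'.sub_mem hz (hDK _ _))))
  · rcases source_cases z with ⟨j, rfl⟩ | ⟨j, i, h1, h2⟩
    · exact absurd (intCast_mem K' j) hz
    · obtain ⟨h3, h4, h5⟩ := hb.piece j i z h1 h2
      have hσ : (0:ℝ) < ss n T x j i := (hT _).1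
      set c : K' := ⟨cc j i, hcK _ _⟩ with hc
      set c' : K' := ⟨cc j (i+1), hcK _ _⟩ with hc'
      set D : K' := ⟨DD x (tt n T x) j i, hDK _ _⟩ with hD
      set D' : K' := ⟨DD x (tt n T x) j (i+1), hDK _ _⟩ with hD'
      set s : K' := ⟨ss n T x j i, hsK _ _⟩ with hs
      refine ⟨D' - s * D, -D' * c + s * D * c', 1 - s, -c + s * c', ?_, ?_⟩
      · have h6 : (D' - s * D) * (-c + s * c') - (-D' * c + s * D * c') * (1 - s) =
          s * (D' - D) * (c' - c) := by ring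
        rw [h6]
        have a1 : s ≠ 0 := by
          intro h0
          have := congrArg Subtype.val h0
          exact absurd this hσ.ne'
        have a2 : D' - D ≠ 0 := by
          intro h0
          have := congrArg Subtype.val (sub_eq_zero.mp h0)
          exact absurd this (hDlt j i).ne'
        have a3 : c' - c ≠ 0 := by
          intro h0
          have := congrArg Subtype.val (sub_eq_zero.mp h0)
          exact absurd this (cc_lt_succ j i).ne'
        exact mul_ne_zero (mul_ne_zero a1 a2) a3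
      · push_cast
        linear_combination -h5

theorem inv_next (hn : 0 < n) (hT : ∀ p, T p ∈ Ioo (0:ℝ) 1) (hG : Inv n K G) {K' : Subfield ℝ}
    (hKK : K ≤ K') (hTK : ∀ p, T p ∈ K')
    (hL : ∀ z, z ∉ K' → ∃ L : Subfield ℝ, K ≤ L ∧ z ∈ L ∧ AlgebraicIndependent L T) :
    Inv n K' (nxt n K T G) := by
  have hsub : ∀ g ∈ G, g ∈ nxt n K T G := fun g hg => Subgroup.subset_closure (Or.inl hg)
  refine ⟨fun g hg => hsub g (hG.tr g hg), ?_, ?_, ?_⟩
  · intro g hg
    induction hg using Subgroup.closure_induction with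
    | mem y hy =>
      rcases hy with hy | ⟨x, hx, rfl⟩
      · exact hG.eqv y hy
      · exact (bel_spec hn hT hx).eqv
    | one => intro z; rfl
    | mul f g _ _ hf hg =>
      intro z
      change f (g (z + n)) = f (g z) + n
      rw [hg, hf]
    | inv f _ hf =>
      intro z
      apply f.injective
      rw [hf]
      change f (f.symm _) = f (f.symm _) + n
      simp
  · intro g hg
    induction hg using Subgroup.closure_induction with
    | mem y hy =>
      rcases hy with hy | ⟨x, hx, rfl⟩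
      · exact PP_mono hKK (hG.pp y hy)
      · exact bel_PP hn hT hKK hTK hx
    | one => exact PP_one _
    | mul f g _ _ hf hg => exact PP_mul hf hg
    | inv f _ hf => exact PP_inv hf
  · intro h hh z hz k hk
    have hzK : z ∉ K := fun h0 => hz (hKK h0)
    rcases cl_red hn hT hh with hh | ⟨g, hg, e, x, w, N, hw, rfl⟩
    · exact hG.rig h hh z hzK k hk
    · exfalso
      obtain ⟨L, hKL, hzL, hind⟩ := hL z hz
      have h1 := St_not_mem hind (red_St hn hT hG hKL hind hzL hw (red_generic hG hzK hw))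
      apply h1
      have h2 : w z = g⁻¹ (z + k * n) := by
        rw [← hk]
        exact (g.symm_apply_apply (w z)).symm
      rw [h2]
      apply PP_mem_sup hKL (PP_inv (hG.pp g hg))
      exact L.add_mem hzL (L.mul_mem (intCast_mem L k) (intCast_mem L n))

theorem descend (hn : 0 < n) (hT : ∀ p, T p ∈ Ioo (0:ℝ) 1) (hG : Inv n K G)
    {L : Subfield ℝ} (hKL : K ≤ L) (hind : AlgebraicIndependent L T)
    {k : ℕ} (hk : 0 < k) (hnk : n = k) (u : Fin (k+1) → ℝ)
    (hu : ∀ i j, i ≠ j → ∀ m : ℤ, u i ≠ u j + m * n)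
    (huK : ∀ i, u i ∈ K) {h : ℝ ≃o ℝ} (hh : h ∈ nxt n K T G) (hhu : ∀ i, h (u i) ∈ K) :
    h ∈ G := by
  rcases cl_red hn hT hh with hh | ⟨g, hg, e, x, w, N, hw, rfl⟩
  · exact hh
  · exfalso
    obtain ⟨i, hi⟩ := red_pigeon hk hnk hG u hu hw
    apply St_not_mem hind (red_St hn hT hG hKL hind (hKL (huK i)) hw hi)
    have h1 : w (u i) = g⁻¹ ((g * w) (u i)) := (g.symm_apply_apply (w (u i))).symm
    rw [h1]
    exact hKL ((PP_inv (hG.pp g hg)).1 _ (hhu i))

end

end Pool.Agent.H42.Circ
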