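import Mathlib
import Pool.Agent.H42.CircField
import Pool.Agent.H42.CircStage

set_option autoImplicit false

namespace Pool.Agent.H42.Circ

open Set Real Cardinal

/-- The covering map of the circle with period n. -/
noncomputable def qn (n : ℤ) (t : ℝ) : Circle := Circle.exp (2 * π * t / n)

theorem qn_eq_iff {n : ℤ} (hn : 0 < n) {s t : ℝ} : qn n s = qn n t ↔ ∃ m : ℤ, s = t + m * n := by
  have hnR : (0 : ℝ) < n := by exact_mod_cast hn
  have hpi := Real.pi_pos
  unfold qn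
  rw [Circle.exp_eq_exp]
  constructor
  · rintro ⟨m, hm⟩
    refine ⟨m, ?_⟩
    field_simp at hm
    linarith
  · rintro ⟨m, rfl⟩
    refine ⟨m, ?_⟩
    field_simp

theorem qn_surj {n : ℤ} (hn : 0 < n) (z : Circle) : ∃ t, qn n t = z := by
  have hnR : (0 : ℝ) < n := by exact_mod_cast hn
  have hpi := Real.pi_pos
  obtain ⟨s, hs⟩ := Circle.exp_surjective z
  refine ⟨s * n / (2 * π), ?_⟩
  unfold qn
  rw [← hs]
  congr 1
  field_simp

theorem qn_quot {n : ℤ} (hn : 0 < n) : Topology.IsQuotientMap (qn n) := by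
  have hnR : (0 : ℝ) < n := by exact_mod_cast hn
  have hpi := Real.pi_pos
  have h1 : IsOpenMap (fun t : ℝ => 2 * π / n * t) :=
    (Homeomorph.mulLeft₀ (2 * π / n) (by positivity)).isOpenMap
  have h2 : IsOpenMap (qn n) := by
    have : qn n = (fun s => Circle.exp s) ∘ (fun t : ℝ => 2 * π / n * t) := by
      funext t
      unfold qn
      simp only [Function.comp]
      congr 1
      ring
    rw [this]
    exact isLocalHomeomorph_circleExp.isOpenMap.comp h1
  have h3 : Continuous (qn n) := by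
    unfold qn
    exact Circle.exp.continuous.comp (by fun_prop)
  exact h2.isQuotientMap h3 (fun z => qn_surj hn z)

theorem exists_circle_map {n : ℤ} (hn : 0 < n) (F : ℝ → ℝ) (hFc : Continuous F)
    (hF : ∀ (m : ℤ) z, F (z + m * n) = F z + m * n) :
    ∃ f : Circle → Circle, Continuous f ∧ ∀ t, f (qn n t) = qn n (F t) := by
  choose sec hsec using qn_surj hn
  have h1 : ∀ t, qn n (F (sec (qn n t))) = qn n (F t) := by
    intro t
    obtain ⟨m, hm⟩ := (qn_eq_iff hn).mp (hsec (qn n t))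
    rw [hm, hF]
    exact (qn_eq_iff hn).mpr ⟨m, rfl⟩
  refine ⟨fun z => qn n (F (sec z)), ?_, h1⟩
  rw [(qn_quot hn).continuous_iff]
  have : (fun z => qn n (F (sec z))) ∘ qn n = fun t => qn n (F t) := by
    funext t
    exact h1 t
  rw [this]
  exact (qn_quot hn).continuous.comp hFc

theorem exists_circle_homeo {n : ℤ} (hn : 0 < n) (F : ℝ ≃o ℝ)
    (hF : ∀ z, F (z + n) = F z + n) :
    ∃ γ : Circle ≃ₜ Circle, ∀ t, γ (qn n t) = qn n (F t) := by
  have hFi : ∀ z, F.symm (z + n) = F.symm z + n := by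
    intro z
    apply F.injective
    rw [hF]
    simp
  obtain ⟨f, hf, hft⟩ := exists_circle_map hn F F.continuous (fun m z => eqv_mul hF m z)
  obtain ⟨g, hg, hgt⟩ := exists_circle_map hn F.symm F.symm.continuous
    (fun m z => eqv_mul hFi m z)
  refine ⟨⟨⟨f, g, ?_, ?_⟩, hf, hg⟩, hft⟩
  · intro z
    obtain ⟨t, rfl⟩ := qn_surj hn z
    rw [hft, hgt]
    simp
  · intro z
    obtain ⟨t, rfl⟩ := qn_surj hn z
    rw [hgt, hft]
    simp

/-- The group of translations. -/
def Zn (n : ℤ) : Subgroup (ℝ ≃o ℝ) where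
  carrier := {g | IsTr n g}
  mul_mem' := by
    rintro f g ⟨k, hk⟩ ⟨l, hl⟩
    refine ⟨k + l, fun z => ?_⟩
    change f (g z) = _
    rw [hl, hk]
    push_cast
    ring
  one_mem' := ⟨0, fun z => by simp⟩
  inv_mem' := by
    rintro f ⟨k, hk⟩
    refine ⟨-k, fun z => ?_⟩
    have h1 := hk (f⁻¹ z)
    rw [show f (f⁻¹ z) = z from f.apply_symm_apply z] at h1
    push_cast
    linarith

theorem inv_Zn (n : ℤ) (K : Subfield ℝ) : Inv n K (Zn n) := by
  refine ⟨fun g hg => hg, ?_, ?_, fun g hg _ _ _ _ => hg⟩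
  · rintro g ⟨k, hk⟩ z
    rw [hk, hk]
    ring
  · rintro g ⟨k, hk⟩
    have hkn : (k : ℝ) * n ∈ K := K.mul_mem (intCast_mem K k) (intCast_mem K n)
    refine ⟨fun z hz => ?_, fun z hz => ?_, fun z hz => ⟨1, (k : K) * n, 0, 1, ?_, ?_⟩⟩
    · rw [hk]
      exact K.add_mem hz hkn
    · rw [hk] at hz
      have := K.sub_mem hz hkn
      rwa [add_sub_cancel_right] at this
    · simp
    · rw [hk]
      push_cast
      ring

/-- The tower of groups. -/
noncomputable def Gm (n : ℤ) (K : ℕ → Subfield ℝ) (T : ℕ → Pt → ℝ) : ℕ → Subgroup (ℝ ≃o ℝ)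
  | 0 => Zn n
  | m+1 => nxt n (K m) (T m) (Gm n K T m)

theorem Gm_mono (n : ℤ) (K : ℕ → Subfield ℝ) (T : ℕ → Pt → ℝ) : Monotone (Gm n K T) := by
  apply monotone_nat_of_le_succ
  intro m g hg
  exact Subgroup.subset_closure (Or.inl hg)

section
variable {n : ℤ} {K : ℕ → Subfield ℝ} {T : ℕ → Pt → ℝ}

theorem Gm_inv (hn : 0 < n) (hT : ∀ m p, T m p ∈ Ioo (0:ℝ) 1) (hK : Monotone K)
    (hTK : ∀ m p, T m p ∈ K (m+1))
    (hL : ∀ m z, (z ∈ K m ∨ z ∉ K (m+1)) → ∃ L : Subfield ℝ, K m ≤ L ∧ z ∈ L ∧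
        AlgebraicIndependent L (T m)) (m : ℕ) : Inv n (K m) (Gm n K T m) := by
  induction m with
  | zero => exact inv_Zn n _
  | succ m ih =>
    exact inv_next hn (hT m) ih (hK (Nat.le_succ m)) (hTK m) (fun z hz => hL m z (Or.inr hz))

theorem Gm_descend (hn : 0 < n) (hT : ∀ m p, T m p ∈ Ioo (0:ℝ) 1) (hK : Monotone K)
    (hTK : ∀ m p, T m p ∈ K (m+1))
    (hL : ∀ m z, (z ∈ K m ∨ z ∉ K (m+1)) → ∃ L : Subfield ℝ, K m ≤ L ∧ z ∈ L ∧
        AlgebraicIndependent L (T m)) {k : ℕ} (hk : 0 < k) (hnk : n = k) (u : Fin (k+1) → ℝ)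
    (hu : ∀ i j, i ≠ j → ∀ m : ℤ, u i ≠ u j + m * n)
    (huK : ∀ i, u i ∈ K 0) {h : ℝ ≃o ℝ} (hhu : ∀ i, h (u i) ∈ K 0)
    (m : ℕ) (hh : h ∈ Gm n K T m) : IsTr n h := by
  induction m with
  | zero => exact hh
  | succ m ih =>
    apply ih
    obtain ⟨L, hKL, -, hind⟩ := hL m 0 (Or.inl (K m).zero_mem)
    exact descend hn (hT m) (Gm_inv hn hT hK hTK hL m) hKL hind hk hnk u hu
      (fun i => hK (Nat.zero_le m) (huK i)) hh (fun i => hK (Nat.zero_le m) (hhu i))

/-- The group of circle homeomorphisms. -/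
def Gc (n : ℤ) (G : ℕ → Subgroup (ℝ ≃o ℝ)) (hG : Monotone G) : Subgroup (Circle ≃ₜ Circle) where
  carrier := {γ | ∃ m, ∃ F ∈ G m, ∀ t, γ (qn n t) = qn n (F t)}
  mul_mem' := by
    rintro f g ⟨m, F, hF, hf⟩ ⟨l, H, hH, hg⟩
    refine ⟨max m l, F * H, (G (max m l)).mul_mem (hG (le_max_left _ _) hF)
      (hG (le_max_right _ _) hH), fun t => ?_⟩
    change f (g (qn n t)) = qn n (F (H t))
    rw [hg, hf]
  one_mem' := ⟨0, 1, (G 0).one_mem, fun t => rfl⟩
  inv_mem' := by
    rintro f ⟨m, F, hF, hf⟩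
    refine ⟨m, F⁻¹, (G m).inv_mem hF, fun t => ?_⟩
    apply f.injective
    rw [hf]
    change f (f.symm _) = qn n (F (F.symm t))
    simp

end

theorem card_Pt : #Pt = 𝔠 := by
  have h1 : #(ℤ → ℝ) = 𝔠 := by
    rw [← Cardinal.power_def, Cardinal.mk_real, Cardinal.mk_int, Cardinal.continuum_power_aleph0]
  unfold Pt
  rw [Cardinal.mk_prod, Cardinal.mk_prod, Cardinal.mk_prod]
  simp only [Cardinal.lift_id, h1, Cardinal.mk_int, Cardinal.mk_bool]
  have h2 : ℵ₀ * (2 : Cardinal.{0}) = ℵ₀ := Cardinal.aleph0_mul_ofNat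
  rw [h2, Cardinal.aleph0_mul_aleph0, Cardinal.continuum_mul_aleph0]

/-- Extension of a tuple to an equivariant sequence. -/
noncomputable def extd (k : ℕ) (hk : 0 < k) (p : Fin k → ℝ) (j : ℤ) : ℝ :=
  p ⟨(j % k).toNat, by
    have h1 := Int.emod_nonneg j (show (k : ℤ) ≠ 0 by omega)
    have h2 := Int.emod_lt_of_pos j (show (0 : ℤ) < k by omega)
    omega⟩ + ((j / k : ℤ) : ℝ) * k

theorem extd_nat (k : ℕ) (hk : 0 < k) (p : Fin k → ℝ) (i : Fin k) :
    extd k hk p ((i : ℕ) : ℤ) = p i := by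
  have h1 : ((i : ℕ) : ℤ) % k = (i : ℕ) := Int.emod_eq_of_lt (by omega) (by omega)
  have h2 : ((i : ℕ) : ℤ) / k = 0 := Int.ediv_eq_zero_of_lt (by omega) (by omega)
  unfold extd
  rw [h2]
  simp only [h1]
  simp

theorem extd_add (k : ℕ) (hk : 0 < k) (p : Fin k → ℝ) (j : ℤ) :
    extd k hk p (j + k) = extd k hk p j + ((k : ℤ) : ℝ) := by
  unfold extd
  have h1 : (j + k) % (k : ℤ) = j % k := Int.add_emod_right j k
  have h2 : (j + k) / (k : ℤ) = j / k + 1 := by
    rw [Int.add_ediv_of_dvd_right (dvd_refl _), Int.ediv_self (by omega)]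
  simp only [h1, h2]
  push_cast
  ring

theorem extd_strictMono (k : ℕ) (hk : 0 < k) (p : Fin k → ℝ) (hp : StrictMono p)
    (hp2 : ∀ i j, p j < p i + k) : StrictMono (extd k hk p) := by
  apply strictMono_int_of_lt_succ
  intro j
  have hk0 : (0 : ℤ) < k := by omega
  have h1 := Int.emod_nonneg j (show (k : ℤ) ≠ 0 by omega)
  have h2 := Int.emod_lt_of_pos j hk0
  have h3 := Int.emod_add_mul_ediv j k
  by_cases h : j % k + 1 < k
  · have e1 : (j + 1) % (k : ℤ) = j % k + 1 := by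
      have : j + 1 = (j % k + 1) + k * (j / k) := by linarith
      rw [this, Int.add_mul_emod_self_left]
      exact Int.emod_eq_of_lt (by omega) h
    have e2 : (j + 1) / (k : ℤ) = j / k := by
      have : j + 1 = (j % k + 1) + k * (j / k) := by linarith
      rw [this, Int.add_mul_ediv_left _ _ (by omega), Int.ediv_eq_zero_of_lt (by omega) h]
      simp
    unfold extd
    simp only [e1, e2]
    have : p ⟨(j % k).toNat, by omega⟩ < p ⟨(j % k + 1).toNat, by omega⟩ := by
      apply hp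
      rw [Fin.mk_lt_mk]
      omega
    linarith
  · have h4 : j % k = k - 1 := by omega
    have e1 : (j + 1) % (k : ℤ) = 0 := by
      have : j + 1 = 0 + k * (j / k + 1) := by
        have : j = (k - 1) + k * (j / k) := by rw [← h4]; linarith
        linarith
      rw [this, Int.add_mul_emod_self_left]
      simp
    have e2 : (j + 1) / (k : ℤ) = j / k + 1 := by
      have : j + 1 = 0 + k * (j / k + 1) := by
        have : j = (k - 1) + k * (j / k) := by rw [← h4]; linarith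
        linarith
      conv_lhs => rw [this]
      rw [Int.add_mul_ediv_left _ _ (by omega)]
      simp
    unfold extd
    simp only [e1, e2]
    have := hp2 ⟨0, hk⟩ ⟨(j % k).toNat, by omega⟩
    push_cast
    linarith

/-- Lifts of cyclically ordered tuples. -/
theorem lift_tuple (k : ℕ) (hk : 0 < k) (x : Fin k → Circle)
    (h : ∃ t : Fin k → ℝ, StrictMono t ∧ (∀ i j, t j < t i + 2 * π) ∧
            ∀ i, x i = Circle.exp (t i)) :
    ∃ X : ℤ → ℝ, StrictMono X ∧ (∀ j, X (j + (k : ℤ)) = X j + ((k : ℤ) : ℝ)) ∧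
      (∀ i : Fin k, x i = qn k (X ((i : ℕ) : ℤ))) ∧
      ∃ p : Fin k → ℝ, X = extd k hk p := by
  obtain ⟨t, ht, ht2, htx⟩ := h
  have hpi := Real.pi_pos
  have hkR : (0 : ℝ) < k := by exact_mod_cast hk
  refine ⟨extd k hk (fun i => t i * k / (2 * π)), ?_, extd_add k hk _, ?_, _, rfl⟩
  · apply extd_strictMono
    · intro i j hij
      have := ht hij
      simp only
      gcongr
    · intro i j
      have := ht2 i j
      rw [div_add' _ _ _ (by positivity), div_lt_div_iff_of_pos_right (by positivity)]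
      nlinarith
  · intro i
    rw [extd_nat, htx]
    unfold qn
    congr 1
    push_cast
    field_simp

theorem main (k : ℕ) (hk : 0 < k) :
    ∃ Γ : Subgroup (Circle ≃ₜ Circle),
      (∀ x y : Fin k → Circle,
        (∃ t : Fin k → ℝ, StrictMono t ∧ (∀ i j, t j < t i + 2 * π) ∧
            ∀ i, x i = Circle.exp (t i)) →
        (∃ s : Fin k → ℝ, StrictMono s ∧ (∀ i j, s j < s i + 2 * π) ∧
            ∀ i, y i = Circle.exp (s i)) →
        ∃ γ ∈ Γ, ∀ i, x i = γ (y i)) ∧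
      ¬ (∀ x y : Fin (k + 1) → Circle,
        (∃ t : Fin (k + 1) → ℝ, StrictMono t ∧ (∀ i j, t j < t i + 2 * π) ∧
            ∀ i, x i = Circle.exp (t i)) →
        (∃ s : Fin (k + 1) → ℝ, StrictMono s ∧ (∀ i j, s j < s i + 2 * π) ∧
            ∀ i, y i = Circle.exp (s i)) →
        ∃ γ ∈ Γ, ∀ i, x i = γ (y i)) := by
  obtain ⟨T, K, hT, hK, hKtop, hTK, hL⟩ := exists_params Pt card_Pt
  have hn : (0 : ℤ) < (k : ℤ) := by omega
  have hpi := Real.pi_pos
  have hkR : (0 : ℝ) < k := by exact_mod_cast hk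
  refine ⟨Gc k (Gm k K T) (Gm_mono _ _ _), ?_, ?_⟩
  · intro x y hx hy
    obtain ⟨X, hX1, hX2, hX3, p, hp⟩ := lift_tuple k hk x hx
    obtain ⟨Y, hY1, hY2, hY3, p', hp'⟩ := lift_tuple k hk y hy
    have hfin : ∀ q : Fin k → ℝ, ∃ m, ∀ i, q i ∈ K m := by
      intro q
      choose f hf using fun i => hKtop (q i)
      refine ⟨Finset.univ.sup f, fun i => hK (Finset.le_sup (Finset.mem_univ i)) (hf i)⟩
    have hext : ∀ (q : Fin k → ℝ) (m : ℕ), (∀ i, q i ∈ K m) → ∀ j, extd k hk q j ∈ K m := by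
      intro q m hq j
      unfold extd
      exact (K m).add_mem (hq _) ((K m).mul_mem (intCast_mem _ _) (natCast_mem _ _))
    obtain ⟨m1, hm1⟩ := hfin p
    obtain ⟨m2, hm2⟩ := hfin p'
    set m := max m1 m2 with hm
    have hXa : Adm k (K m) X := ⟨hX1, hX2, fun j => by
      rw [hp]; exact hK (le_max_left _ _) (hext p m1 hm1 j)⟩
    have hYa : Adm k (K m) Y := ⟨hY1, hY2, fun j => by
      rw [hp']; exact hK (le_max_right _ _) (hext p' m2 hm2 j)⟩
    have hbX := bel_spec hn (hT m) hXa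
    have hbY := bel_spec hn (hT m) hYa
    set F : ℝ ≃o ℝ := bel k (T m) X * (bel k (T m) Y)⁻¹ with hF
    have hFm : F ∈ Gm k K T (m+1) := by
      apply Subgroup.mul_mem
      · exact Subgroup.subset_closure (Or.inr ⟨X, hXa, rfl⟩)
      · exact Subgroup.inv_mem _ (Subgroup.subset_closure (Or.inr ⟨Y, hYa, rfl⟩))
    have hFe := (Gm_inv hn hT hK hTK hL (m+1)).eqv F hFm
    obtain ⟨γ, hγ⟩ := exists_circle_homeo hn F hFe
    refine ⟨γ, ⟨m+1, F, hFm, hγ⟩, fun i => ?_⟩
    rw [hX3, hY3, hγ]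
    congr 1
    change X _ = bel k (T m) X ((bel k (T m) Y).symm _)
    rw [← hbY.int, OrderIso.symm_apply_apply, hbX.int]
  · intro hcon
    obtain ⟨γ, ⟨m, F, hF, hγF⟩, hγ⟩ := hcon
      (fun i => qn k ((i : ℕ) / 2 : ℝ)) (fun i => qn k ((i : ℕ) / 4 : ℝ))
      (by
        refine ⟨fun i => 2 * π * ((i : ℕ) / 2 : ℝ) / ((k : ℤ) : ℝ), ?_, ?_, fun i => rfl⟩
        · intro i j hij
          have : ((i : ℕ) : ℝ) < (j : ℕ) := by exact_mod_cast hij
          simp only
          push_cast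
          gcongr
        · intro i j
          have h1 : ((j : ℕ) : ℝ) ≤ k := by exact_mod_cast Nat.lt_succ_iff.mp j.2
          have h2 : (0 : ℝ) ≤ ((i : ℕ) : ℝ) := Nat.cast_nonneg _
          push_cast
          rw [div_add' _ _ _ hkR.ne', div_lt_div_iff_of_pos_right hkR]
          nlinarith)
      (by
        refine ⟨fun i => 2 * π * ((i : ℕ) / 4 : ℝ) / ((k : ℤ) : ℝ), ?_, ?_, fun i => rfl⟩
        · intro i j hij
          have : ((i : ℕ) : ℝ) < (j : ℕ) := by exact_mod_cast hij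
          simp only
          push_cast
          gcongr
        · intro i j
          have h1 : ((j : ℕ) : ℝ) ≤ k := by exact_mod_cast Nat.lt_succ_iff.mp j.2
          have h2 : (0 : ℝ) ≤ ((i : ℕ) : ℝ) := Nat.cast_nonneg _
          push_cast
          rw [div_add' _ _ _ hkR.ne', div_lt_div_iff_of_pos_right hkR]
          nlinarith)
    have h1 : ∀ i : Fin (k+1), ∃ c : ℤ, F ((i : ℕ) / 4 : ℝ) = ((i : ℕ) / 2 : ℝ) + c * (k : ℤ) := by
      intro i
      have := hγ i
      rw [hγF] at this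
      exact (qn_eq_iff hn).mp this.symm
    choose c hc using h1
    have hrat : ∀ (a : ℕ) (b : ℕ), ((a : ℝ) / (b : ℝ)) ∈ K 0 := fun a b =>
      (K 0).div_mem (natCast_mem _ _) (natCast_mem _ _)
    obtain ⟨l, hl⟩ := Gm_descend hn hT hK hTK hL hk rfl
      (fun i : Fin (k+1) => ((i : ℕ) / 4 : ℝ)) (by
        intro i j hij m' heq
        apply hij
        have h2 : ((i : ℕ) : ℝ) = (j : ℕ) + 4 * m' * k := by
          push_cast at heq
          linarith
        have h3 : ((i : ℕ) : ℤ) = (j : ℕ) + 4 * m' * k := by exact_mod_cast h2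
        have h4 := i.2
        have h5 := j.2
        have h6 : m' = 0 := by
          by_contra hne
          rcases lt_or_gt_of_ne hne with h7 | h7
          · have h8 : m' ≤ -1 := by omega
            have : m' * k ≤ -1 * (k : ℤ) := mul_le_mul_of_nonneg_right h8 hn.le
            have h9 : (0 : ℤ) ≤ ((i : ℕ) : ℤ) := by omega
            have h10 : ((j : ℕ) : ℤ) ≤ k := by omega
            nlinarith
          · have h8 : 1 ≤ m' := by omega
            have : 1 * (k : ℤ) ≤ m' * k := mul_le_mul_of_nonneg_right h8 hn.le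
            have h9 : (0 : ℤ) ≤ ((j : ℕ) : ℤ) := by omega
            have h10 : ((i : ℕ) : ℤ) ≤ k := by omega
            nlinarith
        rw [h6] at h3
        apply Fin.ext
        have : ((i : ℕ) : ℤ) = ((j : ℕ) : ℤ) := by linarith
        exact_mod_cast this)
      (fun i => by simpa using hrat (i : ℕ) 4)
      (h := F) (fun i => by
        rw [hc]
        exact (K 0).add_mem (by simpa using hrat (i : ℕ) 2)
          ((K 0).mul_mem (intCast_mem _ _) (intCast_mem _ _))) m hF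
    have h2 := hc ⟨1, by omega⟩
    rw [hl] at h2
    simp only [Nat.cast_one] at h2
    have h3 : 4 * (((l - c ⟨1, by omega⟩ : ℤ) : ℝ) * ((k : ℤ) : ℝ)) = 1 := by
      push_cast at h2 ⊢
      linarith
    have h4 : 4 * ((l - c ⟨1, by omega⟩) * (k : ℤ)) = 1 := by exact_mod_cast h3
    omega

end Pool.Agent.H42.Circ
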