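import Mathlib

set_option autoImplicit false

namespace Pool.Agent.H42.Deg

open Set MeasureTheory Fin

/-- The determinant as a continuous alternating map. -/
noncomputable def detC (n : ℕ) : (Fin n → ℝ) [⋀^Fin n]→L[ℝ] ℝ :=
  { (Matrix.detRowAlternating : (Fin n → ℝ) [⋀^Fin n]→ₗ[ℝ] ℝ) with
    cont := by
      change Continuous fun M : Fin n → Fin n → ℝ => Matrix.det M
      exact Continuous.matrix_det continuous_id }

theorem detC_apply (n : ℕ) (M : Fin n → Fin n → ℝ) : detC n M = Matrix.det M := rfl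

/-- Forms above the top degree vanish. -/
theorem top_zero {n : ℕ} (ω : (Fin n → ℝ) [⋀^Fin (n+1)]→L[ℝ] ℝ) : ω = 0 := by
  ext v
  change ω.toAlternatingMap v = 0
  apply ω.toAlternatingMap.map_linearDependent
  intro h
  have := h.fintype_card_le_finrank
  simp at this

section
variable {n : ℕ} (H : (Fin (n+1) → ℝ) → (Fin n → ℝ)) (φ : (Fin n → ℝ) → ℝ)

/-- The pulled back form. -/
noncomputable def eta (x : Fin (n+1) → ℝ) : (Fin (n+1) → ℝ) [⋀^Fin n]→L[ℝ] ℝ :=
  (φ (H x) • detC n).compContinuousLinearMap (fderiv ℝ H x)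

theorem eta_diff {x : Fin (n+1) → ℝ} (hH : ContDiffAt ℝ 2 H x) (hφ : ContDiff ℝ 1 φ) :
    DifferentiableAt ℝ (eta H φ) x := by
  unfold eta
  apply DifferentiableAt.continuousAlternatingMapCompContinuousLinearMap
  · apply DifferentiableAt.smul_const
    exact (hφ.differentiable one_ne_zero).differentiableAt.comp x
      (hH.differentiableAt two_ne_zero)
  · exact (hH.fderiv_right (m := 1) (by norm_num)).differentiableAt one_ne_zero

theorem eta_closed {x : Fin (n+1) → ℝ} (hH : ContDiffAt ℝ 2 H x) (hφ : ContDiff ℝ 1 φ) :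
    extDeriv (eta H φ) x = 0 := by
  have h1 := extDeriv_pullback (ω := fun y : Fin n → ℝ => φ y • detC n) (f := H) (x := x)
    (r := 2) (by
      apply DifferentiableAt.smul_const
      exact (hφ.differentiable one_ne_zero).differentiableAt) hH (by simp)
  change extDeriv (fun x => (φ (H x) • detC n).compContinuousLinearMap (fderiv ℝ H x)) x = 0
  rw [h1, top_zero (extDeriv (fun y : Fin n → ℝ => φ y • detC n) (H x))]
  ext v
  rfl

theorem hom_inv (a b : Fin (n+1) → ℝ) (hab : a ≤ b)
    (hH : ∀ x ∈ Icc a b, ContDiffAt ℝ 2 H x) (hφ : ContDiff ℝ 1 φ)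
    (hbd : ∀ x ∈ Icc a b, ∀ i : Fin (n+1), i ≠ 0 → (x i = a i ∨ x i = b i) → φ (H x) = 0) :
    ∫ y in Icc (a ∘ Fin.succ) (b ∘ Fin.succ), eta H φ (Fin.cons (b 0) y)
        (fun k => Pi.single k.succ 1) =
    ∫ y in Icc (a ∘ Fin.succ) (b ∘ Fin.succ), eta H φ (Fin.cons (a 0) y)
        (fun k => Pi.single k.succ 1) := by
  classical
  set E : Fin (n+1) → (Fin (n+1) → ℝ) := fun j => Pi.single j 1 with hE
  have hdiff : ∀ x ∈ Icc a b, ∀ i : Fin (n+1),
      DifferentiableAt ℝ (fun x => eta H φ x (i.removeNth E)) x := by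
    intro x hx i
    exact (eta_diff H φ (hH x hx) hφ).continuousAlternatingMap_apply_const _
  have hdiv : ∀ x ∈ Icc a b, (∑ i : Fin (n+1), ((-1 : ℝ) ^ (i : ℕ) •
      fderiv ℝ (fun x => eta H φ x (i.removeNth E)) x) (Pi.single i 1)) = 0 := by
    intro x hx
    have h1 := extDeriv_apply (eta_diff H φ (hH x hx) hφ) E
    rw [eta_closed H φ (hH x hx) hφ] at h1
    have h2 : (0 : (Fin (n+1) → ℝ) [⋀^Fin (n+1)]→L[ℝ] ℝ) E = 0 := rfl
    rw [h2] at h1
    rw [h1]
    apply Finset.sum_congr rfl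
    intro i _
    simp only [_root_.smul_apply, zsmul_eq_mul, smul_eq_mul, hE]
    push_cast
    rfl
  have key := integral_divergence_of_hasFDerivAt_off_countable' a b hab
    (fun i x => (-1 : ℝ) ^ (i : ℕ) • eta H φ x (i.removeNth E))
    (fun i x => (-1 : ℝ) ^ (i : ℕ) • fderiv ℝ (fun x => eta H φ x (i.removeNth E)) x)
    ∅ Set.countable_empty (by
      intro i x hx
      exact (((hdiff x hx i).continuousAt).const_smul ((-1 : ℝ) ^ (i : ℕ))).continuousWithinAt) (by
      intro x hx i
      have hx' : x ∈ Icc a b := by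
        have h2 : x ∈ pi univ fun i => Ioo (a i) (b i) := hx.1
        constructor
        · intro j; exact (h2 j (mem_univ j)).1.le
        · intro j; exact (h2 j (mem_univ j)).2.le
      exact (hdiff x hx' i).hasFDerivAt.const_smul ((-1 : ℝ) ^ (i : ℕ))) (by
      refine IntegrableOn.congr_fun (f := fun _ => (0:ℝ)) integrableOn_zero ?_ measurableSet_Icc
      intro x hx
      exact (hdiv x hx).symm)
  rw [setIntegral_congr_fun measurableSet_Icc (g := fun _ => (0:ℝ)) (fun x hx => hdiv x hx),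
    integral_zero, Fin.sum_univ_succ] at key
  have hface : ∀ (i : Fin n) (c : ℝ), (c = a i.succ ∨ c = b i.succ) →
      ∫ y in Icc (a ∘ i.succ.succAbove) (b ∘ i.succ.succAbove),
        (-1 : ℝ) ^ ((i.succ : Fin (n+1)) : ℕ) •
          eta H φ (i.succ.insertNth c y) (i.succ.removeNth E) = 0 := by
    intro i c hc
    rw [setIntegral_congr_fun measurableSet_Icc (g := fun _ => (0:ℝ)), integral_zero]
    intro y hy
    have hmem : (i.succ.insertNth c y : Fin (n+1) → ℝ) ∈ Icc a b := by
      rw [Fin.insertNth_mem_Icc]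
      refine ⟨?_, ?_⟩
      · rcases hc with hc | hc <;> rw [hc]
        · exact ⟨le_rfl, hab _⟩
        · exact ⟨hab _, le_rfl⟩
      · exact hy
    have h0 : φ (H (i.succ.insertNth c y)) = 0 := by
      apply hbd _ hmem i.succ (Fin.succ_ne_zero i)
      rw [Fin.insertNth_apply_same]
      exact hc
    simp only [eta, h0, zero_smul, smul_eq_mul]
    change (-1 : ℝ) ^ ((i.succ : Fin (n+1)) : ℕ) * 0 = 0
    ring
  rw [Finset.sum_eq_zero (fun i _ => by rw [hface i _ (Or.inr rfl), hface i _ (Or.inl rfl), sub_zero]),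
    add_zero] at key
  have e1 : (0 : Fin (n+1)).removeNth E = fun k : Fin n => Pi.single k.succ 1 := by
    funext k
    rfl
  simp only [Fin.val_zero, pow_zero, one_smul, Fin.insertNth_zero', e1] at key
  have e2 : ∀ c : Fin (n+1) → ℝ, c ∘ (0 : Fin (n+1)).succAbove = c ∘ Fin.succ := by
    intro c
    funext k
    rfl
  simp only [e2] at key
  exact (sub_eq_zero.mp key.symm)

end

end Pool.Agent.H42.Deg
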