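import Mathlib
import Pool.Agent.H42.DegInt

set_option autoImplicit false

namespace Pool.Agent.H42.Deg

open Set MeasureTheory Fin

section
variable {N : ℕ}

/-- Flat index. -/
def ix (c : Fin 4) (j : Fin N) : Fin (4 * N) := finProdFinEquiv (c, j)

def Xof (v : Fin (4 * N) → ℝ) (j : Fin N) (c : Fin 3) : ℝ := v (ix c.castSucc j)
def Lof (v : Fin (4 * N) → ℝ) (j : Fin N) : ℝ := v (ix 3 j)

def lprev (l : Fin N → ℝ) (j : Fin N) : ℝ :=
  if (j : ℕ) = 0 then 0 else l ⟨(j : ℕ) - 1, by have := j.2; omega⟩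

def xnext (x : Fin N → Fin 3 → ℝ) (j : Fin N) : ℝ :=
  if h : (j : ℕ) + 1 < N then x ⟨(j : ℕ) + 1, h⟩ 1 else 0

/-- The four components of the system. -/
def comp4 (A : (Fin N → Fin 3 → ℝ) → Fin N → Fin 3 → ℝ) (ε t : ℝ) (x : Fin N → Fin 3 → ℝ)
    (l : Fin N → ℝ) (j : Fin N) : Fin 4 → ℝ :=
  ![t * A x j 0 + (1 - t) - (l j * x j 0 + t * ε * lprev l j * x j 1),
    t * A x j 1 - (l j * x j 1 - t * ε * lprev l j * x j 0),
    t * A x j 2 - l j * x j 2,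
    x j 0 ^ 2 + x j 1 ^ 2 + x j 2 ^ 2 + t * ε * xnext x j - 1]

/-- The flattened system. -/
def Hs (A : (Fin N → Fin 3 → ℝ) → Fin N → Fin 3 → ℝ) (ε : ℝ) (u : Fin (4 * N + 1) → ℝ) :
    Fin (4 * N) → ℝ := fun k =>
  comp4 A ε (u 0) (Xof (Fin.tail u)) (Lof (Fin.tail u)) (finProdFinEquiv.symm k).2
    (finProdFinEquiv.symm k).1

theorem Hs_ix (A : (Fin N → Fin 3 → ℝ) → Fin N → Fin 3 → ℝ) (ε : ℝ) (u : Fin (4 * N + 1) → ℝ)
    (c : Fin 4) (j : Fin N) :
    Hs A ε u (ix c j) = comp4 A ε (u 0) (Xof (Fin.tail u)) (Lof (Fin.tail u)) j c := by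
  unfold Hs ix
  rw [Equiv.symm_apply_apply]

theorem xnext_bound {x : Fin N → Fin 3 → ℝ} (hx : ∀ j c, |x j c| ≤ 2) (j : Fin N) :
    |xnext x j| ≤ 2 := by
  unfold xnext
  split_ifs
  · exact hx _ _
  · simp

/-- A priori estimate. -/
theorem apriori {A : (Fin N → Fin 3 → ℝ) → Fin N → Fin 3 → ℝ} {ε t M : ℝ}
    (hε0 : 0 ≤ ε) (hε : ε ≤ 1/4) (ht0 : 0 ≤ t) (ht1 : t ≤ 1) (hM : 1 ≤ M)
    {x : Fin N → Fin 3 → ℝ} {l : Fin N → ℝ} (hx : ∀ j c, |x j c| ≤ 2)
    (hA : ∀ j c, |A x j c| ≤ M) (h : ∀ j c, comp4 A ε t x l j c = 0) (j : Fin N) :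
    (∀ c, |x j c| < 2) ∧ |l j| < 3 * M := by
  have h0 := h j 0
  have h1 := h j 1
  have h2 := h j 2
  have h3 := h j 3
  simp only [comp4, Matrix.cons_val_zero, Matrix.cons_val_one, Matrix.cons_val] at h0 h1 h2 h3
  have hn := xnext_bound hx j
  have hte0 : 0 ≤ t * ε := mul_nonneg ht0 hε0
  have hte : t * ε ≤ 1/4 := by nlinarith
  have hn1 := abs_le.mp hn
  have hb : |t * ε * xnext x j| ≤ 1/2 := by
    rw [abs_mul, abs_of_nonneg hte0]
    calc t * ε * |xnext x j| ≤ (1/4) * 2 := mul_le_mul hte hn (abs_nonneg _) (by norm_num)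
      _ = 1/2 := by norm_num
  have hb1 := abs_le.mp hb
  have hsum : x j 0 ^ 2 + x j 1 ^ 2 + x j 2 ^ 2 ≤ 3/2 := by linarith
  have hsum2 : 1/2 ≤ x j 0 ^ 2 + x j 1 ^ 2 + x j 2 ^ 2 := by linarith
  constructor
  · intro c
    have q0 := sq_nonneg (x j 0)
    have q1 := sq_nonneg (x j 1)
    have q2 := sq_nonneg (x j 2)
    have : x j c ^ 2 < 2 ^ 2 := by
      fin_cases c
      · change x j 0 ^ 2 < 2 ^ 2
        linarith
      · change x j 1 ^ 2 < 2 ^ 2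
        linarith
      · change x j 2 ^ 2 < 2 ^ 2
        linarith
    exact abs_lt_of_sq_lt_sq this (by norm_num)
  · have a0 := abs_le.mp (hA j 0)
    have a1 := abs_le.mp (hA j 1)
    have a2 := abs_le.mp (hA j 2)
    have b0 : |t * A x j 0 + (1 - t)| ≤ M := by
      have m1 : t * A x j 0 ≤ t * M := mul_le_mul_of_nonneg_left a0.2 ht0
      have m2 : t * (-M) ≤ t * A x j 0 := mul_le_mul_of_nonneg_left a0.1 ht0
      have m3 : (1 - t) * 1 ≤ (1 - t) * M := mul_le_mul_of_nonneg_left hM (by linarith)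
      rw [abs_le]
      constructor
      · have m4 : 0 ≤ (1 - t) * M := mul_nonneg (by linarith) (by linarith)
        linarith
      · linarith
    have b1 : |t * A x j 1| ≤ M := by
      rw [abs_mul, abs_of_nonneg ht0]
      calc t * |A x j 1| ≤ 1 * M := mul_le_mul ht1 (hA j 1) (abs_nonneg _) (by norm_num)
        _ = M := one_mul M
    have b2 : |t * A x j 2| ≤ M := by
      rw [abs_mul, abs_of_nonneg ht0]
      calc t * |A x j 2| ≤ 1 * M := mul_le_mul ht1 (hA j 2) (abs_nonneg _) (by norm_num)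
        _ = M := one_mul M
    have c0 : (t * A x j 0 + (1 - t)) ^ 2 ≤ M ^ 2 := sq_le_sq' (abs_le.mp b0).1 (abs_le.mp b0).2
    have c1 : (t * A x j 1) ^ 2 ≤ M ^ 2 := sq_le_sq' (abs_le.mp b1).1 (abs_le.mp b1).2
    have c2 : (t * A x j 2) ^ 2 ≤ M ^ 2 := sq_le_sq' (abs_le.mp b2).1 (abs_le.mp b2).2
    have e0 : t * A x j 0 + (1 - t) = l j * x j 0 + t * ε * lprev l j * x j 1 := by linarith
    have e1 : t * A x j 1 = l j * x j 1 - t * ε * lprev l j * x j 0 := by linarith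
    have e2 : t * A x j 2 = l j * x j 2 := by linarith
    rw [e0] at c0
    rw [e1] at c1
    rw [e2] at c2
    have key0 : l j ^ 2 * (x j 0 ^ 2 + x j 1 ^ 2 + x j 2 ^ 2) +
        (t * ε * lprev l j) ^ 2 * (x j 0 ^ 2 + x j 1 ^ 2) =
        (l j * x j 0 + t * ε * lprev l j * x j 1) ^ 2 +
        (l j * x j 1 - t * ε * lprev l j * x j 0) ^ 2 + (l j * x j 2) ^ 2 := by ring
    have key : l j ^ 2 * (x j 0 ^ 2 + x j 1 ^ 2 + x j 2 ^ 2) +
        (t * ε * lprev l j) ^ 2 * (x j 0 ^ 2 + x j 1 ^ 2) ≤ 3 * M ^ 2 := by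
      rw [key0]
      linarith
    have k2 : 0 ≤ (t * ε * lprev l j) ^ 2 * (x j 0 ^ 2 + x j 1 ^ 2) := by positivity
    have k3 : l j ^ 2 * (1/2) ≤ l j ^ 2 * (x j 0 ^ 2 + x j 1 ^ 2 + x j 2 ^ 2) :=
      mul_le_mul_of_nonneg_left hsum2 (sq_nonneg _)
    have k5 : (3 * M) ^ 2 = 9 * M ^ 2 := by ring
    have k6 : 1 ≤ M ^ 2 := one_le_pow₀ hM
    have k4 : l j ^ 2 < (3 * M) ^ 2 := by
      rw [k5]
      linarith
    exact abs_lt_of_sq_lt_sq k4 (by linarith)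

theorem Xof_diff (A : (Fin N → Fin 3 → ℝ) → Fin N → Fin 3 → ℝ) {u : Fin (4 * N + 1) → ℝ}
    (hA : ContDiffAt ℝ 2 A (Xof (Fin.tail u))) (j : Fin N) (c : Fin 3) :
    ContDiffAt ℝ 2 (fun u : Fin (4 * N + 1) → ℝ => A (Xof (Fin.tail u)) j c) u := by
  have h1 : ContDiffAt ℝ 2 (fun u : Fin (4 * N + 1) → ℝ => Xof (Fin.tail u)) u := by
    rw [contDiffAt_pi]
    intro j
    rw [contDiffAt_pi]
    intro c
    unfold Xof Fin.tail
    exact contDiffAt_apply ℝ ℝ _ _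
  have h2 : ContDiffAt ℝ 2 (fun u : Fin (4 * N + 1) → ℝ => A (Xof (Fin.tail u))) u :=
    hA.comp u h1
  rw [contDiffAt_pi] at h2
  have h3 := h2 j
  rw [contDiffAt_pi] at h3
  exact h3 c

theorem Hs_diff (A : (Fin N → Fin 3 → ℝ) → Fin N → Fin 3 → ℝ) (ε : ℝ) {u : Fin (4 * N + 1) → ℝ}
    (hA : ContDiffAt ℝ 2 A (Xof (Fin.tail u))) : ContDiffAt ℝ 2 (Hs A ε) u := by
  rw [contDiffAt_pi]
  intro k
  obtain ⟨⟨c, j⟩, rfl⟩ := finProdFinEquiv.surjective k
  change ContDiffAt ℝ 2 (fun u => Hs A ε u (ix c j)) u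
  simp only [Hs_ix]
  have hx : ∀ (j : Fin N) (c : Fin 3),
      ContDiffAt ℝ 2 (fun u : Fin (4 * N + 1) → ℝ => Xof (Fin.tail u) j c) u := by
    intro j c
    unfold Xof Fin.tail
    exact contDiffAt_apply ℝ ℝ _ _
  have hl : ∀ (j : Fin N),
      ContDiffAt ℝ 2 (fun u : Fin (4 * N + 1) → ℝ => Lof (Fin.tail u) j) u := by
    intro j
    unfold Lof Fin.tail
    exact contDiffAt_apply ℝ ℝ _ _
  have hlp : ContDiffAt ℝ 2 (fun u : Fin (4 * N + 1) → ℝ => lprev (Lof (Fin.tail u)) j) u := by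
    unfold lprev
    split_ifs
    · exact contDiffAt_const
    · exact hl _
  have hxn : ContDiffAt ℝ 2 (fun u : Fin (4 * N + 1) → ℝ => xnext (Xof (Fin.tail u)) j) u := by
    unfold xnext
    split_ifs
    · exact hx _ _
    · exact contDiffAt_const
  have h0 : ContDiffAt ℝ 2 (fun u : Fin (4 * N + 1) → ℝ => u 0) u := contDiffAt_apply ℝ ℝ _ _
  have hA0 := Xof_diff A hA j 0
  have hA1 := Xof_diff A hA j 1
  have hA2 := Xof_diff A hA j 2
  have hx0 := hx j 0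
  have hx1 := hx j 1
  have hx2 := hx j 2
  have hlj := hl j
  unfold comp4
  fin_cases c
  · change ContDiffAt ℝ 2 (fun u : Fin (4 * N + 1) → ℝ => u 0 * A (Xof (Fin.tail u)) j 0 + (1 - u 0) -
      (Lof (Fin.tail u) j * Xof (Fin.tail u) j 0 + u 0 * ε * lprev (Lof (Fin.tail u)) j *
        Xof (Fin.tail u) j 1)) u
    exact ((h0.mul hA0).add (contDiffAt_const.sub h0)).sub
      ((hlj.mul hx0).add (((h0.mul contDiffAt_const).mul hlp).mul hx1))
  · change ContDiffAt ℝ 2 (fun u : Fin (4 * N + 1) → ℝ => u 0 * A (Xof (Fin.tail u)) j 1 -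
      (Lof (Fin.tail u) j * Xof (Fin.tail u) j 1 - u 0 * ε * lprev (Lof (Fin.tail u)) j *
        Xof (Fin.tail u) j 0)) u
    exact (h0.mul hA1).sub
      ((hlj.mul hx1).sub (((h0.mul contDiffAt_const).mul hlp).mul hx0))
  · change ContDiffAt ℝ 2 (fun u : Fin (4 * N + 1) → ℝ => u 0 * A (Xof (Fin.tail u)) j 2 -
      Lof (Fin.tail u) j * Xof (Fin.tail u) j 2) u
    exact (h0.mul hA2).sub (hlj.mul hx2)
  · change ContDiffAt ℝ 2 (fun u : Fin (4 * N + 1) → ℝ => Xof (Fin.tail u) j 0 ^ 2 +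
      Xof (Fin.tail u) j 1 ^ 2 + Xof (Fin.tail u) j 2 ^ 2 +
      u 0 * ε * xnext (Xof (Fin.tail u)) j - 1) u
    exact ((((hx0.pow 2).add (hx1.pow 2)).add (hx2.pow 2)).add
      ((h0.mul contDiffAt_const).mul hxn)).sub contDiffAt_const

/-- The end system. -/
def H0 (v : Fin (4 * N) → ℝ) (k : Fin (4 * N)) : ℝ :=
  comp4 (fun _ _ _ => 0) 0 0 (Xof v) (Lof v) (finProdFinEquiv.symm k).2
    (finProdFinEquiv.symm k).1

theorem Hs_cons_zero (A : (Fin N → Fin 3 → ℝ) → Fin N → Fin 3 → ℝ) (ε : ℝ) (v : Fin (4 * N) → ℝ) :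
    Hs A ε (Fin.cons 0 v) = H0 v := by
  funext k
  unfold Hs H0 comp4
  simp only [Fin.cons_zero, Fin.tail_cons, zero_mul]

/-- Derivative of the end system. -/
noncomputable def dH0 (v w : Fin (4 * N) → ℝ) (j : Fin N) : Fin 4 → ℝ :=
  ![-(Lof w j * Xof v j 0 + Lof v j * Xof w j 0),
    -(Lof w j * Xof v j 1 + Lof v j * Xof w j 1),
    -(Lof w j * Xof v j 2 + Lof v j * Xof w j 2),
    2 * (Xof v j 0 * Xof w j 0) + 2 * (Xof v j 1 * Xof w j 1) + 2 * (Xof v j 2 * Xof w j 2)]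

theorem H0_line (v w : Fin (4 * N) → ℝ) (c : Fin 4) (j : Fin N) :
    HasDerivAt (fun s : ℝ => H0 (v + s • w) (ix c j)) (dH0 v w j c) 0 := by
  have hx : ∀ c : Fin 3, HasDerivAt (fun s : ℝ => Xof (v + s • w) j c) (Xof w j c) 0 := by
    intro c
    unfold Xof
    simp only [Pi.add_apply, Pi.smul_apply, smul_eq_mul]
    have := ((hasDerivAt_id (0:ℝ)).mul_const (w (ix c.castSucc j))).const_add (v (ix c.castSucc j))
    simpa using this
  have hl : HasDerivAt (fun s : ℝ => Lof (v + s • w) j) (Lof w j) 0 := by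
    unfold Lof
    simp only [Pi.add_apply, Pi.smul_apply, smul_eq_mul]
    have := ((hasDerivAt_id (0:ℝ)).mul_const (w (ix 3 j))).const_add (v (ix 3 j))
    simpa using this
  have e0 : v + (0:ℝ) • w = v := by simp
  unfold H0 ix dH0 comp4
  simp only [Equiv.symm_apply_apply, zero_mul, sub_zero, zero_add, add_zero]
  fin_cases c
  · change HasDerivAt (fun s : ℝ => 1 - Lof (v + s • w) j * Xof (v + s • w) j 0) _ 0
    have := (hl.mul (hx 0)).const_sub 1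
    simp only [e0] at this
    exact this
  · change HasDerivAt (fun s : ℝ => 0 - Lof (v + s • w) j * Xof (v + s • w) j 1) _ 0
    have := (hl.mul (hx 1)).const_sub 0
    simp only [e0] at this
    exact this
  · change HasDerivAt (fun s : ℝ => 0 - Lof (v + s • w) j * Xof (v + s • w) j 2) _ 0
    have := (hl.mul (hx 2)).const_sub 0
    simp only [e0] at this
    exact this
  · change HasDerivAt (fun s : ℝ => Xof (v + s • w) j 0 ^ 2 + Xof (v + s • w) j 1 ^ 2 +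
      Xof (v + s • w) j 2 ^ 2 - 1) _ 0
    have := ((((hx 0).pow 2).add ((hx 1).pow 2)).add ((hx 2).pow 2)).sub_const 1
    simp only [e0] at this
    refine HasDerivAt.congr_deriv this ?_
    change _ = 2 * (Xof v j 0 * Xof w j 0) + 2 * (Xof v j 1 * Xof w j 1) +
      2 * (Xof v j 2 * Xof w j 2)
    push_cast
    ring

end

end Pool.Agent.H42.Deg
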