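import Mathlib
import Pool.Agent.H42.DegSys

set_option autoImplicit false

namespace Pool.Agent.H42.Deg

open Set MeasureTheory Fin

section
variable {N : ℕ}

theorem ix_inj {c c' : Fin 4} {j j' : Fin N} : ix c j = ix c' j' ↔ c = c' ∧ j = j' := by
  unfold ix
  rw [finProdFinEquiv.injective.eq_iff, Prod.mk.injEq]

theorem fderiv_Hs (A : (Fin N → Fin 3 → ℝ) → Fin N → Fin 3 → ℝ) (ε : ℝ) (v : Fin (4 * N) → ℝ)
    (hH : ContDiffAt ℝ 2 (Hs A ε) (Fin.cons 0 v)) (k : Fin (4 * N)) (c : Fin 4) (j : Fin N) :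
    fderiv ℝ (Hs A ε) (Fin.cons 0 v) (Pi.single k.succ 1) (ix c j) =
      dH0 v (Pi.single k 1) j c := by
  have h1 : HasFDerivAt (Hs A ε) (fderiv ℝ (Hs A ε) (Fin.cons 0 v)) (Fin.cons 0 v) :=
    (hH.differentiableAt two_ne_zero).hasFDerivAt
  have h2 := h1.hasLineDerivAt (Pi.single k.succ 1)
  have h3 : HasDerivAt (fun s : ℝ => Hs A ε (Fin.cons 0 v + s • Pi.single k.succ 1))
    (fderiv ℝ (Hs A ε) (Fin.cons 0 v) (Pi.single k.succ 1)) 0 := h2
  have h4 : ∀ s : ℝ, (Fin.cons 0 v + s • Pi.single k.succ 1 : Fin (4 * N + 1) → ℝ) =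
      Fin.cons 0 (v + s • Pi.single k 1) := by
    intro s
    funext i
    refine Fin.cases ?_ (fun i => ?_) i
    · simp
    · by_cases hik : i = k
      · subst hik; simp
      · simp [hik]
  simp only [h4, Hs_cons_zero] at h3
  have h5 := (hasDerivAt_pi.mp h3) (ix c j)
  exact h5.unique (H0_line v (Pi.single k 1) c j)

theorem block_det (l x0 x1 x2 : ℝ) :
    Matrix.det !![-l, 0, 0, 2 * x0; 0, -l, 0, 2 * x1; 0, 0, -l, 2 * x2; -x0, -x1, -x2, 0] =
      2 * l ^ 2 * (x0 ^ 2 + x1 ^ 2 + x2 ^ 2) := by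
  rw [Matrix.det_succ_row_zero]
  simp [Fin.sum_univ_succ, Matrix.det_succ_row_zero, Matrix.submatrix, Fin.succAbove]
  ring

theorem det_dH0 (v : Fin (4 * N) → ℝ) :
    Matrix.det (Matrix.of fun k k' : Fin (4 * N) => dH0 v (Pi.single k 1)
      (finProdFinEquiv.symm k').2 (finProdFinEquiv.symm k').1) =
    ∏ j : Fin N, 2 * Lof v j ^ 2 * (Xof v j 0 ^ 2 + Xof v j 1 ^ 2 + Xof v j 2 ^ 2) := by
  rw [← Matrix.det_submatrix_equiv_self (finProdFinEquiv : Fin 4 × Fin N ≃ Fin (4 * N))]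
  have h1 : Matrix.submatrix (Matrix.of fun k k' : Fin (4 * N) => dH0 v (Pi.single k 1)
      (finProdFinEquiv.symm k').2 (finProdFinEquiv.symm k').1)
      (finProdFinEquiv : Fin 4 × Fin N ≃ Fin (4 * N)) finProdFinEquiv =
      Matrix.blockDiagonal (fun j : Fin N =>
        !![-Lof v j, 0, 0, 2 * Xof v j 0; 0, -Lof v j, 0, 2 * Xof v j 1;
          0, 0, -Lof v j, 2 * Xof v j 2; -Xof v j 0, -Xof v j 1, -Xof v j 2, 0]) := by
    ext ⟨c, j⟩ ⟨c', j'⟩
    rw [Matrix.blockDiagonal_apply]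
    simp only [Matrix.submatrix_apply, Matrix.of_apply, Equiv.symm_apply_apply]
    change dH0 v (Pi.single (ix c j) 1) j' c' = _
    by_cases hj : j = j'
    · subst hj
      rw [if_pos rfl]
      have hX : ∀ d : Fin 3, Xof (Pi.single (ix c j) 1 : Fin (4 * N) → ℝ) j d =
          if c = d.castSucc then 1 else 0 := by
        intro d
        unfold Xof
        rw [Pi.single_apply]
        simp only [ix_inj, and_true, eq_comm]
      have hL : Lof (Pi.single (ix c j) 1 : Fin (4 * N) → ℝ) j = if c = 3 then 1 else 0 := by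
        unfold Lof
        rw [Pi.single_apply]
        simp only [ix_inj, and_true, eq_comm]
      unfold dH0
      rw [hX, hX, hX, hL]
      fin_cases c <;> fin_cases c' <;> simp [Fin.ext_iff]
    · rw [if_neg hj]
      have hX : ∀ d : Fin 3, Xof (Pi.single (ix c j) 1 : Fin (4 * N) → ℝ) j' d = 0 := by
        intro d
        unfold Xof
        rw [Pi.single_apply, if_neg]
        rw [ix_inj]
        exact fun h => hj h.2.symm
      have hL : Lof (Pi.single (ix c j) 1 : Fin (4 * N) → ℝ) j' = 0 := by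
        unfold Lof
        rw [Pi.single_apply, if_neg]
        rw [ix_inj]
        exact fun h => hj h.2.symm
      unfold dH0
      rw [hX, hX, hX, hL]
      fin_cases c' <;> simp
  rw [h1, Matrix.det_blockDiagonal]
  apply Finset.prod_congr rfl
  intro j _
  exact block_det _ _ _ _

end

end Pool.Agent.H42.Deg
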