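import Mathlib
import Pool.Agent.H42.DegMain

set_option autoImplicit false

namespace Pool.Agent.H42.Deg

open Set MeasureTheory Fin

section
variable {N : ℕ}

/-- The component index of a flat index. -/
def cof (k : Fin (4 * N)) : Fin 4 := (finProdFinEquiv.symm k).1

theorem cof_ix (c : Fin 4) (j : Fin N) : cof (ix c j) = c := by
  unfold cof ix
  rw [Equiv.symm_apply_apply]

theorem eta_apply {n : ℕ} (H : (Fin (n+1) → ℝ) → (Fin n → ℝ)) (φ : (Fin n → ℝ) → ℝ)
    (x : Fin (n+1) → ℝ) (w : Fin n → (Fin (n+1) → ℝ)) :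
    eta H φ x w = φ (H x) * Matrix.det (Matrix.of fun k => fderiv ℝ H x (w k)) := rfl

theorem H0_cont : Continuous (H0 : (Fin (4 * N) → ℝ) → (Fin (4 * N) → ℝ)) := by
  apply continuous_pi
  intro k
  obtain ⟨⟨c, j⟩, rfl⟩ := finProdFinEquiv.surjective k
  unfold H0 comp4 Xof Lof
  simp only [Equiv.symm_apply_apply]
  fin_cases c
  · change Continuous fun v : Fin (4 * N) → ℝ => 0 * 0 + (1 - 0) -
      (v (ix 3 j) * v (ix 0 j) + 0 * 0 * lprev (fun j => v (ix 3 j)) j * v (ix 1 j))
    simp only [zero_mul, zero_add, sub_zero, add_zero]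
    fun_prop
  · change Continuous fun v : Fin (4 * N) → ℝ => 0 * 0 -
      (v (ix 3 j) * v (ix 1 j) - 0 * 0 * lprev (fun j => v (ix 3 j)) j * v (ix 0 j))
    simp only [zero_mul, zero_add, sub_zero, add_zero]
    fun_prop
  · change Continuous fun v : Fin (4 * N) → ℝ => 0 * 0 - v (ix 3 j) * v (ix 2 j)
    fun_prop
  · change Continuous fun v : Fin (4 * N) → ℝ => v (ix 0 j) ^ 2 + v (ix 1 j) ^ 2 + v (ix 2 j) ^ 2 +
      0 * 0 * xnext (fun j c => v (ix c.castSucc j)) j - 1
    simp only [zero_mul, zero_add, sub_zero, add_zero]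
    fun_prop

theorem exists_zero (A : (Fin N → Fin 3 → ℝ) → Fin N → Fin 3 → ℝ)
    (hA : ∀ x : Fin N → Fin 3 → ℝ, (∀ j c, |x j c| ≤ 2) → ContDiffAt ℝ 2 A x)
    {ε : ℝ} (hε0 : 0 ≤ ε) (hε : ε ≤ 1/4) :
    ∃ (x : Fin N → Fin 3 → ℝ) (l : Fin N → ℝ), (∀ j c, |x j c| ≤ 2) ∧
      ∀ j c, comp4 A ε 1 x l j c = 0 := by
  classical
  by_contra hno
  push Not at hno
  -- bound
  obtain ⟨M, hM1, hM⟩ : ∃ M : ℝ, 1 ≤ M ∧ ∀ x : Fin N → Fin 3 → ℝ, (∀ j c, |x j c| ≤ 2) →
      ∀ j c, |A x j c| ≤ M := by
    have hK : IsCompact (Metric.closedBall (0 : Fin N → Fin 3 → ℝ) 2) := isCompact_closedBall _ _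
    have hmem : ∀ x : Fin N → Fin 3 → ℝ, x ∈ Metric.closedBall (0 : Fin N → Fin 3 → ℝ) 2 ↔
        ∀ j c, |x j c| ≤ 2 := by
      intro x
      rw [mem_closedBall_zero_iff, pi_norm_le_iff_of_nonneg (by norm_num)]
      refine forall_congr' fun j => ?_
      rw [pi_norm_le_iff_of_nonneg (by norm_num)]
      rfl
    have hc : ContinuousOn A (Metric.closedBall (0 : Fin N → Fin 3 → ℝ) 2) := fun x hx =>
      (hA x ((hmem x).mp hx)).continuousAt.continuousWithinAt
    obtain ⟨C, hC⟩ := hK.exists_bound_of_continuousOn hc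
    refine ⟨max 1 C, le_max_left _ _, fun x hx j c => ?_⟩
    calc |A x j c| = ‖A x j c‖ := rfl
      _ ≤ ‖A x j‖ := norm_le_pi_norm _ _
      _ ≤ ‖A x‖ := norm_le_pi_norm _ _
      _ ≤ C := hC x ((hmem x).mpr hx)
      _ ≤ _ := le_max_right _ _
  -- the box
  set r : Fin (4 * N) → ℝ := fun k => if cof k = 3 then 3 * M else 2 with hr
  have hrpos : ∀ k, 0 < r k := by
    intro k
    rw [hr]
    simp only
    split_ifs
    · linarith
    · norm_num
  have hr3 : ∀ j : Fin N, r (ix 3 j) = 3 * M := by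
    intro j
    simp only [hr, cof_ix, if_true]
  have hrc : ∀ (c : Fin 3) (j : Fin N), r (ix c.castSucc j) = 2 := by
    intro c j
    have : c.castSucc ≠ (3 : Fin 4) := by
      intro h
      have := congrArg Fin.val h
      simp at this
      omega
    simp only [hr, cof_ix, if_neg this]
  set a : Fin (4 * N + 1) → ℝ := Fin.cons 0 (fun k => - r k) with ha
  set b : Fin (4 * N + 1) → ℝ := Fin.cons 1 r with hb
  have hab : a ≤ b := by
    intro i
    refine Fin.cases ?_ (fun k => ?_) i
    · simp [ha, hb]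
    · simp only [ha, hb, Fin.cons_succ]
      linarith [hrpos k]
  have hbox : ∀ u ∈ Icc a b, (0 ≤ u 0 ∧ u 0 ≤ 1) ∧ (∀ j c, |Xof (Fin.tail u) j c| ≤ 2) := by
    intro u hu
    refine ⟨⟨?_, ?_⟩, fun j c => ?_⟩
    · have := hu.1 0
      simpa [ha] using this
    · have := hu.2 0
      simpa [hb] using this
    · have h1 := hu.1 (ix c.castSucc j).succ
      have h2 := hu.2 (ix c.castSucc j).succ
      simp only [ha, hb, Fin.cons_succ, hrc] at h1 h2
      exact abs_le.mpr ⟨h1, h2⟩
  have hdiff : ∀ u ∈ Icc a b, ContDiffAt ℝ 2 (Hs A ε) u := fun u hu =>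
    Hs_diff A ε (hA _ (hbox u hu).2)
  have hzero : ∀ u : Fin (4 * N + 1) → ℝ, Hs A ε u = 0 →
      ∀ j c, comp4 A ε (u 0) (Xof (Fin.tail u)) (Lof (Fin.tail u)) j c = 0 := by
    intro u hu j c
    rw [← Hs_ix, hu]
    rfl
  -- the bad compact set
  set C : Set (Fin (4 * N + 1) → ℝ) := Icc a b ∩
    ({u | u 0 = 1} ∪ ⋃ k : Fin (4 * N), ({u | u k.succ = a k.succ} ∪ {u | u k.succ = b k.succ}))
    with hC
  have hCcomp : IsCompact C := by
    apply IsCompact.inter_right isCompact_Icc
    apply IsClosed.union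
    · exact isClosed_eq (continuous_apply 0) continuous_const
    · apply isClosed_iUnion_of_finite
      intro k
      exact (isClosed_eq (continuous_apply _) continuous_const).union
        (isClosed_eq (continuous_apply _) continuous_const)
  have hCpos : ∀ u ∈ C, 0 < ‖Hs A ε u‖ := by
    intro u hu
    rw [norm_pos_iff]
    intro h0
    have hz := hzero u h0
    obtain ⟨⟨ht0, ht1⟩, hx⟩ := hbox u hu.1
    have hap := fun j => apriori hε0 hε ht0 ht1 hM1 hx (hM _ hx) hz j
    rcases hu.2 with h1 | h1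
    · have h1' : u 0 = 1 := h1
      rw [h1'] at hz
      obtain ⟨j, c, hjc⟩ := hno _ (Lof (Fin.tail u)) hx
      exact hjc (hz j c)
    · obtain ⟨k, hk⟩ := mem_iUnion.mp h1
      obtain ⟨⟨c, j⟩, rfl⟩ := finProdFinEquiv.surjective k
      have hk' : |u (ix c j).succ| = r (ix c j) := by
        rcases hk with hk | hk
        · have hk2 : u (ix c j).succ = a (ix c j).succ := hk
          rw [hk2, ha, Fin.cons_succ, abs_neg, abs_of_pos (hrpos _)]
        · have hk2 : u (ix c j).succ = b (ix c j).succ := hk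
          rw [hk2, hb, Fin.cons_succ, abs_of_pos (hrpos _)]
      rcases Fin.eq_castSucc_or_eq_last c with ⟨c', rfl⟩ | rfl
      · rw [hrc] at hk'
        have := (hap j).1 c'
        change |u (ix c'.castSucc j).succ| < 2 at this
        rw [hk'] at this
        exact lt_irrefl _ this
      · have hl : (Fin.last 3 : Fin 4) = 3 := rfl
        rw [hl] at hk'
        rw [hr3] at hk'
        have := (hap j).2
        change |u (ix 3 j).succ| < 3 * M at this
        rw [hk'] at this
        exact lt_irrefl _ this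
  obtain ⟨δ, hδ, hδC⟩ := hCcomp.exists_forall_le' (f := fun u => ‖Hs A ε u‖) (a := 0)
    (fun u hu => (hdiff u hu.1).continuousAt.norm.continuousWithinAt) hCpos
  set B : ContDiffBump (0 : Fin (4 * N) → ℝ) := ⟨δ/2, δ, by linarith, by linarith⟩ with hB
  have hBz : ∀ y : Fin (4 * N) → ℝ, δ ≤ ‖y‖ → B y = 0 := by
    intro y hy
    apply B.zero_of_le_dist
    rw [dist_zero_right]
    exact hy
  have hinv := hom_inv (Hs A ε) B a b hab hdiff B.contDiff (by
    intro u hu i hi h
    apply hBz
    apply hδC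
    refine ⟨hu, Or.inr ?_⟩
    obtain ⟨k, rfl⟩ := Fin.exists_succ_eq.mpr hi
    rw [mem_iUnion]
    exact ⟨k, h⟩)
  have ea : a ∘ Fin.succ = fun k => - r k := by
    funext k
    simp [ha]
  have eb : b ∘ Fin.succ = r := by
    funext k
    simp [hb]
  have ea0 : a 0 = 0 := by simp [ha]
  have eb0 : b 0 = 1 := by simp [hb]
  rw [ea, eb, ea0, eb0] at hinv
  have hcons : ∀ (s : ℝ), 0 ≤ s → s ≤ 1 → ∀ y ∈ Icc (fun k => - r k) r,
      (Fin.cons s y : Fin (4 * N + 1) → ℝ) ∈ Icc a b := by
    intro s hs0 hs1 y hy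
    constructor
    · intro i
      refine Fin.cases ?_ (fun k => ?_) i
      · simpa [ha] using hs0
      · simpa [ha] using hy.1 k
    · intro i
      refine Fin.cases ?_ (fun k => ?_) i
      · simpa [hb] using hs1
      · simpa [hb] using hy.2 k
  -- left side vanishes
  rw [setIntegral_congr_fun measurableSet_Icc (g := fun _ => (0:ℝ)) (by
    intro y hy
    simp only [eta_apply]
    rw [hBz, zero_mul]
    apply hδC
    exact ⟨hcons 1 zero_le_one le_rfl y hy, Or.inl (by simp)⟩), integral_zero] at hinv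
  -- right side
  set f : (Fin (4 * N) → ℝ) → ℝ := fun v => B (H0 v) *
    ∏ j : Fin N, 2 * Lof v j ^ 2 * (Xof v j 0 ^ 2 + Xof v j 1 ^ 2 + Xof v j 2 ^ 2) with hf
  rw [setIntegral_congr_fun measurableSet_Icc (g := f) (by
    intro y hy
    simp only [eta_apply, hf]
    rw [Hs_cons_zero, ← det_dH0]
    congr 2
    ext k k'
    obtain ⟨⟨c, j⟩, rfl⟩ := finProdFinEquiv.surjective k'
    simp only [Matrix.of_apply, Equiv.symm_apply_apply]
    exact fderiv_Hs A ε y (hdiff _ (hcons 0 le_rfl zero_le_one y hy)) k c j)] at hinv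
  have hfc : Continuous f := by
    rw [hf]
    apply Continuous.mul
    · exact B.continuous.comp H0_cont
    · unfold Lof Xof
      fun_prop
  have hf0 : ∀ v, 0 ≤ f v := by
    intro v
    rw [hf]
    simp only
    apply mul_nonneg B.nonneg
    apply Finset.prod_nonneg
    intro j _
    positivity
  have hpos : 0 < ∫ y in Icc (fun k => - r k) r, f y := by
    rw [setIntegral_pos_iff_support_of_nonneg_ae (Filter.Eventually.of_forall hf0)
      (hfc.continuousOn.integrableOn_compact isCompact_Icc)]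
    set U : Set (Fin (4 * N) → ℝ) := {v | 0 < f v} ∩ Set.pi univ (fun k => Ioo (- r k) (r k))
      with hU
    have hUo : IsOpen U := (isOpen_lt continuous_const hfc).inter
      (isOpen_set_pi finite_univ (fun k _ => isOpen_Ioo))
    have hUne : U.Nonempty := by
      refine ⟨fun k => if cof k = 3 ∨ cof k = 0 then 1 else 0, ?_, ?_⟩
      · set v : Fin (4 * N) → ℝ := fun k => if cof k = 3 ∨ cof k = 0 then 1 else 0 with hv
        have v3 : ∀ j : Fin N, Lof v j = 1 := by intro j; simp [hv, Lof, cof_ix]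
        have v0 : ∀ j : Fin N, Xof v j 0 = 1 := by intro j; simp [hv, Xof, cof_ix]
        have v1 : ∀ j : Fin N, Xof v j 1 = 0 := by
          intro j
          simp only [hv, Xof, cof_ix]
          exact if_neg (by decide)
        have v2 : ∀ j : Fin N, Xof v j 2 = 0 := by
          intro j
          simp only [hv, Xof, cof_ix]
          exact if_neg (by decide)
        have hH0 : H0 v = 0 := by
          funext k
          obtain ⟨⟨c, j⟩, rfl⟩ := finProdFinEquiv.surjective k
          unfold H0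
          simp only [Equiv.symm_apply_apply]
          unfold comp4
          rw [v3, v0, v1, v2]
          fin_cases c <;> simp
        change 0 < f v
        rw [hf]
        simp only [hH0]
        apply mul_pos
        · apply B.pos_of_mem_ball
          rw [Metric.mem_ball, dist_self]
          exact hδ
        · apply Finset.prod_pos
          intro j _
          rw [v3, v0, v1, v2]
          norm_num
      · intro k _
        simp only [mem_Ioo]
        have h1 : 2 ≤ r k := by
          rw [hr]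
          simp only
          split_ifs
          · linarith
          · norm_num
        split_ifs <;> constructor <;> linarith
    have hUsub : U ⊆ Function.support f ∩ Icc (fun k => - r k) r := by
      intro v hv
      refine ⟨ne_of_gt hv.1, ?_, ?_⟩
      · intro k
        exact (hv.2 k (mem_univ k)).1.le
      · intro k
        exact (hv.2 k (mem_univ k)).2.le
    exact (hUo.measure_pos volume hUne).trans_le (measure_mono hUsub)
  rw [← hinv] at hpos
  exact lt_irrefl _ hpos

end

end Pool.Agent.H42.Deg
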