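import Mathlib

set_option autoImplicit false

namespace Pool.Agent.H42.Met

open Subgroup
open scoped commutatorElement

/-- Metabelian groups. -/
class Metab (H : Type) [Group H] : Prop where
  out : derivedSeries H 2 = ⊥

section
variable {H : Type} [Group H]

theorem comm_of_metab [hm : Metab H] {a b : H} (ha : a ∈ commutator H) (hb : b ∈ commutator H) :
    a * b = b * a := by
  have h1 : ⁅a, b⁆ ∈ derivedSeries H 2 := by
    rw [show (2 : ℕ) = 1 + 1 from rfl, derivedSeries_succ, derivedSeries_one]
    exact commutator_mem_commutator ha hb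
  rw [hm.out, mem_bot] at h1
  exact commutatorElement_eq_one_iff_mul_comm.mp h1

theorem metab_of_comm (h : ∀ a ∈ commutator H, ∀ b ∈ commutator H, a * b = b * a) : Metab H := by
  refine ⟨?_⟩
  rw [show (2 : ℕ) = 1 + 1 from rfl, derivedSeries_succ, derivedSeries_one, eq_bot_iff,
    commutator_le]
  intro a ha b hb
  rw [mem_bot]
  exact commutatorElement_eq_one_iff_mul_comm.mpr (h a ha b hb)

/-- The derived subgroup written additively. -/
abbrev V (H : Type) [Group H] : Type := Additive ↥(commutator H)

noncomputable instance [Metab H] : AddCommGroup (V H) :=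
  { (inferInstance : AddGroup (Additive ↥(commutator H))) with
    add_comm := fun a b => by
      apply Subtype.ext (a1 := (Additive.toMul (a + b))) (a2 := (Additive.toMul (b + a)))
      exact comm_of_metab (Additive.toMul a).2 (Additive.toMul b).2 }

/-- Conjugation on the derived subgroup. -/
noncomputable def cj [Metab H] (h : H) : AddMonoid.End (V H) where
  toFun v := Additive.ofMul ⟨h * (Additive.toMul v).1 * h⁻¹,
    (inferInstance : (commutator H).Normal).conj_mem _ (Additive.toMul v).2 h⟩
  map_zero' := by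
    apply Subtype.ext
    change h * 1 * h⁻¹ = 1
    simp
  map_add' := by
    intro a b
    apply Subtype.ext
    change h * ((Additive.toMul a).1 * (Additive.toMul b).1) * h⁻¹ =
      (h * (Additive.toMul a).1 * h⁻¹) * (h * (Additive.toMul b).1 * h⁻¹)
    group

/-- Elements of the derived subgroup as vectors. -/
def vec (c : H) (hc : c ∈ commutator H) : V H := Additive.ofMul ⟨c, hc⟩

theorem vec_inj {c c' : H} {hc : c ∈ commutator H} {hc' : c' ∈ commutator H}
    (h : vec c hc = vec c' hc') : c = c' := congrArg (fun v : V H => (Additive.toMul v).1) h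

theorem vec_mul [Metab H] {c c' : H} (hc : c ∈ commutator H) (hc' : c' ∈ commutator H) :
    vec (c * c') (mul_mem hc hc') = vec c hc + vec c' hc' := rfl

theorem vec_zpow [Metab H] {c : H} (hc : c ∈ commutator H) (n : ℤ) :
    vec (c ^ n) (zpow_mem hc n) = n • vec c hc := rfl

theorem conj_mem {c : H} (hc : c ∈ commutator H) (h : H) : h * c * h⁻¹ ∈ commutator H :=
  (inferInstance : (commutator H).Normal).conj_mem _ hc h

theorem cj_vec [Metab H] (h : H) {c : H} (hc : c ∈ commutator H) :
    cj h (vec c hc) = vec (h * c * h⁻¹) (conj_mem hc h) := rfl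

theorem exists_vec (v : V H) : ∃ (c : H) (hc : c ∈ commutator H), v = vec c hc :=
  ⟨(Additive.toMul v).1, (Additive.toMul v).2, rfl⟩

theorem cj_comm [Metab H] (h k : H) : cj h * cj k = cj k * cj h := by
  apply AddMonoidHom.ext
  intro v
  obtain ⟨c, hc, rfl⟩ := exists_vec v
  change cj h (cj k (vec c hc)) = cj k (cj h (vec c hc))
  rw [cj_vec, cj_vec, cj_vec, cj_vec]
  have hu : h⁻¹ * k⁻¹ * h * k ∈ commutator H := by
    have h1 : ⁅h⁻¹, k⁻¹⁆ ∈ commutator H :=
      commutator_mem_commutator (mem_top _) (mem_top _)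
    rw [commutatorElement_def, inv_inv, inv_inv] at h1
    exact h1
  have h2 := comm_of_metab hu hc
  have h3 : h * (k * c * k⁻¹) * h⁻¹ =
      (k * h) * ((h⁻¹ * k⁻¹ * h * k) * c) * (h⁻¹ * k⁻¹ * h * k)⁻¹ * (k * h)⁻¹ := by group
  have h4 : h * (k * c * k⁻¹) * h⁻¹ = k * (h * c * h⁻¹) * k⁻¹ := by
    rw [h3, h2]
    group
  exact congrArg Additive.ofMul (Subtype.ext h4)

/-- The commutative ring generated by conjugations. -/
abbrev Rg (H : Type) [Group H] [Metab H] : Type :=
  ↥(Subring.closure (Set.range (cj (H := H))))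

instance [Metab H] : IsMulCommutative (Rg H) :=
  Subring.isMulCommutative_closure (by
    rintro _ ⟨h, rfl⟩ _ ⟨k, rfl⟩
    exact cj_comm h k)

open scoped IsMulCommutative in
noncomputable instance [Metab H] : CommRing (Rg H) := inferInstance

/-- Conjugation as a ring element. -/
noncomputable def cr [Metab H] (h : H) : Rg H := ⟨cj h, Subring.subset_closure ⟨h, rfl⟩⟩

theorem cr_smul [Metab H] (h : H) {c : H} (hc : c ∈ commutator H) :
    cr h • vec c hc = vec (h * c * h⁻¹) (conj_mem hc h) := rfl

theorem int_smul [Metab H] (n : ℤ) (v : V H) : ((n : Rg H)) • v = n • v :=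
  Int.cast_smul_eq_zsmul _ _ _

end

end Pool.Agent.H42.Met
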