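import Mathlib
import Pool.Agent.H42.MetMod

set_option autoImplicit false

namespace Pool.Agent.H42.Met

/-- Polynomial expressions. -/
inductive Ex : Type
  | cst (n : ℤ) : Ex
  | var (i : Option ℕ) : Ex
  | add (a b : Ex) : Ex
  | mul (a b : Ex) : Ex

/-- Evaluation in a commutative ring. -/
def ev {R : Type} [CommRing R] (η : Option ℕ → R) : Ex → R
  | Ex.cst n => (n : R)
  | Ex.var i => η i
  | Ex.add a b => ev η a + ev η b
  | Ex.mul a b => ev η a * ev η b

/-- Action on group elements. -/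
def act {H : Type} [Group H] (y : Option ℕ → H) : Ex → H → H
  | Ex.cst n, c => c ^ n
  | Ex.var i, c => y i * c * (y i)⁻¹
  | Ex.add a b, c => act y a c * act y b c
  | Ex.mul a b, c => act y a (act y b c)

theorem map_act {H H' : Type} [Group H] [Group H'] (θ : H →* H') (y : Option ℕ → H) (a : Ex)
    (c : H) : θ (act y a c) = act (fun i => θ (y i)) a (θ c) := by
  induction a generalizing c with
  | cst n => simp [act]
  | var i => simp [act]
  | add a b iha ihb => simp [act, iha, ihb]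
  | mul a b iha ihb => simp [act, iha, ihb]

def et (k : ℕ) : Ex := Ex.add (Ex.var (some k)) (Ex.cst (-5))
def Dx : Ex := Ex.add (Ex.var none) (Ex.cst (-1))
def T1 : ℕ → Ex
  | 0 => et 0
  | j+1 => Ex.mul (Ex.cst (-4)) (et (2*j+3))
def T3 (j : ℕ) : Ex := et (2*j+2)
def Ee (j : ℕ) : Ex := et (2*j+3)
def Qf (t1 t2 t3 : Ex) : Ex :=
  Ex.add (Ex.mul (Ex.cst (-1)) (Ex.mul Dx (Ex.add (Ex.add (Ex.mul t1 t1) (Ex.mul t2 t2))
    (Ex.mul t3 t3)))) (Ex.mul (Ex.cst (-2)) t3)
def T2 : ℕ → Ex
  | 0 => et 1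
  | j+1 => Ex.mul (Ex.cst 4) (Qf (T1 j) (T2 j) (T3 j))
def Qx (j : ℕ) : Ex := Qf (T1 j) (T2 j) (T3 j)

section
variable {R : Type} [CommRing R] (η : Option ℕ → R)

theorem ev_Qx (j : ℕ) : ev η (Qx j) = - (ev η Dx * (ev η (T1 j) ^ 2 + ev η (T2 j) ^ 2 +
    ev η (T3 j) ^ 2)) - 2 * ev η (T3 j) := by
  simp only [Qx, Qf, ev]
  push_cast
  ring

/-- Norm identity. -/
theorem id_norm (j : ℕ) : (ev η Dx * ev η (T1 j)) ^ 2 + (ev η Dx * ev η (T2 j)) ^ 2 +
    (1 + ev η Dx * ev η (T3 j)) ^ 2 + ev η Dx * ev η (Qx j) = 1 := by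
  rw [ev_Qx]
  ring

/-- Orthogonality. -/
theorem id_orth (j : ℕ) : ev η (Qx j) * ev η (T1 (j+1)) + ev η (Ee j) * ev η (T2 (j+1)) = 0 := by
  have h1 : ev η (T1 (j+1)) = -4 * ev η (Ee j) := by
    simp only [T1, Ee, ev]
    push_cast
    ring
  have h2 : ev η (T2 (j+1)) = 4 * ev η (Qx j) := by
    simp only [T2, Qx, ev]
    push_cast
    ring
  rw [h1, h2]
  ring

end

/-- The linear system is solvable. -/
theorem solve {R M : Type} [CommRing R] [AddCommGroup M] [Module R M] (η : Option ℕ → R)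
    (r : ℕ → M) : ∃ (my mz : ℕ → M), ∀ j, mz j + ev η Dx • (ev η (T1 j) • my (2*j) +
      ev η (T2 j) • my (2*j+1) + ev η (T3 j) • mz j + ev η (Qx j) • my (2*j+2) +
      ev η (Ee j) • my (2*j+3)) = - r j := by
  -- the solution
  let p : ℕ → M := fun j => Nat.rec (-(r 0)) (fun j pj => -(r (j+1)) -
    (ev η Dx * ev η (T1 (j+1))) • pj) j
  have p0 : p 0 = -(r 0) := rfl
  have ps : ∀ j, p (j+1) = -(r (j+1)) - (ev η Dx * ev η (T1 (j+1))) • p j := fun j => rfl
  let pm : ℕ → M := fun j => Nat.rec 0 (fun j _ => p j) j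
  have pm0 : pm 0 = 0 := rfl
  have pms : ∀ j, pm (j+1) = p j := fun j => rfl
  have hp : ∀ j, p j + (ev η Dx * ev η (T1 j)) • pm j = - r j := by
    intro j
    cases j with
    | zero => rw [pm0, smul_zero, add_zero, p0]
    | succ j => rw [pms, ps]; abel
  refine ⟨fun k => if k % 2 = 0 then (ev η Dx * ev η (T1 (k/2))) • p (k/2) + pm (k/2) else
    (ev η Dx * ev η (T2 (k/2))) • p (k/2), fun j => (1 + ev η Dx * ev η (T3 j)) • p j, ?_⟩
  intro j
  have e0 : (2 * j) % 2 = 0 := by omega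
  have e1 : (2 * j + 1) % 2 ≠ 0 := by omega
  have e2 : (2 * j + 2) % 2 = 0 := by omega
  have e3 : (2 * j + 3) % 2 ≠ 0 := by omega
  have f0 : (2 * j) / 2 = j := by omega
  have f1 : (2 * j + 1) / 2 = j := by omega
  have f2 : (2 * j + 2) / 2 = j + 1 := by omega
  have f3 : (2 * j + 3) / 2 = j + 1 := by omega
  simp only [e0, e1, e2, e3, f0, f1, f2, f3, if_true, if_false]
  rw [pms]
  have h1 := id_norm η j
  have h2 := id_orth η j
  rw [← hp j]
  have h3 : (1 + ev η Dx * ev η (T3 j)) • p j + ev η Dx • (ev η (T1 j) •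
      ((ev η Dx * ev η (T1 j)) • p j + pm j) + ev η (T2 j) • (ev η Dx * ev η (T2 j)) • p j +
      ev η (T3 j) • (1 + ev η Dx * ev η (T3 j)) • p j +
      ev η (Qx j) • ((ev η Dx * ev η (T1 (j+1))) • p (j+1) + p j) +
      ev η (Ee j) • (ev η Dx * ev η (T2 (j+1))) • p (j+1)) =
      ((ev η Dx * ev η (T1 j)) ^ 2 + (ev η Dx * ev η (T2 j)) ^ 2 +
      (1 + ev η Dx * ev η (T3 j)) ^ 2 + ev η Dx * ev η (Qx j)) • p j +
      (ev η Dx * ev η (T1 j)) • pm j + (ev η Dx ^ 2 *
      (ev η (Qx j) * ev η (T1 (j+1)) + ev η (Ee j) * ev η (T2 (j+1)))) • p (j+1) := by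
    module
  rw [h3, h1, h2, mul_zero, zero_smul, one_smul, add_zero]

section grp
variable {H : Type} [Group H]

/-- Commutator with the distinguished generator. -/
def kap (y : Option ℕ → H) (s : H) : H := y none * s * (y none)⁻¹ * s⁻¹

/-- The relators. -/
def relw (y : Option ℕ → H) (z : ℕ → H) (j : ℕ) : H :=
  z j * (act y (T1 j) (kap y (y (some (2*j)))) * act y (T2 j) (kap y (y (some (2*j+1)))) *
    act y (T3 j) (kap y (z j)) * act y (Qx j) (kap y (y (some (2*j+2)))) *
    act y (Ee j) (kap y (y (some (2*j+3)))))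

theorem map_kap {H' : Type} [Group H'] (θ : H →* H') (y : Option ℕ → H) (s : H) :
    θ (kap y s) = kap (fun i => θ (y i)) (θ s) := by
  simp [kap]

theorem map_relw {H' : Type} [Group H'] (θ : H →* H') (y : Option ℕ → H) (z : ℕ → H) (j : ℕ) :
    θ (relw y z j) = relw (fun i => θ (y i)) (fun k => θ (z k)) j := by
  simp only [relw, map_mul, map_act, map_kap]

theorem kap_mem (y : Option ℕ → H) (s : H) : kap y s ∈ commutator H :=
  Subgroup.commutator_mem_commutator (Subgroup.mem_top _) (Subgroup.mem_top _)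

theorem act_mem (y : Option ℕ → H) (a : Ex) {c : H} (hc : c ∈ commutator H) :
    act y a c ∈ commutator H := by
  induction a generalizing c with
  | cst n => exact zpow_mem hc n
  | var i => exact conj_mem hc _
  | add a b iha ihb => exact mul_mem (iha hc) (ihb hc)
  | mul a b iha ihb => exact iha (ihb hc)

variable [Metab H]

/-- The assignment of ring elements. -/
noncomputable def eta (y : Option ℕ → H) (i : Option ℕ) : Rg H := cr (y i)

theorem act_vec (y : Option ℕ → H) (a : Ex) {c : H} (hc : c ∈ commutator H) :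
    vec (act y a c) (act_mem y a hc) = ev (eta y) a • vec c hc := by
  induction a generalizing c with
  | cst n =>
    change vec (c ^ n) _ = ((n : Rg H)) • vec c hc
    rw [int_smul]
    rfl
  | var i => rfl
  | add a b iha ihb =>
    change vec (act y a c * act y b c) _ = (ev (eta y) a + ev (eta y) b) • vec c hc
    rw [add_smul, ← iha hc, ← ihb hc]
    rfl
  | mul a b iha ihb =>
    change vec (act y a (act y b c)) _ = (ev (eta y) a * ev (eta y) b) • vec c hc
    rw [mul_smul, ← ihb hc, ← iha (act_mem y b hc)]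

/-- Multiplying by elements of the derived subgroup does not change the action. -/
theorem cr_mul_left {m : H} (hm : m ∈ commutator H) (h : H) : cr (m * h) = cr h := by
  apply Subtype.ext
  apply AddMonoidHom.ext
  intro v
  obtain ⟨c, hc, rfl⟩ := exists_vec v
  change cj (m * h) (vec c hc) = cj h (vec c hc)
  rw [cj_vec, cj_vec]
  have h1 : m * h * c * (m * h)⁻¹ = h * c * h⁻¹ := by
    have h2 := comm_of_metab hm (conj_mem hc h)
    calc m * h * c * (m * h)⁻¹ = m * (h * c * h⁻¹) * m⁻¹ := by group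
      _ = (h * c * h⁻¹) * m * m⁻¹ := by rw [h2]
      _ = h * c * h⁻¹ := by group
  exact congrArg Additive.ofMul (Subtype.ext h1)

theorem kap_mod (y : Option ℕ → H) {m : H} (hm : m ∈ commutator H) (s : H) :
    vec (kap y (m * s)) (kap_mem y _) = ev (eta y) Dx • vec m hm + vec (kap y s) (kap_mem y s) := by
  have h1 : kap y (m * s) = (y none * m * (y none)⁻¹) * (kap y s * m⁻¹) := by
    unfold kap
    group
  have h2 : kap y s * m⁻¹ = m⁻¹ * kap y s := comm_of_metab (kap_mem y s) (inv_mem hm)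
  have h3 : ev (eta y) Dx = cr (y none) + ((-1 : ℤ) : Rg H) := rfl
  rw [h3, add_smul, int_smul, cr_smul]
  have h4 : (-1 : ℤ) • vec m hm = vec (m⁻¹) (inv_mem hm) := by
    rw [neg_one_zsmul]
    rfl
  rw [h4, ← vec_mul, ← vec_mul]
  exact congrArg Additive.ofMul (Subtype.ext (by
    change kap y (m * s) = y none * m * (y none)⁻¹ * m⁻¹ * kap y s
    rw [h1, h2]
    group))

theorem relw_mem (y : Option ℕ → H) {z : ℕ → H} {j : ℕ} (hz : z j ∈ commutator H) :
    relw y z j ∈ commutator H :=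
  mul_mem hz (mul_mem (mul_mem (mul_mem (mul_mem (act_mem _ _ (kap_mem _ _))
    (act_mem _ _ (kap_mem _ _))) (act_mem _ _ (kap_mem _ _))) (act_mem _ _ (kap_mem _ _)))
    (act_mem _ _ (kap_mem _ _)))

theorem relw_vec (y : Option ℕ → H) {z : ℕ → H} {j : ℕ} (hz : z j ∈ commutator H) :
    vec (relw y z j) (relw_mem y hz) = vec (z j) hz +
      (ev (eta y) (T1 j) • vec (kap y (y (some (2*j)))) (kap_mem _ _) +
       ev (eta y) (T2 j) • vec (kap y (y (some (2*j+1)))) (kap_mem _ _) +
       ev (eta y) (T3 j) • vec (kap y (z j)) (kap_mem _ _) +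
       ev (eta y) (Qx j) • vec (kap y (y (some (2*j+2)))) (kap_mem _ _) +
       ev (eta y) (Ee j) • vec (kap y (y (some (2*j+3)))) (kap_mem _ _)) := by
  rw [← act_vec, ← act_vec, ← act_vec, ← act_vec, ← act_vec, ← vec_mul, ← vec_mul, ← vec_mul,
    ← vec_mul, ← vec_mul]
  rfl

/-- The effect of a modification on the relators. -/
theorem relw_mod (y : Option ℕ → H) (z : ℕ → H) (hz : ∀ j, z j ∈ commutator H)
    (my mz : ℕ → H) (hmy : ∀ k, my k ∈ commutator H) (hmz : ∀ k, mz k ∈ commutator H)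
    (y' : Option ℕ → H) (hy0 : y' none = y none) (hys : ∀ k, y' (some k) = my k * y (some k))
    (z' : ℕ → H) (hz' : ∀ j, z' j = mz j * z j) (j : ℕ) (hz2 : ∀ j, z' j ∈ commutator H) :
    vec (relw y' z' j) (relw_mem y' (hz2 j)) = vec (relw y z j) (relw_mem y (hz j)) +
      (vec (mz j) (hmz j) + ev (eta y) Dx • (ev (eta y) (T1 j) • vec (my (2*j)) (hmy _) +
      ev (eta y) (T2 j) • vec (my (2*j+1)) (hmy _) + ev (eta y) (T3 j) • vec (mz j) (hmz _) +
      ev (eta y) (Qx j) • vec (my (2*j+2)) (hmy _) +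
      ev (eta y) (Ee j) • vec (my (2*j+3)) (hmy _))) := by
  have heta : eta y' = eta y := by
    funext i
    cases i with
    | none => unfold eta; rw [hy0]
    | some k => unfold eta; rw [hys, cr_mul_left (hmy k)]
  have hkap : ∀ s, kap y' s = kap y s := by
    intro s
    unfold kap
    rw [hy0]
  have hk1 : ∀ k, vec (kap y' (y' (some k))) (kap_mem _ _) =
      ev (eta y) Dx • vec (my k) (hmy k) + vec (kap y (y (some k))) (kap_mem _ _) := by
    intro k
    rw [← kap_mod]
    exact congrArg Additive.ofMul (Subtype.ext (by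
      change kap y' (y' (some k)) = kap y (my k * y (some k))
      rw [hkap, hys]))
  have hk2 : vec (kap y' (z' j)) (kap_mem _ _) =
      ev (eta y) Dx • vec (mz j) (hmz j) + vec (kap y (z j)) (kap_mem _ _) := by
    rw [← kap_mod]
    exact congrArg Additive.ofMul (Subtype.ext (by
      change kap y' (z' j) = kap y (mz j * z j)
      rw [hkap, hz']))
  have hz3 : vec (z' j) (hz2 j) = vec (mz j) (hmz j) + vec (z j) (hz j) := by
    rw [← vec_mul]
    exact congrArg Additive.ofMul (Subtype.ext (hz' j))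
  rw [relw_vec y' (hz2 j), relw_vec y (hz j), heta, hk1, hk1, hk1, hk1, hk2, hz3]
  module

end grp

end Pool.Agent.H42.Met
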