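import Mathlib
import Pool.Agent.H42.MetRel

set_option autoImplicit false

namespace Pool.Agent.H42.Met

open Subgroup

/-- Generators. -/
inductive Gen : Type
  | y (i : Option ℕ) : Gen
  | z (j : ℕ) : Gen

def gy (i : Option ℕ) : FreeGroup Gen := FreeGroup.of (Gen.y i)
def gz (j : ℕ) : FreeGroup Gen := FreeGroup.of (Gen.z j)

/-- The relation subgroup. -/
def NN : Subgroup (FreeGroup Gen) :=
  normalClosure (Set.range (relw gy gz) ∪ (derivedSeries (FreeGroup Gen) 2 : Set (FreeGroup Gen)))

instance : NN.Normal := normalClosure_normal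

/-- The group of the counterexample. -/
abbrev PG : Type := FreeGroup Gen ⧸ NN

theorem relw_NN (j : ℕ) : relw gy gz j ∈ NN := subset_normalClosure (Or.inl ⟨j, rfl⟩)

theorem der_NN : derivedSeries (FreeGroup Gen) 2 ≤ NN := fun _ hx => subset_normalClosure (Or.inr hx)

instance : Metab PG := by
  refine ⟨?_⟩
  rw [← map_derivedSeries_eq (QuotientGroup.mk'_surjective NN) 2, eq_bot_iff]
  rintro _ ⟨x, hx, rfl⟩
  rw [mem_bot]
  exact (QuotientGroup.eq_one_iff x).mpr (der_NN hx)

def py (i : Option ℕ) : PG := QuotientGroup.mk' NN (gy i)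
def pz (j : ℕ) : PG := QuotientGroup.mk' NN (gz j)

theorem relw_P (j : ℕ) : relw py pz j = 1 := by
  have h := map_relw (QuotientGroup.mk' NN) gy gz j
  change relw py pz j = 1
  rw [show relw py pz j = _ from h.symm]
  exact (QuotientGroup.eq_one_iff _).mpr (relw_NN j)

def genMap {H : Type} (y : Option ℕ → H) (z : ℕ → H) : Gen → H
  | Gen.y i => y i
  | Gen.z j => z j

/-- Universal property. -/
noncomputable def liftP {H : Type} [Group H] [hm : Metab H] (y : Option ℕ → H) (z : ℕ → H)
    (h : ∀ j, relw y z j = 1) : PG →* H :=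
  QuotientGroup.lift NN (FreeGroup.lift (genMap y z)) (by
    have h1 : NN ≤ (FreeGroup.lift (genMap y z)).ker := by
      apply normalClosure_le_normal
      rintro x (⟨j, rfl⟩ | hx)
      · rw [SetLike.mem_coe, MonoidHom.mem_ker, map_relw]
        have e1 : (fun i => FreeGroup.lift (genMap y z) (gy i)) = y := by
          funext i
          simp [gy, genMap]
        have e2 : (fun i => FreeGroup.lift (genMap y z) (gz i)) = z := by
          funext i
          simp [gz, genMap]
        rw [e1, e2]
        exact h j
      · rw [SetLike.mem_coe, MonoidHom.mem_ker]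
        have h2 : FreeGroup.lift (genMap y z) x ∈ derivedSeries H 2 :=
          map_derivedSeries_le_derivedSeries (FreeGroup.lift (genMap y z)) 2 ⟨x, hx, rfl⟩
        rw [hm.out, mem_bot] at h2
        exact h2
    exact fun x hx => h1 hx)

theorem liftP_y {H : Type} [Group H] [hm : Metab H] (y : Option ℕ → H) (z : ℕ → H)
    (h : ∀ j, relw y z j = 1) (i : Option ℕ) : liftP y z h (py i) = y i := by
  unfold liftP py
  rw [QuotientGroup.coe_mk', QuotientGroup.lift_mk]
  simp [gy, genMap]

theorem liftP_z {H : Type} [Group H] [hm : Metab H] (y : Option ℕ → H) (z : ℕ → H)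
    (h : ∀ j, relw y z j = 1) (i : ℕ) : liftP y z h (pz i) = z i := by
  unfold liftP pz
  rw [QuotientGroup.coe_mk', QuotientGroup.lift_mk]
  simp [gz, genMap]

theorem hom_ext {H : Type} [Group H] {f g : PG →* H} (hy : ∀ i, f (py i) = g (py i))
    (hz : ∀ j, f (pz j) = g (pz j)) : f = g := by
  apply QuotientGroup.monoidHom_ext
  apply FreeGroup.ext_hom
  intro a
  cases a with
  | y i => exact hy i
  | z j => exact hz j

/-- The kernel part as a submodule. -/
noncomputable def Kr {A B : Type} [Group A] [Metab A] [Group B] (π : A →* B) :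
    Submodule (Rg A) (V A) where
  carrier := {v | π (Additive.toMul v).1 = 1}
  add_mem' := by
    intro a b ha hb
    change π ((Additive.toMul a).1 * (Additive.toMul b).1) = 1
    rw [map_mul, show π (Additive.toMul a).1 = 1 from ha, show π (Additive.toMul b).1 = 1 from hb,
      mul_one]
  zero_mem' := by
    change π 1 = 1
    exact map_one π
  smul_mem' := by
    rintro ⟨r, hr⟩ v hv
    change π (Additive.toMul (r v)).1 = 1
    induction hr using Subring.closure_induction generalizing v with
    | mem x hx =>
      obtain ⟨h, rfl⟩ := hx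
      change π (h * (Additive.toMul v).1 * h⁻¹) = 1
      rw [map_mul, map_mul, show π (Additive.toMul v).1 = 1 from hv, mul_one, ← map_mul,
        mul_inv_cancel, map_one]
    | zero => exact map_one π
    | one => exact hv
    | add x y _ _ hx hy =>
      change π ((Additive.toMul (x v)).1 * (Additive.toMul (y v)).1) = 1
      rw [map_mul, hx hv, hy hv, mul_one]
    | neg x _ hx =>
      change π ((Additive.toMul (x v)).1)⁻¹ = 1
      rw [map_inv, hx hv, inv_one]
    | mul x y _ _ hx hy => exact hx (hy hv)

/-- The lifting property. -/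
theorem lifting {A B : Type} [Group A] [Group B] [Metab A] [Metab B] (π : A →* B)
    (hπ : Function.Surjective π) (f : PG →* B) : ∃ g : PG →* A, π.comp g = f := by
  choose yh hyh using fun i : Option ℕ => hπ (f (py i))
  have hzB : ∀ j, f (pz j) ∈ commutator B := by
    intro j
    have h1 : relw (fun i => f (py i)) (fun k => f (pz k)) j = 1 := by
      rw [← map_relw, relw_P, map_one]
    unfold relw at h1
    have h2 := eq_inv_of_mul_eq_one_left h1
    change (fun k => f (pz k)) j ∈ commutator B
    rw [h2]
    exact inv_mem (mul_mem (mul_mem (mul_mem (mul_mem (act_mem _ _ (kap_mem _ _))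
      (act_mem _ _ (kap_mem _ _))) (act_mem _ _ (kap_mem _ _))) (act_mem _ _ (kap_mem _ _)))
      (act_mem _ _ (kap_mem _ _)))
  have hcomm : (commutator A).map π = commutator B := by
    rw [← derivedSeries_one, ← derivedSeries_one]
    exact map_derivedSeries_eq hπ 1
  have hzA : ∀ j, ∃ a ∈ commutator A, π a = f (pz j) := by
    intro j
    have := hzB j
    rw [← hcomm] at this
    exact this
  choose zh hzh hzh2 using hzA
  have hr : ∀ j, vec (relw yh zh j) (relw_mem yh (hzh j)) ∈ Kr π := by
    intro j
    change π (relw yh zh j) = 1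
    rw [map_relw]
    have e1 : (fun i => π (yh i)) = fun i => f (py i) := funext hyh
    have e2 : (fun i => π (zh i)) = fun i => f (pz i) := funext hzh2
    rw [e1, e2, ← map_relw, relw_P, map_one]
  obtain ⟨my, mz, hm⟩ := solve (M := Kr π) (eta yh) (fun j => ⟨_, hr j⟩)
  set y' : Option ℕ → A := fun i => i.elim (yh none) (fun k =>
    (Additive.toMul (my k).1).1 * yh (some k)) with hy'
  set z' : ℕ → A := fun j => (Additive.toMul (mz j).1).1 * zh j with hz'
  have hz2 : ∀ j, z' j ∈ commutator A := fun j => mul_mem (Additive.toMul (mz j).1).2 (hzh j)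
  have hrel : ∀ j, relw y' z' j = 1 := by
    intro j
    have h1 := relw_mod yh zh hzh (fun k => (Additive.toMul (my k).1).1)
      (fun k => (Additive.toMul (mz k).1).1) (fun k => (Additive.toMul (my k).1).2)
      (fun k => (Additive.toMul (mz k).1).2) y' rfl (fun k => rfl) z' (fun k => rfl) j hz2
    have h2 := congrArg Subtype.val (hm j)
    have h3 : vec (relw y' z' j) (relw_mem y' (hz2 j)) = 0 := by
      rw [h1]
      have h4 : (vec (Additive.toMul (mz j).1).1 (Additive.toMul (mz j).1).2 + ev (eta yh) Dx •
        (ev (eta yh) (T1 j) • vec (Additive.toMul (my (2*j)).1).1 (Additive.toMul (my (2*j)).1).2 +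
        ev (eta yh) (T2 j) • vec (Additive.toMul (my (2*j+1)).1).1
          (Additive.toMul (my (2*j+1)).1).2 +
        ev (eta yh) (T3 j) • vec (Additive.toMul (mz j).1).1 (Additive.toMul (mz j).1).2 +
        ev (eta yh) (Qx j) • vec (Additive.toMul (my (2*j+2)).1).1
          (Additive.toMul (my (2*j+2)).1).2 +
        ev (eta yh) (Ee j) • vec (Additive.toMul (my (2*j+3)).1).1
          (Additive.toMul (my (2*j+3)).1).2)) =
        - vec (relw yh zh j) (relw_mem yh (hzh j)) := h2
      rw [h4, add_neg_cancel]
    exact vec_inj (h3.trans (rfl : (0 : V A) = vec 1 (one_mem _)))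
  refine ⟨liftP y' z' hrel, hom_ext ?_ ?_⟩
  · intro i
    rw [MonoidHom.comp_apply, liftP_y]
    cases i with
    | none => exact hyh none
    | some k =>
      change π ((Additive.toMul (my k).1).1 * yh (some k)) = _
      rw [map_mul, show π (Additive.toMul (my k).1).1 = 1 from (my k).2, one_mul, hyh]
  · intro j
    rw [MonoidHom.comp_apply, liftP_z]
    change π ((Additive.toMul (mz j).1).1 * zh j) = _
    rw [map_mul, show π (Additive.toMul (mz j).1).1 = 1 from (mz j).2, one_mul, hzh2]

end Pool.Agent.H42.Met
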