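import Mathlib
import Pool.Agent.H42.MetLift

set_option autoImplicit false

namespace Pool.Agent.H42.Met

open Subgroup

/-- The affine group of the line. -/
@[ext]
structure Aff where
  a : ℝ
  b : ℝ
  ha : a ≠ 0

namespace Aff

instance : Mul Aff := ⟨fun p q => ⟨p.a * q.a, p.b + p.a * q.b, mul_ne_zero p.ha q.ha⟩⟩
instance : One Aff := ⟨⟨1, 0, one_ne_zero⟩⟩
noncomputable instance : Inv Aff := ⟨fun p => ⟨p.a⁻¹, -(p.a⁻¹ * p.b), inv_ne_zero p.ha⟩⟩

@[simp] theorem mul_a (p q : Aff) : (p * q).a = p.a * q.a := rfl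
@[simp] theorem mul_b (p q : Aff) : (p * q).b = p.b + p.a * q.b := rfl
@[simp] theorem one_a : (1 : Aff).a = 1 := rfl
@[simp] theorem one_b : (1 : Aff).b = 0 := rfl
@[simp] theorem inv_a (p : Aff) : (p⁻¹).a = p.a⁻¹ := rfl
@[simp] theorem inv_b (p : Aff) : (p⁻¹).b = -(p.a⁻¹ * p.b) := rfl

noncomputable instance : Group Aff :=
  Group.ofLeftAxioms (by intro p q r; ext <;> simp <;> ring)
    (by intro p; ext <;> simp) (by
      intro p
      ext
      · simp [p.ha]
      · simp)

/-- The linear part. -/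
noncomputable def lin : Aff →* ℝˣ where
  toFun p := Units.mk0 p.a p.ha
  map_one' := by ext; simp
  map_mul' p q := by ext; simp

theorem comm_a {p : Aff} (hp : p ∈ commutator Aff) : p.a = 1 := by
  have h : p ∈ lin.ker := Abelianization.commutator_subset_ker lin hp
  have h1 : lin p = 1 := h
  exact congrArg Units.val h1

instance : Metab Aff := by
  apply metab_of_comm
  intro p hp q hq
  ext
  · simp [comm_a hp, comm_a hq]
  · simp [comm_a hp, comm_a hq, add_comm]

theorem zpow_tr (b : ℝ) (n : ℤ) : (⟨1, b, one_ne_zero⟩ : Aff) ^ n = ⟨1, n * b, one_ne_zero⟩ := by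
  induction n using Int.induction_on with
  | zero => ext <;> simp
  | succ k ih =>
    rw [zpow_add_one, ih]
    ext
    · simp
    · simp; ring
  | pred k ih =>
    rw [zpow_sub_one, ih]
    ext
    · simp
    · simp; ring

theorem act_tr (y : Option ℕ → Aff) (e : Ex) (b : ℝ) :
    act y e ⟨1, b, one_ne_zero⟩ = ⟨1, ev (fun i => (y i).a) e * b, one_ne_zero⟩ := by
  induction e generalizing b with
  | cst n =>
    change (⟨1, b, one_ne_zero⟩ : Aff) ^ n = _
    rw [zpow_tr]
    rfl
  | var i =>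
    change y i * (⟨1, b, one_ne_zero⟩ : Aff) * (y i)⁻¹ = _
    have := (y i).ha
    ext
    · simp [this]
    · simp [ev]
      field_simp
      ring
  | add e1 e2 h1 h2 =>
    change act y e1 _ * act y e2 _ = _
    rw [h1, h2]
    ext
    · simp
    · simp [ev]; ring
  | mul e1 e2 h1 h2 =>
    change act y e1 (act y e2 _) = _
    rw [h2, h1]
    ext
    · simp
    · simp [ev]; ring

theorem kap_tr (y : Option ℕ → Aff) (h2 : (y none).a = 2) (h0 : (y none).b = 0) (s : Aff) :
    kap y s = ⟨1, s.b, one_ne_zero⟩ := by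
  have := s.ha
  unfold kap
  ext
  · simp only [Aff.mul_a, Aff.inv_a, h2]
    field_simp
  · simp [h2, h0]
    field_simp
    ring

theorem relw_b (y : Option ℕ → Aff) (z : ℕ → Aff) (h2 : (y none).a = 2) (h0 : (y none).b = 0)
    (j : ℕ) (hz : (z j).a = 1) :
    relw y z j = ⟨1, (z j).b + (ev (fun i => (y i).a) (T1 j) * (y (some (2*j))).b +
      ev (fun i => (y i).a) (T2 j) * (y (some (2*j+1))).b +
      ev (fun i => (y i).a) (T3 j) * (z j).b +
      ev (fun i => (y i).a) (Qx j) * (y (some (2*j+2))).b +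
      ev (fun i => (y i).a) (Ee j) * (y (some (2*j+3))).b), one_ne_zero⟩ := by
  unfold relw
  rw [kap_tr y h2 h0, kap_tr y h2 h0, kap_tr y h2 h0, kap_tr y h2 h0, kap_tr y h2 h0,
    act_tr, act_tr, act_tr, act_tr, act_tr]
  ext
  · simp [hz]
  · simp [hz]

end Aff

open Classical in
/-- Total constructor. -/
noncomputable def mkA (a b : ℝ) : Aff := ⟨if a = 0 then 1 else a, b, by split_ifs with h <;> simp [h]⟩

theorem mkA_a {a : ℝ} (b : ℝ) (ha : a ≠ 0) : (mkA a b).a = a := by simp [mkA, ha]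
theorem mkA_b (a b : ℝ) : (mkA a b).b = b := rfl

/-- The homomorphism to the affine group with given values on generators. -/
noncomputable def Dh (χ v : Gen → ℝ) : FreeGroup Gen →* Aff := FreeGroup.lift fun s => mkA (χ s) (v s)

theorem Dh_of (χ v : Gen → ℝ) (s : Gen) : Dh χ v (FreeGroup.of s) = mkA (χ s) (v s) := by
  simp [Dh]

theorem Dh_a (χ v v' : Gen → ℝ) (g : FreeGroup Gen) : (Dh χ v g).a = (Dh χ v' g).a := by
  induction g using FreeGroup.induction_on with
  | C1 => simp
  | of s =>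
    rw [Dh_of, Dh_of]
    rfl
  | inv_of s ih =>
    rw [map_inv, map_inv, Aff.inv_a, Aff.inv_a, ih]
  | mul g h hg hh => rw [map_mul, map_mul, Aff.mul_a, Aff.mul_a, hg, hh]

open Classical in
/-- Expansion of the translation part. -/
theorem Dh_expand (g : FreeGroup Gen) : ∃ S0 : Finset Gen, ∀ S : Finset Gen, S0 ⊆ S →
    ∀ χ v : Gen → ℝ, (Dh χ v g).b = ∑ s ∈ S, (Dh χ (Pi.single s 1) g).b * v s := by
  induction g using FreeGroup.induction_on with
  | C1 => exact ⟨∅, fun S _ χ v => by simp⟩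
  | of t =>
    refine ⟨{t}, fun S hS χ v => ?_⟩
    simp only [Dh_of, mkA_b]
    rw [Finset.sum_eq_single t]
    · simp
    · intro s _ hst
      rw [Pi.single_eq_of_ne (Ne.symm hst), zero_mul]
    · intro h
      exact absurd (hS (Finset.mem_singleton_self t)) h
  | inv_of t ih =>
    obtain ⟨S0, hS0⟩ := ih
    refine ⟨S0, fun S hS χ v => ?_⟩
    have h1 := hS0 S hS χ v
    rw [map_inv, Aff.inv_b, h1, Finset.mul_sum, ← Finset.sum_neg_distrib]
    apply Finset.sum_congr rfl
    intro s _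
    rw [map_inv, Aff.inv_b, Dh_a χ v (Pi.single s 1)]
    ring
  | mul g h hg hh =>
    obtain ⟨S1, h1⟩ := hg
    obtain ⟨S2, h2⟩ := hh
    refine ⟨S1 ∪ S2, fun S hS χ v => ?_⟩
    rw [map_mul, Aff.mul_b, h1 S (Finset.union_subset_left hS) χ v,
      h2 S (Finset.union_subset_right hS) χ v, Finset.mul_sum, ← Finset.sum_add_distrib]
    apply Finset.sum_congr rfl
    intro s _
    rw [map_mul, Aff.mul_b, Dh_a χ v (Pi.single s 1)]
    ring

/-- Smooth dependence on parameters. -/
theorem Dh_smooth {E : Type} [NormedAddCommGroup E] [NormedSpace ℝ E] (χ : E → Gen → ℝ) (x0 : E)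
    (hχ : ∀ s, ContDiffAt ℝ 2 (fun x => χ x s) x0) (h0 : ∀ s, χ x0 s ≠ 0) (v : Gen → ℝ)
    (g : FreeGroup Gen) : ContDiffAt ℝ 2 (fun x => (Dh (χ x) v g).a) x0 ∧
      ContDiffAt ℝ 2 (fun x => (Dh (χ x) v g).b) x0 := by
  have hof : ∀ s : Gen, ContDiffAt ℝ 2 (fun x => (Dh (χ x) v (FreeGroup.of s)).a) x0 ∧
      ContDiffAt ℝ 2 (fun x => (Dh (χ x) v (FreeGroup.of s)).b) x0 := by
    intro s
    simp only [Dh_of, mkA_b]
    refine ⟨?_, contDiffAt_const⟩
    apply (hχ s).congr_of_eventuallyEq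
    filter_upwards [(hχ s).continuousAt.eventually_ne (h0 s)] with x hx
    exact mkA_a _ hx
  induction g using FreeGroup.induction_on with
  | C1 => exact ⟨contDiffAt_const, contDiffAt_const⟩
  | of s => exact hof s
  | inv_of s _ =>
    obtain ⟨h1, h2⟩ := hof s
    have h3 : ContDiffAt ℝ 2 (fun x => ((Dh (χ x) v (FreeGroup.of s)).a)⁻¹) x0 :=
      h1.inv (Dh (χ x0) v (FreeGroup.of s)).ha
    constructor
    · have : (fun x => (Dh (χ x) v (FreeGroup.of s)⁻¹).a) =
          fun x => ((Dh (χ x) v (FreeGroup.of s)).a)⁻¹ := by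
        funext x
        rw [map_inv, Aff.inv_a]
      rw [this]
      exact h3
    · have : (fun x => (Dh (χ x) v (FreeGroup.of s)⁻¹).b) =
          fun x => -(((Dh (χ x) v (FreeGroup.of s)).a)⁻¹ * (Dh (χ x) v (FreeGroup.of s)).b) := by
        funext x
        rw [map_inv, Aff.inv_b]
      rw [this]
      exact (h3.mul h2).neg
  | mul g h hg hh =>
    constructor
    · simp only [map_mul, Aff.mul_a]
      exact hg.1.mul hh.1
    · simp only [map_mul, Aff.mul_b]
      exact hg.2.add (hg.1.mul hh.2)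

end Pool.Agent.H42.Met
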