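import Mathlib
import Pool.Agent.H42.MetAff
import Pool.Agent.H42.DegThm

set_option autoImplicit false

namespace Pool.Agent.H42.Met

open Pool.Agent.H42.Deg

section
variable {N : ℕ}

/-- Total extension of the unknown. -/
def xe (x : Fin N → Fin 3 → ℝ) (j : ℕ) (c : Fin 3) : ℝ := if h : j < N then x ⟨j, h⟩ c else 0

theorem xe_fin (x : Fin N → Fin 3 → ℝ) (j : Fin N) (c : Fin 3) : xe x j c = x j c := by
  unfold xe
  rw [dif_pos j.2]

/-- The character. -/
noncomputable def chi (x : Fin N → Fin 3 → ℝ) : Gen → ℝ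
  | Gen.y none => 2
  | Gen.y (some k) => if k = 0 then 5 + xe x 0 0 else if k = 1 then 5 + xe x 0 1 else
      if k % 2 = 0 then 4 + xe x ((k - 2) / 2) 2 else 5 - xe x ((k - 1) / 2) 0 / 4
  | Gen.z _ => 1

theorem chi_even (x : Fin N → Fin 3 → ℝ) (j : ℕ) :
    chi x (Gen.y (some (2*j+2))) = 4 + xe x j 2 := by
  have h1 : 2 * j + 2 ≠ 0 := by omega
  have h2 : 2 * j + 2 ≠ 1 := by omega
  have h3 : (2 * j + 2) % 2 = 0 := by omega
  have h4 : (2 * j + 2 - 2) / 2 = j := by omega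
  simp only [chi, h1, h2, h3, h4, if_false, if_true]

theorem chi_odd (x : Fin N → Fin 3 → ℝ) (j : ℕ) :
    chi x (Gen.y (some (2*j+3))) = 5 - xe x (j+1) 0 / 4 := by
  have h1 : 2 * j + 3 ≠ 0 := by omega
  have h2 : 2 * j + 3 ≠ 1 := by omega
  have h3 : (2 * j + 3) % 2 ≠ 0 := by omega
  have h4 : (2 * j + 3 - 1) / 2 = j + 1 := by omega
  simp only [chi, h1, h2, h3, h4, if_false]

theorem xe_bound {x : Fin N → Fin 3 → ℝ} (hx : ∀ j c, |x j c| ≤ 2) (j : ℕ) (c : Fin 3) :
    |xe x j c| ≤ 2 := by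
  unfold xe
  split_ifs
  · exact hx _ _
  · simp

theorem chi_ne {x : Fin N → Fin 3 → ℝ} (hx : ∀ j c, |x j c| ≤ 2) (s : Gen) : chi x s ≠ 0 := by
  cases s with
  | z j => exact one_ne_zero
  | y i =>
    cases i with
    | none => exact two_ne_zero
    | some k =>
      have h0 := abs_le.mp (xe_bound hx 0 0)
      have h1 := abs_le.mp (xe_bound hx 0 1)
      have h2 := abs_le.mp (xe_bound hx ((k-2)/2) 2)
      have h3 := abs_le.mp (xe_bound hx ((k-1)/2) 0)
      simp only [chi]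
      split_ifs
      · linarith
      · linarith
      · linarith
      · linarith

theorem xe_smooth (x0 : Fin N → Fin 3 → ℝ) (j : ℕ) (c : Fin 3) :
    ContDiffAt ℝ 2 (fun x : Fin N → Fin 3 → ℝ => xe x j c) x0 := by
  unfold xe
  split_ifs with h
  · exact (contDiff_apply_apply ℝ ℝ (⟨j, h⟩ : Fin N) c).contDiffAt
  · exact contDiffAt_const

theorem chi_smooth (x0 : Fin N → Fin 3 → ℝ) (s : Gen) :
    ContDiffAt ℝ 2 (fun x : Fin N → Fin 3 → ℝ => chi x s) x0 := by
  cases s with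
  | z j => exact contDiffAt_const
  | y i =>
    cases i with
    | none => exact contDiffAt_const
    | some k =>
      simp only [chi]
      split_ifs
      · exact contDiffAt_const.add (xe_smooth _ _ _)
      · exact contDiffAt_const.add (xe_smooth _ _ _)
      · exact contDiffAt_const.add (xe_smooth _ _ _)
      · exact contDiffAt_const.sub ((xe_smooth _ _ _).div_const 4)

/-- Generators of the block. -/
def bgen (j : ℕ) (c : Fin 3) : Gen :=
  match c with
  | 0 => Gen.y (some (2*j))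
  | 1 => Gen.y (some (2*j+1))
  | 2 => Gen.z j

/-- Values of the polynomials at a solution. -/
theorem poly_vals {x : Fin N → Fin 3 → ℝ}
    (h3 : ∀ j : Fin N, x j 0 ^ 2 + x j 1 ^ 2 + x j 2 ^ 2 + 1 * (1/4) * xnext x j - 1 = 0) (j : ℕ)
    (hj : j < N) :
    ev (fun i => chi x (Gen.y i)) (T1 j) = xe x j 0 ∧
    ev (fun i => chi x (Gen.y i)) (T2 j) = xe x j 1 ∧
    1 + ev (fun i => chi x (Gen.y i)) (T3 j) = xe x j 2 ∧
    ev (fun i => chi x (Gen.y i)) (Qx j) = xe x (j+1) 1 / 4 := by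
  have hD : ev (fun i => chi x (Gen.y i)) Dx = 1 := by
    change (2 : ℝ) + ((-1 : ℤ) : ℝ) = 1
    push_cast
    norm_num
  have hT3 : ∀ j, 1 + ev (fun i => chi x (Gen.y i)) (T3 j) = xe x j 2 := by
    intro j
    change 1 + (chi x (Gen.y (some (2*j+2))) + ((-5 : ℤ) : ℝ)) = _
    rw [chi_even]
    push_cast
    ring
  have hT1 : ∀ j, ev (fun i => chi x (Gen.y i)) (T1 j) = xe x j 0 := by
    intro j
    cases j with
    | zero =>
      change 5 + xe x 0 0 + ((-5 : ℤ) : ℝ) = _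
      push_cast
      ring
    | succ j =>
      change ((-4 : ℤ) : ℝ) * (chi x (Gen.y (some (2*j+3))) + ((-5 : ℤ) : ℝ)) = _
      rw [chi_odd]
      push_cast
      ring
  have hQ : ∀ j (hj : j < N), ev (fun i => chi x (Gen.y i)) (T2 j) = xe x j 1 →
      ev (fun i => chi x (Gen.y i)) (Qx j) = xe x (j+1) 1 / 4 := by
    intro j hj h2
    rw [ev_Qx, hD, hT1, h2]
    have h4 := hT3 j
    have h5 : ev (fun i => chi x (Gen.y i)) (T3 j) = xe x j 2 - 1 := by linarith
    rw [h5]
    have h6 := h3 ⟨j, hj⟩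
    have e0 : xe x j 0 = x ⟨j, hj⟩ 0 := by unfold xe; rw [dif_pos hj]
    have e1 : xe x j 1 = x ⟨j, hj⟩ 1 := by unfold xe; rw [dif_pos hj]
    have e2 : xe x j 2 = x ⟨j, hj⟩ 2 := by unfold xe; rw [dif_pos hj]
    have e3 : xe x (j+1) 1 = xnext x ⟨j, hj⟩ := by unfold xe xnext; rfl
    rw [e0, e1, e2, e3]
    linarith
  have hT2 : ∀ j (hj : j < N), ev (fun i => chi x (Gen.y i)) (T2 j) = xe x j 1 := by
    intro j
    induction j with
    | zero =>
      intro _
      change chi x (Gen.y (some 1)) + ((-5 : ℤ) : ℝ) = _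
      have h1 : chi x (Gen.y (some 1)) = 5 + xe x 0 1 := by
        simp only [chi, one_ne_zero, if_false, if_true]
      rw [h1]
      push_cast
      ring
    | succ j ih =>
      intro hj
      have h1 := hQ j (by omega) (ih (by omega))
      change ((4 : ℤ) : ℝ) * ev (fun i => chi x (Gen.y i)) (Qx j) = _
      rw [h1]
      push_cast
      ring
  exact ⟨hT1 j, hT2 j hj, hT3 j, hQ j hj (hT2 j hj)⟩

theorem Ee_val (x : Fin N → Fin 3 → ℝ) (j : ℕ) :
    ev (fun i => chi x (Gen.y i)) (Ee j) = - xe x (j+1) 0 / 4 := by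
  change chi x (Gen.y (some (2*j+3))) + ((-5 : ℤ) : ℝ) = _
  rw [chi_odd]
  push_cast
  ring

end

/-- The key vanishing statement. -/
theorem key (g : FreeGroup Gen) : ∃ χ : Gen → ℝ, (∀ s, χ s ≠ 0) ∧ χ (Gen.y none) = 2 ∧
    (∀ j, χ (Gen.z j) = 1) ∧ ∀ v : Gen → ℝ, v (Gen.y none) = 0 →
    (∀ j, Dh χ v (relw gy gz j) = 1) → (Dh χ v g).b = 0 := by
  classical
  obtain ⟨S0, hS0⟩ := Dh_expand g
  -- choose the size
  obtain ⟨N, hN⟩ : ∃ N : ℕ, ∀ s ∈ S0, s = Gen.y none ∨ ∃ j < N, ∃ c, s = bgen j c := by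
    refine ⟨S0.sup (fun s => match s with
      | Gen.y none => 0
      | Gen.y (some k) => k + 1
      | Gen.z j => j + 1), fun s hs => ?_⟩
    have h1 := Finset.le_sup (f := fun s : Gen => match s with
      | Gen.y none => 0
      | Gen.y (some k) => k + 1
      | Gen.z j => j + 1) hs
    match s, h1 with
    | Gen.y none, _ => exact Or.inl rfl
    | Gen.y (some k), h1 =>
      right
      have h2 : k + 1 ≤ _ := h1
      rcases Nat.even_or_odd' k with ⟨m, hm | hm⟩
      · exact ⟨m, lt_of_lt_of_le (by omega : m < k + 1) h2, 0, by rw [hm]; rfl⟩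
      · exact ⟨m, lt_of_lt_of_le (by omega : m < k + 1) h2, 1, by rw [hm]; rfl⟩
    | Gen.z j, h1 =>
      right
      have h2 : j + 1 ≤ _ := h1
      exact ⟨j, lt_of_lt_of_le (Nat.lt_succ_self j) h2, 2, rfl⟩
  have hbinj : ∀ j c j' c', bgen j c = bgen j' c' → j = j' ∧ c = c' := by
    intro j c j' c' h
    unfold bgen at h
    fin_cases c <;> fin_cases c' <;> simp at h ⊢ <;> omega
  have hbn : ∀ j c, bgen j c ≠ Gen.y none := by
    intro j c h
    unfold bgen at h
    fin_cases c <;> simp at h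
  -- expansion over blocks
  have hexp : ∀ χ v : Gen → ℝ, v (Gen.y none) = 0 → (Dh χ v g).b =
      ∑ j ∈ Finset.range N, ((Dh χ (Pi.single (bgen j 0) 1) g).b * v (bgen j 0) +
        (Dh χ (Pi.single (bgen j 1) 1) g).b * v (bgen j 1) +
        (Dh χ (Pi.single (bgen j 2) 1) g).b * v (bgen j 2)) := by
    intro χ v hv
    set S1 : Finset Gen := (Finset.range N ×ˢ (Finset.univ : Finset (Fin 3))).image
      (fun p => bgen p.1 p.2) with hS1
    have hnot : Gen.y none ∉ S1 := by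
      intro h
      rw [hS1, Finset.mem_image] at h
      obtain ⟨p, _, hp⟩ := h
      exact hbn _ _ hp
    rw [hS0 (insert (Gen.y none) S1) (by
      intro s hs
      rcases hN s hs with h | ⟨j, hj, c, h⟩
      · rw [h]; exact Finset.mem_insert_self _ _
      · apply Finset.mem_insert_of_mem
        rw [hS1, Finset.mem_image]
        exact ⟨(j, c), by simp [hj], h.symm⟩) χ v, Finset.sum_insert hnot, hv, mul_zero, zero_add,
      hS1, Finset.sum_image (by
        intro p _ q _ h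
        have := hbinj _ _ _ _ h
        exact Prod.ext this.1 this.2), Finset.sum_product]
    apply Finset.sum_congr rfl
    intro j _
    rw [Fin.sum_univ_three]
  -- the topological theorem
  obtain ⟨x, l, hx, hxl⟩ := exists_zero (N := N)
    (fun x j c => (Dh (chi x) (Pi.single (bgen j c) 1) g).b) (by
      intro x hx
      rw [contDiffAt_pi]
      intro j
      rw [contDiffAt_pi]
      intro c
      exact (Dh_smooth (fun x => chi x) x (chi_smooth x) (chi_ne hx) _ g).2)
    (ε := 1/4) (by norm_num) le_rfl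
  refine ⟨chi x, chi_ne hx, rfl, fun j => rfl, fun v hv hrel => ?_⟩
  have h3 : ∀ j : Fin N, x j 0 ^ 2 + x j 1 ^ 2 + x j 2 ^ 2 + 1 * (1/4) * xnext x j - 1 = 0 :=
    fun j => hxl j 3
  -- relators
  have hR : ∀ j, j < N → (xe x j 0 * v (bgen j 0) + xe x j 1 * v (bgen j 1) +
      xe x j 2 * v (bgen j 2)) + (1/4) * (xe x (j+1) 1 * v (bgen (j+1) 0) -
      xe x (j+1) 0 * v (bgen (j+1) 1)) = 0 := by
    intro j hj
    obtain ⟨p1, p2, p3, p4⟩ := poly_vals h3 j hj
    have h5 := hrel j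
    rw [map_relw] at h5
    have hya : ∀ i, (Dh (chi x) v (gy i)).a = chi x (Gen.y i) := by
      intro i
      unfold gy
      rw [Dh_of, mkA_a _ (chi_ne hx _)]
    have hyb : ∀ i, (Dh (chi x) v (gy i)).b = v (Gen.y i) := by
      intro i
      unfold gy
      rw [Dh_of, mkA_b]
    have hza : ∀ i, (Dh (chi x) v (gz i)).a = 1 := by
      intro i
      unfold gz
      rw [Dh_of, mkA_a _ (chi_ne hx _)]
      rfl
    have hzb : ∀ i, (Dh (chi x) v (gz i)).b = v (Gen.z i) := by
      intro i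
      unfold gz
      rw [Dh_of, mkA_b]
    rw [Aff.relw_b (fun i => Dh (chi x) v (gy i)) (fun i => Dh (chi x) v (gz i))
      (by rw [hya]; rfl) (by rw [hyb]; exact hv) j (hza j)] at h5
    have h6 := congrArg Aff.b h5
    simp only [hya, hyb, hzb, Aff.one_b] at h6
    rw [p1, p2, p4, Ee_val] at h6
    have p3' : ev (fun i => chi x (Gen.y i)) (T3 j) = xe x j 2 - 1 := by linarith
    rw [p3'] at h6
    change (xe x j 0 * v (Gen.y (some (2*j))) + xe x j 1 * v (Gen.y (some (2*j+1))) +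
      xe x j 2 * v (Gen.z j)) + (1/4) * (xe x (j+1) 1 * v (Gen.y (some (2*j+2))) -
      xe x (j+1) 0 * v (Gen.y (some (2*j+3)))) = 0
    linarith
  rw [hexp (chi x) v hv]
  -- multipliers
  let le : ℕ → ℝ := fun j => if h : j < N then l ⟨j, h⟩ else 0
  let lp : ℕ → ℝ := fun j => Nat.rec 0 (fun j _ => le j) j
  have lp0 : lp 0 = 0 := rfl
  have lps : ∀ j, lp (j+1) = le j := fun j => rfl
  have hlp : ∀ j : Fin N, lprev l j = lp j := by
    intro j
    obtain ⟨j, hj⟩ := j
    cases j with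
    | zero => rfl
    | succ j =>
      rw [lps]
      unfold lprev
      simp only [Nat.succ_ne_zero, if_false]
      change l ⟨j + 1 - 1, _⟩ = if h : j < N then l ⟨j, h⟩ else 0
      rw [dif_pos (by omega)]
      rfl
  set Jt : ℕ → ℝ := fun j => (1/4) * (xe x j 1 * v (bgen j 0) - xe x j 0 * v (bgen j 1)) with hJt
  set St : ℕ → ℝ := fun j => xe x j 0 * v (bgen j 0) + xe x j 1 * v (bgen j 1) +
      xe x j 2 * v (bgen j 2) with hSt
  have hterm : ∀ j ∈ Finset.range N, ((Dh (chi x) (Pi.single (bgen j 0) 1) g).b * v (bgen j 0) +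
        (Dh (chi x) (Pi.single (bgen j 1) 1) g).b * v (bgen j 1) +
        (Dh (chi x) (Pi.single (bgen j 2) 1) g).b * v (bgen j 2)) =
        le j * St j + lp j * Jt j := by
    intro j hj
    rw [Finset.mem_range] at hj
    have a0 := hxl ⟨j, hj⟩ 0
    have a1 := hxl ⟨j, hj⟩ 1
    have a2 := hxl ⟨j, hj⟩ 2
    simp only [comp4, Matrix.cons_val_zero, Matrix.cons_val_one, Matrix.cons_val, hlp] at a0 a1 a2
    have el : le j = l ⟨j, hj⟩ := dif_pos hj
    have e0 : xe x j 0 = x ⟨j, hj⟩ 0 := by unfold xe; rw [dif_pos hj]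
    have e1 : xe x j 1 = x ⟨j, hj⟩ 1 := by unfold xe; rw [dif_pos hj]
    have e2 : xe x j 2 = x ⟨j, hj⟩ 2 := by unfold xe; rw [dif_pos hj]
    have b0 : (Dh (chi x) (Pi.single (bgen j 0) 1) g).b =
      l ⟨j, hj⟩ * x ⟨j, hj⟩ 0 + 1/4 * lp j * x ⟨j, hj⟩ 1 := by linarith
    have b1 : (Dh (chi x) (Pi.single (bgen j 1) 1) g).b =
      l ⟨j, hj⟩ * x ⟨j, hj⟩ 1 - 1/4 * lp j * x ⟨j, hj⟩ 0 := by linarith
    have b2 : (Dh (chi x) (Pi.single (bgen j 2) 1) g).b = l ⟨j, hj⟩ * x ⟨j, hj⟩ 2 := by linarith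
    rw [b0, b1, b2, el, hSt, hJt]
    simp only
    rw [e0, e1, e2]
    ring
  rw [Finset.sum_congr rfl hterm, Finset.sum_add_distrib]
  have htel : ∑ j ∈ Finset.range N, lp j * Jt j = ∑ j ∈ Finset.range N, le j * Jt (j+1) := by
    have h1 := Finset.sum_range_succ (fun j => lp j * Jt j) N
    have h2 := Finset.sum_range_succ' (fun j => lp j * Jt j) N
    simp only [lp0, lps, zero_mul, add_zero] at h2
    have h4 : Jt N = 0 := by
      rw [hJt]
      simp only
      have e0 : xe x N 0 = 0 := by unfold xe; rw [dif_neg (lt_irrefl N)]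
      have e1 : xe x N 1 = 0 := by unfold xe; rw [dif_neg (lt_irrefl N)]
      rw [e0, e1]
      ring
    rw [h4, mul_zero, add_zero] at h1
    rw [← h1, h2]
  rw [htel, ← Finset.sum_add_distrib]
  apply Finset.sum_eq_zero
  intro j hj
  rw [Finset.mem_range] at hj
  rw [← mul_add]
  have : St j + Jt (j+1) = 0 := hR j hj
  rw [this, mul_zero]

end Pool.Agent.H42.Met
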