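import Mathlib
import Pool.Agent.H42.MetKey

set_option autoImplicit false

namespace Pool.Agent.H42.Met

open Subgroup

/-- Free metabelian groups. -/
abbrev MX (X : Type) : Type := FreeGroup X ⧸ derivedSeries (FreeGroup X) 2

/-- Universal property of free metabelian groups. -/
noncomputable def liftM {X H : Type} [Group H] [hm : Metab H] (f : X → H) : MX X →* H :=
  QuotientGroup.lift _ (FreeGroup.lift f) (by
    intro x hx
    have h2 : FreeGroup.lift f x ∈ derivedSeries H 2 :=
      map_derivedSeries_le_derivedSeries (FreeGroup.lift f) 2 ⟨x, hx, rfl⟩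
    rw [hm.out, mem_bot] at h2
    exact h2)

theorem liftM_mk {X H : Type} [Group H] [hm : Metab H] (f : X → H) (u : FreeGroup X) :
    liftM f (u : MX X) = FreeGroup.lift f u := rfl

theorem liftM_of {X H : Type} [Group H] [hm : Metab H] (f : X → H) (x : X) :
    liftM f ((FreeGroup.of x : FreeGroup X) : MX X) = f x := by
  rw [liftM_mk, FreeGroup.lift_apply_of]

theorem homM_ext {X H : Type} [Group H] {f g : MX X →* H}
    (h : ∀ x : X, f ((FreeGroup.of x : FreeGroup X) : MX X) =
      g ((FreeGroup.of x : FreeGroup X) : MX X)) : f = g := by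
  apply QuotientGroup.monoidHom_ext
  apply FreeGroup.ext_hom
  exact h

theorem metab_comm (H : Type) [CommGroup H] : Metab H :=
  metab_of_comm fun a _ b _ => mul_comm a b

theorem act_one {H : Type} [Group H] (y : Option ℕ → H) (a : Ex) : act y a 1 = 1 := by
  induction a with
  | cst n => simp [act]
  | var i => simp [act]
  | add a b iha ihb => simp [act, iha, ihb]
  | mul a b iha ihb => simp [act, iha, ihb]

theorem kap_comm {H : Type} [CommGroup H] (y : Option ℕ → H) (s : H) : kap y s = 1 := by
  unfold kap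
  rw [mul_comm (y none) s]
  simp

/-- The rank is infinite. -/
theorem infinite_basis {X : Type} (e : PG ≃* MX X) : Infinite X := by
  by_contra hfin
  rw [not_infinite_iff_finite] at hfin
  have hm : Metab (Multiplicative (ZMod 2)) := metab_comm _
  have hrel : ∀ (v : ℕ → ZMod 2) (j : ℕ), relw (fun i => i.elim (1 : Multiplicative (ZMod 2))
      (fun k => Multiplicative.ofAdd (v k))) (fun _ => 1) j = 1 := by
    intro v j
    unfold relw
    simp only [kap_comm, act_one, mul_one]
  let D : (ℕ → ZMod 2) → (PG →* Multiplicative (ZMod 2)) := fun v => liftP _ _ (hrel v)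
  let Φ : (ℕ → ZMod 2) → (X → Multiplicative (ZMod 2)) := fun v x =>
    D v (e.symm ((FreeGroup.of x : FreeGroup X) : MX X))
  have hΦ : Function.Injective Φ := by
    intro v w hvw
    have h1 : (D v).comp e.symm.toMonoidHom = (D w).comp e.symm.toMonoidHom := by
      apply homM_ext
      intro x
      exact congrFun hvw x
    have h2 : D v = D w := by
      apply MonoidHom.ext
      intro p
      have := DFunLike.congr_fun h1 (e p)
      simpa using this
    funext k
    have h3 : D v (py (some k)) = D w (py (some k)) := by rw [h2]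
    change liftP _ _ (hrel v) (py (some k)) = liftP _ _ (hrel w) (py (some k)) at h3
    rw [liftP_y, liftP_y] at h3
    exact h3
  have : Finite (X → Multiplicative (ZMod 2)) := by
    have : Finite (Multiplicative (ZMod 2)) := inferInstanceAs (Finite (ZMod 2))
    infer_instance
  exact not_injective_infinite_finite Φ hΦ

/-- Words have finite support. -/
theorem word_support {X : Type} (u : FreeGroup X) : ∃ S : Set X, S.Finite ∧
    ∀ (H : Type) [Group H] (f f' : X → H), (∀ s ∈ S, f s = f' s) →
      FreeGroup.lift f u = FreeGroup.lift f' u := by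
  induction u using FreeGroup.induction_on with
  | C1 => exact ⟨∅, Set.finite_empty, fun H _ f f' _ => by simp⟩
  | of s =>
    refine ⟨{s}, Set.finite_singleton s, fun H _ f f' h => ?_⟩
    rw [FreeGroup.lift_apply_of, FreeGroup.lift_apply_of]
    exact h s rfl
  | inv_of s ih =>
    obtain ⟨S, hS, h⟩ := ih
    refine ⟨S, hS, fun H _ f f' hf => ?_⟩
    rw [map_inv, map_inv, h H f f' hf]
  | mul u w hu hw =>
    obtain ⟨S, hS, h⟩ := hu
    obtain ⟨S', hS', h'⟩ := hw
    refine ⟨S ∪ S', hS.union hS', fun H _ f f' hf => ?_⟩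
    rw [map_mul, map_mul, h H f f' (fun s hs => hf s (Or.inl hs)),
      h' H f f' (fun s hs => hf s (Or.inr hs))]

theorem hom_Dh (χ v : Gen → ℝ) (hχ : ∀ s, χ s ≠ 0) (F : PG →* Aff)
    (ha : ∀ s, (F ((FreeGroup.of s : FreeGroup Gen) : PG)).a = χ s)
    (hb : ∀ s, (F ((FreeGroup.of s : FreeGroup Gen) : PG)).b = v s) (g : FreeGroup Gen) :
    F (g : PG) = Dh χ v g := by
  have h : F.comp (QuotientGroup.mk' NN) = Dh χ v := by
    apply FreeGroup.ext_hom
    intro s
    rw [Dh_of]
    ext
    · rw [mkA_a _ (hχ s)]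
      exact ha s
    · rw [mkA_b]
      exact hb s
  exact DFunLike.congr_fun h g

/-- The group is not free metabelian. -/
theorem not_free (X : Type) (e : PG ≃* MX X) : False := by
  classical
  have hinf := infinite_basis e
  obtain ⟨u, hu⟩ := QuotientGroup.mk'_surjective (derivedSeries (FreeGroup X) 2) (e (py none))
  obtain ⟨S, hS, hSu⟩ := word_support u
  obtain ⟨x, hx⟩ := hS.exists_notMem
  obtain ⟨g, hg⟩ := QuotientGroup.mk'_surjective NN
    (e.symm ((FreeGroup.of x : FreeGroup X) : MX X))
  obtain ⟨χ, hχ0, hχ2, hχz, hkey⟩ := key g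
  -- the base homomorphism
  have hrel0 : ∀ j, relw (fun i => mkA (χ (Gen.y i)) 0) (fun k => mkA (χ (Gen.z k)) 0) j = 1 := by
    intro j
    rw [Aff.relw_b _ _ (by rw [mkA_a _ (hχ0 _), hχ2]) rfl j (by
      rw [mkA_a _ (hχ0 _), hχz])]
    ext
    · rfl
    · simp [mkA_b]
  let D0 : PG →* Aff := liftP _ _ hrel0
  have hD0 : ∀ s : Gen, D0 ((FreeGroup.of s : FreeGroup Gen) : PG) = mkA (χ s) 0 := by
    intro s
    cases s with
    | y i => exact liftP_y _ _ hrel0 i
    | z j => exact liftP_z _ _ hrel0 j
  -- modification at x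
  let f0 : X → Aff := fun x' => D0 (e.symm ((FreeGroup.of x' : FreeGroup X) : MX X))
  let f1 : X → Aff := Function.update f0 x ⟨(f0 x).a, (f0 x).b + 1, (f0 x).ha⟩
  let E : MX X →* Aff := liftM f1
  let F : PG →* Aff := E.comp e.toMonoidHom
  have hE0 : liftM f0 = D0.comp e.symm.toMonoidHom := by
    apply homM_ext
    intro x'
    rw [liftM_of]
    rfl
  have hlin : Aff.lin.comp E = Aff.lin.comp (D0.comp e.symm.toMonoidHom) := by
    apply homM_ext
    intro x'
    change Aff.lin (liftM f1 _) = Aff.lin (f0 x')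
    rw [liftM_of]
    by_cases hxx : x' = x
    · subst hxx
      apply Units.ext
      change (f1 x').a = (f0 x').a
      simp [f1]
    · simp [f1, hxx]
  have hFa : ∀ p : PG, (F p).a = (D0 p).a := by
    intro p
    have h1 := DFunLike.congr_fun hlin (e p)
    have h2 := congrArg Units.val h1
    change (E (e p)).a = (D0 (e.symm (e p))).a at h2
    rw [MulEquiv.symm_apply_apply] at h2
    exact h2
  have hFnone : F (py none) = D0 (py none) := by
    change E (e (py none)) = _
    rw [← hu]
    change FreeGroup.lift f1 u = _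
    rw [hSu Aff f1 f0 (by
      intro s hs
      have : s ≠ x := fun h => hx (h ▸ hs)
      simp [f1, this])]
    change liftM f0 ((QuotientGroup.mk' (derivedSeries (FreeGroup X) 2)) u) = _
    rw [hu, hE0]
    change D0 (e.symm (e (py none))) = _
    rw [MulEquiv.symm_apply_apply]
  -- apply the key statement
  have hrelF : ∀ (F : PG →* Aff) (v : Gen → ℝ),
      (∀ s, (F ((FreeGroup.of s : FreeGroup Gen) : PG)).a = χ s) →
      (∀ s, (F ((FreeGroup.of s : FreeGroup Gen) : PG)).b = v s) → v (Gen.y none) = 0 →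
      (F (g : PG)).b = 0 := by
    intro F v ha hb hv
    rw [hom_Dh χ v hχ0 F ha hb g]
    apply hkey v hv
    intro j
    rw [← hom_Dh χ v hχ0 F ha hb]
    have : ((relw gy gz j : FreeGroup Gen) : PG) = 1 :=
      (QuotientGroup.eq_one_iff _).mpr (relw_NN j)
    rw [this, map_one]
  have hb0 : (f0 x).b = 0 := by
    have h1 := hrelF D0 (fun _ => 0) (fun s => by rw [hD0, mkA_a _ (hχ0 s)])
      (fun s => by rw [hD0]; rfl) rfl
    change (D0 (e.symm _)).b = 0
    rw [← hg]
    exact h1
  have hb1 := hrelF F (fun s => (F ((FreeGroup.of s : FreeGroup Gen) : PG)).b)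
    (fun s => by rw [hFa, hD0, mkA_a _ (hχ0 s)]) (fun s => rfl) (by
      change (F (py none)).b = 0
      rw [hFnone]
      change (D0 ((FreeGroup.of (Gen.y none) : FreeGroup Gen) : PG)).b = 0
      rw [hD0]
      rfl)
  have h3 : F (g : PG) = f1 x := by
    change E (e ((QuotientGroup.mk' NN) g)) = f1 x
    rw [hg, MulEquiv.apply_symm_apply]
    exact liftM_of f1 x
  rw [h3] at hb1
  have h4 : (f1 x).b = (f0 x).b + 1 := by simp [f1]
  rw [h4, hb0] at hb1
  norm_num at hb1

/-- The negative answer. -/
theorem main : ¬ (∀ (G : Type) [Group G], derivedSeries G 2 = ⊥ →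
      (∀ (A B : Type) [Group A] [Group B], derivedSeries A 2 = ⊥ → derivedSeries B 2 = ⊥ →
        ∀ (π : A →* B), Function.Surjective π →
          ∀ f : G →* B, ∃ g : G →* A, π.comp g = f) →
      ∃ (X : Type), Nonempty (G ≃* (FreeGroup X ⧸ derivedSeries (FreeGroup X) 2))) := by
  intro h
  obtain ⟨X, ⟨e⟩⟩ := h PG (inferInstance : Metab PG).out (by
    intro A B _ _ hA hB π hπ f
    have : Metab A := ⟨hA⟩
    have : Metab B := ⟨hB⟩
    exact lifting π hπ f)
  exact not_free X e

end Pool.Agent.H42.Met
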