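import Mathlib
import Pool.Agent.H42.MetMain

set_option autoImplicit false

namespace Pool.Agent.H42.Met

open Subgroup

instance (X : Type) : Metab (MX X) := by
  refine ⟨?_⟩
  rw [← map_derivedSeries_eq (QuotientGroup.mk'_surjective (derivedSeries (FreeGroup X) 2)) 2,
    eq_bot_iff]
  rintro _ ⟨x, hx, rfl⟩
  rw [mem_bot]
  exact (QuotientGroup.eq_one_iff x).mpr hx

instance : Countable Gen := by
  have : Function.Injective (fun s : Gen => match s with
    | Gen.y i => (Sum.inl i : Option ℕ ⊕ ℕ)
    | Gen.z j => Sum.inr j) := by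
    intro s t h
    cases s <;> cases t <;> simp at h ⊢ <;> exact h
  exact this.countable

theorem retract_main : ∃ r : MX ℕ →* MX ℕ, (∀ m, r (r m) = r m) ∧
    ∀ X : Type, IsEmpty (r.range ≃* MX X) := by
  have : Nonempty Gen := ⟨Gen.z 0⟩
  obtain ⟨f, hf⟩ := exists_surjective_nat Gen
  let π : MX ℕ →* PG := liftM (fun n => ((FreeGroup.of (f n) : FreeGroup Gen) : PG))
  have hπ : Function.Surjective π := by
    rw [← MonoidHom.range_eq_top]
    have h1 : (QuotientGroup.mk' NN).range ≤ π.range := by
      rintro _ ⟨g, rfl⟩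
      induction g using FreeGroup.induction_on with
      | C1 => rw [map_one]; exact one_mem _
      | of s =>
        obtain ⟨n, rfl⟩ := hf s
        exact ⟨((FreeGroup.of n : FreeGroup ℕ) : MX ℕ), liftM_of _ n⟩
      | inv_of s ih => rw [map_inv]; exact inv_mem ih
      | mul g h hg hh => rw [map_mul]; exact mul_mem hg hh
    rw [MonoidHom.range_eq_top.mpr (QuotientGroup.mk'_surjective NN)] at h1
    exact top_le_iff.mp h1
  obtain ⟨s, hs⟩ := lifting π hπ (MonoidHom.id PG)
  have hs' : ∀ p, π (s p) = p := fun p => DFunLike.congr_fun hs p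
  refine ⟨s.comp π, fun m => ?_, fun X => ⟨fun e => ?_⟩⟩
  · change s (π (s (π m))) = s (π m)
    rw [hs']
  · have hinj : Function.Injective s := fun a b h => by
      have := congrArg π h
      rwa [hs', hs'] at this
    have hrange : s.range = (s.comp π).range := by
      ext m
      constructor
      · rintro ⟨p, rfl⟩
        obtain ⟨q, rfl⟩ := hπ p
        exact ⟨q, rfl⟩
      · rintro ⟨q, rfl⟩
        exact ⟨π q, rfl⟩
    exact not_free X ((MonoidHom.ofInjective hinj).trans
      ((MulEquiv.subgroupCongr hrange).trans e))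

end Pool.Agent.H42.Met
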