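import Mathlib

set_option autoImplicit false

/-!
Determinant bounds for matrices whose rows are convex combinations of rows
`2 e_a - e_b`, `2 e_a`, `- e_b`, `0`.
-/

namespace Pool.Agent.H42.PinvDet

open Matrix Finset

/-- The indicator row vector of an optional index. -/
def ind {m : ℕ} (a : Option (Fin m)) (j : Fin m) : ℚ := if a = some j then 1 else 0

/-- The vertex rows `2 e_a - e_b`. -/
def vert {m : ℕ} (t : Option (Fin m) × Option (Fin m)) (j : Fin m) : ℚ :=
  2 * ind t.1 j - ind t.2 j

/-- A row is in the convex hull of the vertex rows. -/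
def InC {m : ℕ} (v : Fin m → ℚ) : Prop :=
  ∃ w : Option (Fin m) × Option (Fin m) → ℚ, (∀ t, 0 ≤ w t) ∧ ∑ t, w t = 1 ∧
    ∀ j, v j = ∑ t, w t * vert t j

lemma det_mul_expand {n : ℕ} {ι : Type*} [Fintype ι] [DecidableEq ι]
    (M : Matrix (Fin n) ι ℚ) (N : Matrix ι (Fin n) ℚ) :
    (M * N).det = ∑ f : Fin n → ι, (∏ i, M i (f i)) * (N.submatrix f id).det := by
  have h := (Matrix.detRowAlternating (n := Fin n) (R := ℚ)).toMultilinearMap.map_sum
    (g := fun (i : Fin n) (j : ι) => (M i j) • (fun k => N j k))
  have h1 : (M * N) = fun i => ∑ j, (M i j) • (fun k => N j k) := by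
    ext i k
    simp [Matrix.mul_apply, Finset.sum_apply]
  have h2 : (M * N).det = (Matrix.detRowAlternating (n := Fin n) (R := ℚ)).toMultilinearMap
      (fun i => ∑ j, (M i j) • (fun k => N j k)) := by
    rw [h1]; rfl
  rw [h2, h]
  refine Finset.sum_congr rfl fun f _ => ?_
  have h3 := (Matrix.detRowAlternating (n := Fin n) (R := ℚ)).toMultilinearMap.map_smul_univ
    (fun i => M i (f i)) (fun i => (fun k => N (f i) k))
  rw [h3]
  rfl

lemma abs_det_le_of_inC_of_vert {m : ℕ} {B : ℚ}
    (hB : ∀ t : Fin m → Option (Fin m) × Option (Fin m),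
      |(Matrix.of (fun i j => vert (t i) j) : Matrix (Fin m) (Fin m) ℚ).det| ≤ B)
    (M : Matrix (Fin m) (Fin m) ℚ) (hM : ∀ i, InC (M i)) : |M.det| ≤ B := by
  choose w hw0 hw1 hw using hM
  have hMeq : M = (Matrix.of w) *
      (Matrix.of (fun (t : Option (Fin m) × Option (Fin m)) (j : Fin m) => vert t j)) := by
    ext i j
    simp [Matrix.mul_apply, hw]
  rw [hMeq, det_mul_expand]
  calc |∑ f : Fin m → Option (Fin m) × Option (Fin m), (∏ i, (Matrix.of w) i (f i)) *
        ((Matrix.of (fun (t : Option (Fin m) × Option (Fin m)) (j : Fin m) =>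
          vert t j)).submatrix f id).det|
      ≤ ∑ f : Fin m → Option (Fin m) × Option (Fin m), |(∏ i, (Matrix.of w) i (f i)) *
        ((Matrix.of (fun (t : Option (Fin m) × Option (Fin m)) (j : Fin m) =>
          vert t j)).submatrix f id).det| := Finset.abs_sum_le_sum_abs _ _
    _ ≤ ∑ f : Fin m → Option (Fin m) × Option (Fin m), (∏ i, w i (f i)) * B := by
        refine Finset.sum_le_sum fun f _ => ?_
        have e1 : (∏ i, (Matrix.of w) i (f i)) = ∏ i, w i (f i) := rfl
        rw [e1, abs_mul, abs_of_nonneg (Finset.prod_nonneg fun i _ => hw0 i (f i))]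
        exact mul_le_mul_of_nonneg_left (hB f) (Finset.prod_nonneg fun i _ => hw0 i (f i))
    _ = B := by
        have e2 : (∑ f : Fin m → Option (Fin m) × Option (Fin m), ∏ i, w i (f i)) = 1 := by
          have := Finset.prod_univ_sum (fun _ : Fin m =>
            (Finset.univ : Finset (Option (Fin m) × Option (Fin m)))) (fun i t => w i t)
          rw [Fintype.piFinset_univ] at this
          rw [← this]
          simp [hw1]
        rw [← Finset.sum_mul, e2, one_mul]

/-- two-point convex combinations of vertices -/
lemma inC_of_two {m : ℕ} (v : Fin m → ℚ) (s t : Option (Fin m) × Option (Fin m)) (θ : ℚ)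
    (h0 : 0 ≤ θ) (h1 : θ ≤ 1) (hv : ∀ j, v j = θ * vert s j + (1 - θ) * vert t j) : InC v := by
  classical
  refine ⟨fun u => θ * (if u = s then 1 else 0) + (1 - θ) * (if u = t then 1 else 0), ?_, ?_, ?_⟩
  · intro u
    have : (0:ℚ) ≤ (if u = s then 1 else 0) := by split_ifs <;> norm_num
    have : (0:ℚ) ≤ (if u = t then 1 else 0) := by split_ifs <;> norm_num
    have : 0 ≤ 1 - θ := by linarith
    positivity
  · rw [Finset.sum_add_distrib, ← Finset.mul_sum, ← Finset.mul_sum]
    simp
  · intro j
    rw [hv j]
    simp only [add_mul, mul_assoc, Finset.sum_add_distrib, ← Finset.mul_sum]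
    simp

lemma inC_vert {m : ℕ} (t : Option (Fin m) × Option (Fin m)) : InC (vert t) :=
  inC_of_two _ t t 1 (by norm_num) (by norm_num) (by intro j; ring)

lemma abs_det_le_prod {m : ℕ} (M : Matrix (Fin m) (Fin m) ℚ) :
    |M.det| ≤ ∏ i, ∑ j, |M i j| := by
  rw [← Matrix.det_transpose, Matrix.det_apply']
  calc |∑ σ : Equiv.Perm (Fin m), ((Equiv.Perm.sign σ : ℤ) : ℚ) * ∏ i, Mᵀ (σ i) i|
      ≤ ∑ σ : Equiv.Perm (Fin m), |((Equiv.Perm.sign σ : ℤ) : ℚ) * ∏ i, Mᵀ (σ i) i| :=
        Finset.abs_sum_le_sum_abs _ _
    _ = ∑ σ : Equiv.Perm (Fin m), ∏ i, |M i (σ i)| := by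
        refine Finset.sum_congr rfl fun σ _ => ?_
        rw [abs_mul, Finset.abs_prod]
        have : |((Equiv.Perm.sign σ : ℤ) : ℚ)| = 1 := by
          rcases Int.units_eq_one_or (Equiv.Perm.sign σ) with h | h <;> simp [h]
        rw [this, one_mul]
        simp [Matrix.transpose_apply]
    _ ≤ ∑ f : Fin m → Fin m, ∏ i, |M i (f i)| := by
        have hinj : Function.Injective (fun σ : Equiv.Perm (Fin m) => (σ : Fin m → Fin m)) :=
          DFunLike.coe_injective
        rw [← Finset.sum_image (s := Finset.univ)
          (g := fun σ : Equiv.Perm (Fin m) => (σ : Fin m → Fin m))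
          (f := fun f : Fin m → Fin m => ∏ i, |M i (f i)|) (fun a _ b _ h => hinj h)]
        exact Finset.sum_le_sum_of_subset_of_nonneg (Finset.subset_univ _)
          (fun f _ _ => Finset.prod_nonneg fun i _ => abs_nonneg _)
    _ = ∏ i, ∑ j, |M i j| := by
        rw [Finset.prod_univ_sum]
        simp

lemma exists_res {m : ℕ} (j : Fin (m + 1)) (a : Option (Fin (m + 1))) :
    ∃ a' : Option (Fin m), ∀ l, ind a (j.succAbove l) = ind a' l := by
  rcases a with _ | b
  · exact ⟨none, fun l => by simp [ind]⟩
  · rcases Fin.eq_self_or_eq_succAbove j b with h | ⟨b', h⟩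
    · refine ⟨none, fun l => ?_⟩
      subst h
      simp [ind, (Fin.succAbove_ne b l).symm]
    · refine ⟨some b', fun l => ?_⟩
      subst h
      simp [ind]

lemma ind_none {m : ℕ} (j : Fin m) : ind none j = 0 := by simp [ind]

lemma sum_abs_ind {m : ℕ} (a : Option (Fin m)) : ∑ j, |ind a j| ≤ 1 := by
  rcases a with _ | b
  · simp [ind]
  · simp [ind, apply_ite abs]

lemma ind_some_ne {m : ℕ} (j : Fin (m + 1)) (l : Fin m) : ind (some j) (j.succAbove l) = 0 := by
  simp [ind, (Fin.succAbove_ne j l).symm]

/-- expansion of the determinant along a column with a single nonzero entry -/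
lemma abs_det_single_col {m : ℕ} (B : Matrix (Fin (m + 1)) (Fin (m + 1)) ℚ) (r j : Fin (m + 1))
    (h : ∀ i, i ≠ r → B i j = 0) :
    |B.det| = |B r j| * |(B.submatrix r.succAbove j.succAbove).det| := by
  rw [Matrix.det_succ_column B j, Finset.sum_eq_single r]
  · rw [abs_mul, abs_mul]
    have : |((-1 : ℚ)) ^ ((r : ℕ) + (j : ℕ))| = 1 := by
      rw [abs_pow]; simp
    rw [this, one_mul]
  · intro i _ hi
    rw [h i hi]; ring
  · intro hr; exact absurd (Finset.mem_univ r) hr

theorem abs_det_vert_le : ∀ (m : ℕ) (t : Fin m → Option (Fin m) × Option (Fin m)),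
    |(Matrix.of (fun i j => vert (t i) j) : Matrix (Fin m) (Fin m) ℚ).det| ≤ 2 ^ m := by
  intro m
  induction m with
  | zero => intro t; simp
  | succ m ih =>
    intro t
    set M : Matrix (Fin (m + 1)) (Fin (m + 1)) ℚ := Matrix.of (fun i j => vert (t i) j) with hM
    by_cases hex : ∃ r j, (t r).1 = some j ∧ (t r).2 ≠ some j
    · obtain ⟨r, j, h1, h2⟩ := hex
      have hMr : M r j = 2 := by
        have h2' : ¬ ((t r).2 = some j) := h2
        simp [hM, vert, ind, h1, h2']
      let c : Fin (m + 1) → ℚ := fun i => if i = r then 0 else M i j / 2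
      let B : Matrix (Fin (m + 1)) (Fin (m + 1)) ℚ := Matrix.of fun i l => M i l - c i * M r l
      have hcr : c r = 0 := by simp [c]
      have hdet : M.det = B.det := by
        refine Matrix.det_eq_of_forall_row_eq_smul_add_const c r hcr ?_
        intro i l
        simp [B, hcr]
      have hBcol : ∀ i, i ≠ r → B i j = 0 := by
        intro i hi
        simp [B, c, hi, hMr]
      have hBr : B r j = 2 := by simp [B, hcr, hMr]
      have hrows : ∀ i, InC ((B.submatrix r.succAbove j.succAbove) i) := by
        intro i
        obtain ⟨c', hc'⟩ := exists_res j (t r).2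
        obtain ⟨α', hα'⟩ := exists_res j (t (r.succAbove i)).1
        obtain ⟨β', hβ'⟩ := exists_res j (t (r.succAbove i)).2
        have hne : r.succAbove i ≠ r := Fin.succAbove_ne r i
        have hval : ∀ l, (B.submatrix r.succAbove j.succAbove) i l
            = 2 * ind α' l - ind β' l + (M (r.succAbove i) j / 2) * ind c' l := by
          intro l
          have e1 : (B.submatrix r.succAbove j.succAbove) i l
            = vert (t (r.succAbove i)) (j.succAbove l)
              - (M (r.succAbove i) j / 2) * vert (t r) (j.succAbove l) := by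
            simp [B, c, hne, hM]
          rw [e1]
          simp only [vert, hα', hβ', hc', h1]
          rw [ind_some_ne]
          ring
        have hx : M (r.succAbove i) j = 2 * ind (t (r.succAbove i)).1 j
            - ind (t (r.succAbove i)).2 j := rfl
        by_cases ha : (t (r.succAbove i)).1 = some j <;>
          by_cases hb : (t (r.succAbove i)).2 = some j
        · have hx' : M (r.succAbove i) j = 1 := by rw [hx]; simp [ind, ha, hb]; norm_num
          have ea : ∀ l, ind α' l = 0 := fun l => by rw [← hα' l, ha, ind_some_ne]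
          have eb : ∀ l, ind β' l = 0 := fun l => by rw [← hβ' l, hb, ind_some_ne]
          refine inC_of_two _ (c', none) (none, none) (1/4) (by norm_num) (by norm_num) ?_
          intro l
          rw [hval l, hx', ea, eb]
          simp only [vert, ind_none]
          ring
        · have hx' : M (r.succAbove i) j = 2 := by rw [hx]; simp [ind, ha, hb]
          have ea : ∀ l, ind α' l = 0 := fun l => by rw [← hα' l, ha, ind_some_ne]
          refine inC_of_two _ (c', β') (none, β') (1/2) (by norm_num) (by norm_num) ?_
          intro l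
          rw [hval l, hx', ea]
          simp only [vert, ind_none]
          ring
        · have hx' : M (r.succAbove i) j = -1 := by rw [hx]; simp [ind, ha, hb]
          have eb : ∀ l, ind β' l = 0 := fun l => by rw [← hβ' l, hb, ind_some_ne]
          refine inC_of_two _ (α', c') (α', none) (1/2) (by norm_num) (by norm_num) ?_
          intro l
          rw [hval l, hx', eb]
          simp only [vert, ind_none]
          ring
        · have hx' : M (r.succAbove i) j = 0 := by rw [hx]; simp [ind, ha, hb]
          have : (B.submatrix r.succAbove j.succAbove) i = vert (α', β') := by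
            ext l
            rw [hval l, hx']
            simp [vert]
          rw [this]
          exact inC_vert _
      rw [hdet, abs_det_single_col B r j hBcol, hBr]
      have := abs_det_le_of_inC_of_vert ih _ hrows
      rw [pow_succ, abs_two]
      linarith
    · push Not at hex
      have hle : |M.det| ≤ ∏ i : Fin (m + 1), ∑ j, |M i j| := abs_det_le_prod M
      have h1 : ∀ i, ∑ j, |M i j| ≤ 1 := by
        intro i
        rcases ha : (t i).1 with _ | j
        · have : ∀ l, |M i l| = |ind (t i).2 l| := by
            intro l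
            simp [hM, vert, ha, ind]
          simp only [this]
          exact sum_abs_ind _
        · have hb := hex i j ha
          have : ∀ l, |M i l| = |ind (t i).2 l| := by
            intro l
            simp only [hM, vert, ha, hb, Matrix.of_apply]
            congr 1
            ring
          simp only [this]
          exact sum_abs_ind _
      calc |M.det| ≤ ∏ i : Fin (m + 1), ∑ j, |M i j| := hle
        _ ≤ ∏ i : Fin (m + 1), (1 : ℚ) := Finset.prod_le_prod
            (fun i _ => Finset.sum_nonneg fun j _ => abs_nonneg _) (fun i _ => h1 i)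
        _ = 1 := by simp
        _ ≤ 2 ^ (m + 1) := one_le_pow₀ (by norm_num)

/-- The key bound: rows in the convex hull force `|det| ≤ 2 ^ m`. -/
theorem abs_det_le_two_pow {m : ℕ} (M : Matrix (Fin m) (Fin m) ℚ) (hM : ∀ i, InC (M i)) :
    |M.det| ≤ 2 ^ m :=
  abs_det_le_of_inC_of_vert (abs_det_vert_le m) M hM

end Pool.Agent.H42.PinvDet
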