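import Mathlib

/-!
Counting core of the non-soficity argument: fibre sizes of maps on a finite set.
-/

set_option autoImplicit false

namespace Pool.Agent.H42.Sof

open Finset Classical

noncomputable section

variable {X : Type} [Fintype X] {Y : Type}

/-- size of the fibre of `φ` through `x` -/
def nf (φ : X → Y) (x : X) : ℝ := ((univ.filter fun y => φ y = φ x).card : ℝ)

theorem nf_pos (φ : X → Y) (x : X) : 0 < nf φ x := by
  unfold nf
  have : x ∈ univ.filter fun y => φ y = φ x := by simp
  exact_mod_cast Finset.card_pos.mpr ⟨x, this⟩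

theorem nf_comp_perm (φ : X → Y) (π : Equiv.Perm X) (x : X) :
    nf (fun y => φ (π y)) x = nf φ (π x) := by
  unfold nf
  have : (univ.filter fun y => φ (π y) = φ (π x)).card
      = (univ.filter fun y => φ y = φ (π x)).card := by
    apply Finset.card_bij (fun a _ => π a)
    · intro a ha; simpa using ha
    · intro a _ b _ h; exact π.injective h
    · intro b hb
      refine ⟨π.symm b, ?_, by simp⟩
      simpa using hb
  exact_mod_cast this

theorem nf_le_comp {Z : Type} (S : Y → Z) (φ : X → Y) (x : X) :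
    nf φ x ≤ nf (fun y => S (φ y)) x := by
  unfold nf
  have : (univ.filter fun y => φ y = φ x) ⊆ (univ.filter fun y => S (φ y) = S (φ x)) := by
    intro y hy
    simp only [mem_filter, mem_univ, true_and] at hy ⊢
    rw [hy]
  exact_mod_cast Finset.card_le_card this

/-- two disjoint fibres inside one -/
theorem nf_add_le {Z : Type} (S : Y → Z) (φ : X → Y) (x x' : X)
    (h1 : φ x' ≠ φ x) (h2 : S (φ x') = S (φ x)) :
    nf φ x + nf φ x' ≤ nf (fun y => S (φ y)) x := by
  unfold nf
  have hd : Disjoint (univ.filter fun y => φ y = φ x) (univ.filter fun y => φ y = φ x') := by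
    rw [Finset.disjoint_left]
    intro y hy hy'
    simp only [mem_filter, mem_univ, true_and] at hy hy'
    exact h1 (hy'.symm.trans hy)
  have hs : (univ.filter fun y => φ y = φ x) ∪ (univ.filter fun y => φ y = φ x')
      ⊆ (univ.filter fun y => S (φ y) = S (φ x)) := by
    intro y hy
    simp only [mem_union, mem_filter, mem_univ, true_and] at hy ⊢
    rcases hy with hy | hy
    · rw [hy]
    · rw [hy, h2]
  have := Finset.card_le_card hs
  rw [Finset.card_union_of_disjoint hd] at this
  exact_mod_cast this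

/-- relative comparison of fibre sizes -/
def D {Y' : Type} (φ : X → Y) (ψ : X → Y') (x : X) : ℝ :=
  (nf φ x - nf ψ x) / (nf φ x + nf ψ x)

theorem D_antisymm {Y' : Type} (φ : X → Y) (ψ : X → Y') (x : X) : D ψ φ x = - D φ ψ x := by
  unfold D
  rw [← neg_div]
  congr 1
  · ring
  · ring

theorem D_self (φ : X → Y) (x : X) : D φ φ x = 0 := by
  unfold D; simp

theorem abs_D_le {Y' : Type} (φ : X → Y) (ψ : X → Y') (x : X) : |D φ ψ x| ≤ 1 := by
  unfold D
  have h1 := nf_pos φ x
  have h2 := nf_pos ψ x
  rw [abs_div, abs_of_pos (add_pos h1 h2), div_le_one (add_pos h1 h2), abs_le]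
  constructor <;> linarith

theorem D_comp_perm {Y' : Type} (φ : X → Y) (ψ : X → Y') (π : Equiv.Perm X) (x : X) :
    D (fun y => φ (π y)) (fun y => ψ (π y)) x = D φ ψ (π x) := by
  unfold D
  rw [nf_comp_perm, nf_comp_perm]

theorem D_mono_comp {Z Y' : Type} (S : Y → Z) (φ : X → Y) (ψ : X → Y') (x : X) :
    D φ ψ x ≤ D (fun y => S (φ y)) ψ x := by
  unfold D
  have h1 := nf_pos φ x
  have h2 := nf_pos ψ x
  have h3 := nf_le_comp S φ x
  rw [div_le_div_iff₀ (by linarith) (by linarith)]
  nlinarith

/-- Perturbation: changing `φ` at `k` points changes `D φ ψ` by at most `6k` in `ℓ¹`. -/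
theorem D_perturb {Y' : Type} (φ φ' : X → Y) (ψ : X → Y') (k : ℝ)
    (hk : ((univ.filter fun x => φ x ≠ φ' x).card : ℝ) ≤ k) :
    ∑ x, |D φ ψ x - D φ' ψ x| ≤ 6 * k := by
  set B := univ.filter fun x => φ x ≠ φ' x with hB
  set G := univ.filter fun x => φ x = φ' x with hG
  have hsplit : ∑ x, |D φ ψ x - D φ' ψ x|
      = ∑ x ∈ G, |D φ ψ x - D φ' ψ x| + ∑ x ∈ B, |D φ ψ x - D φ' ψ x| := by
    rw [hG, hB]
    rw [Finset.sum_filter_add_sum_filter_not]
  have hBsum : ∑ x ∈ B, |D φ ψ x - D φ' ψ x| ≤ 2 * k := by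
    have : ∑ x ∈ B, |D φ ψ x - D φ' ψ x| ≤ ∑ x ∈ B, (2 : ℝ) := by
      apply Finset.sum_le_sum
      intro x _
      have h1 := abs_le.mp (abs_D_le φ ψ x)
      have h2 := abs_le.mp (abs_D_le φ' ψ x)
      rw [abs_le]; constructor <;> linarith
    refine this.trans ?_
    rw [Finset.sum_const, nsmul_eq_mul]
    nlinarith
  -- the good part
  have hpt : ∀ x, |D φ ψ x - D φ' ψ x| ≤ 2 * (|nf φ x - nf φ' x| / nf φ x) := by
    intro x
    have h1 := nf_pos φ x
    have h2 := nf_pos ψ x
    have h3 := nf_pos φ' x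
    unfold D
    have e : (nf φ x - nf ψ x) / (nf φ x + nf ψ x) - (nf φ' x - nf ψ x) / (nf φ' x + nf ψ x)
        = 2 * ((nf φ x - nf φ' x) / (nf φ x + nf ψ x) * (nf ψ x / (nf φ' x + nf ψ x))) := by
      field_simp
      ring
    rw [e, abs_mul, abs_mul, abs_div, abs_div, abs_of_pos (add_pos h1 h2),
      abs_of_pos (add_pos h3 h2), abs_of_pos h2, abs_two]
    have a1 : nf ψ x / (nf φ' x + nf ψ x) ≤ 1 := by
      rw [div_le_one (by linarith)]; linarith
    have a2 : |nf φ x - nf φ' x| / (nf φ x + nf ψ x) ≤ |nf φ x - nf φ' x| / nf φ x := by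
      apply div_le_div_of_nonneg_left (abs_nonneg _) h1; linarith
    have a3 : 0 ≤ |nf φ x - nf φ' x| / (nf φ x + nf ψ x) := by positivity
    have a4 : 0 ≤ nf ψ x / (nf φ' x + nf ψ x) := by positivity
    nlinarith
  -- sum over fibres
  set I : Finset Y := univ.image φ ∪ univ.image φ' with hI
  let ν : (X → Y) → Y → ℝ := fun f z => ((univ.filter fun y => f y = z).card : ℝ)
  have hν : ∀ (f : X → Y) (x : X), nf f x = ν f (f x) := fun f x => rfl
  have hGsum : ∑ x ∈ G, |nf φ x - nf φ' x| / nf φ x ≤ ∑ z ∈ I, |ν φ z - ν φ' z| := by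
    have hmaps : ∀ x ∈ G, φ x ∈ I := by
      intro x _; rw [hI]; exact mem_union_left _ (mem_image_of_mem _ (mem_univ _))
    rw [← Finset.sum_fiberwise_of_maps_to hmaps]
    apply Finset.sum_le_sum
    intro z _
    have h1 : ∀ x ∈ G.filter fun x => φ x = z,
        |nf φ x - nf φ' x| / nf φ x = |ν φ z - ν φ' z| / ν φ z := by
      intro x hx
      simp only [hG, mem_filter, mem_univ, true_and] at hx
      obtain ⟨hx1, hx2⟩ := hx
      rw [hν φ x, hν φ' x, ← hx1, hx2]
    rw [Finset.sum_congr rfl h1, Finset.sum_const, nsmul_eq_mul]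
    have hcard : ((G.filter fun x => φ x = z).card : ℝ) ≤ ν φ z := by
      have : G.filter (fun x => φ x = z) ⊆ univ.filter fun y => φ y = z := by
        intro x hx
        simp only [mem_filter, mem_univ, true_and] at hx ⊢
        exact hx.2
      have h2 := Finset.card_le_card this
      show ((G.filter fun x => φ x = z).card : ℝ) ≤ ((univ.filter fun y => φ y = z).card : ℝ)
      exact_mod_cast h2
    by_cases h0 : ν φ z = 0
    · rw [h0] at hcard ⊢
      simp
    · have hp : 0 < ν φ z := lt_of_le_of_ne (by positivity) (Ne.symm h0)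
      calc ((G.filter fun x => φ x = z).card : ℝ) * (|ν φ z - ν φ' z| / ν φ z)
          ≤ ν φ z * (|ν φ z - ν φ' z| / ν φ z) := by
            apply mul_le_mul_of_nonneg_right hcard; positivity
        _ = |ν φ z - ν φ' z| := by field_simp
  have hdiff : ∀ z, |ν φ z - ν φ' z| ≤
      ((B.filter fun x => φ x = z).card : ℝ) + ((B.filter fun x => φ' x = z).card : ℝ) := by
    intro z
    have key : ∀ f g : X → Y, (univ.filter fun x => f x ≠ g x) = B →
        ν f z ≤ ν g z + ((B.filter fun x => f x = z).card : ℝ) := by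
      intro f g hfg
      have : (univ.filter fun y => f y = z) ⊆
          (univ.filter fun y => g y = z) ∪ (B.filter fun x => f x = z) := by
        intro y hy
        simp only [mem_filter, mem_univ, true_and] at hy
        by_cases hfy : f y = g y
        · apply mem_union_left
          simp only [mem_filter, mem_univ, true_and]
          rw [← hfy, hy]
        · apply mem_union_right
          rw [← hfg]
          simp only [mem_filter, mem_univ, true_and]
          exact ⟨hfy, hy⟩
      have h2 := (Finset.card_le_card this).trans (Finset.card_union_le _ _)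
      show ((univ.filter fun y => f y = z).card : ℝ) ≤ ((univ.filter fun y => g y = z).card : ℝ)
        + ((B.filter fun x => f x = z).card : ℝ)
      exact_mod_cast h2
    have k1 := key φ φ' rfl
    have k2 := key φ' φ (by
      rw [hB]; apply Finset.filter_congr; intro x _; exact ne_comm)
    have p1 : (0:ℝ) ≤ ((B.filter fun x => φ x = z).card : ℝ) := by positivity
    have p2 : (0:ℝ) ≤ ((B.filter fun x => φ' x = z).card : ℝ) := by positivity
    rw [abs_le]; constructor <;> linarith
  have hIsum : ∑ z ∈ I, |ν φ z - ν φ' z| ≤ 2 * k := by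
    calc ∑ z ∈ I, |ν φ z - ν φ' z|
        ≤ ∑ z ∈ I, (((B.filter fun x => φ x = z).card : ℝ)
            + ((B.filter fun x => φ' x = z).card : ℝ)) := Finset.sum_le_sum fun z _ => hdiff z
      _ = ∑ z ∈ I, ((B.filter fun x => φ x = z).card : ℝ)
            + ∑ z ∈ I, ((B.filter fun x => φ' x = z).card : ℝ) := Finset.sum_add_distrib
      _ = (B.card : ℝ) + (B.card : ℝ) := by
          have e1 := Finset.card_eq_sum_card_fiberwise (f := φ) (s := B) (t := I)
            (fun x _ => by
              rw [hI]; exact mem_union_left _ (mem_image_of_mem _ (mem_univ _)))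
          have e2 := Finset.card_eq_sum_card_fiberwise (f := φ') (s := B) (t := I)
            (fun x _ => by
              rw [hI]; exact mem_union_right _ (mem_image_of_mem _ (mem_univ _)))
          congr 1
          · rw [e1]; push_cast; rfl
          · rw [e2]; push_cast; rfl
      _ ≤ 2 * k := by linarith
  have hGfin : ∑ x ∈ G, |D φ ψ x - D φ' ψ x| ≤ 4 * k := by
    calc ∑ x ∈ G, |D φ ψ x - D φ' ψ x| ≤ ∑ x ∈ G, 2 * (|nf φ x - nf φ' x| / nf φ x) :=
          Finset.sum_le_sum fun x _ => hpt x
      _ = 2 * ∑ x ∈ G, |nf φ x - nf φ' x| / nf φ x := by rw [Finset.mul_sum]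
      _ ≤ 4 * k := by linarith
  rw [hsplit]; linarith

end

end Pool.Agent.H42.Sof
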