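import Mathlib
import Pool.Agent.H42.SofCount

/-!
The core contradiction: no finite set carries maps `φ0, φ1, φ2, φq` with the listed approximate
relations.
-/

set_option autoImplicit false

namespace Pool.Agent.H42.Sof

open Finset Classical

noncomputable section

variable {X : Type} [Fintype X]

/-- number of disagreements -/
def df {Y : Type} (φ φ' : X → Y) : ℝ := ((univ.filter fun x => φ x ≠ φ' x).card : ℝ)

/-- indicator -/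
def ib (p : Prop) : ℝ := if p then 1 else 0

theorem ib_nonneg (p : Prop) : 0 ≤ ib p := by
  unfold ib; split_ifs <;> norm_num

theorem not_of_ib (p : Prop) (h : ib p < 1) : ¬ p := by
  intro hp; unfold ib at h; rw [if_pos hp] at h; exact lt_irrefl _ h

theorem sum_ib (p : X → Prop) : ∑ x, ib (p x) = ((univ.filter fun x => p x).card : ℝ) := by
  unfold ib
  rw [Finset.sum_boole]

theorem df_eq_sum {Y : Type} (φ φ' : X → Y) :
    df φ φ' = ∑ x, ib (φ x ≠ φ' x) := by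
  rw [sum_ib]; unfold df; congr!

/-- `ℓ¹` distance -/
def l1 (F G : X → ℝ) : ℝ := ∑ x, |F x - G x|

theorem l1_triangle (F G H : X → ℝ) : l1 F H ≤ l1 F G + l1 G H := by
  unfold l1
  rw [← Finset.sum_add_distrib]
  exact Finset.sum_le_sum fun x _ => abs_sub_le _ _ _

theorem l1_comm (F G : X → ℝ) : l1 F G = l1 G F := by
  unfold l1
  exact Finset.sum_congr rfl fun x _ => abs_sub_comm _ _

theorem l1_perm (F G : X → ℝ) (π : Equiv.Perm X) :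
    l1 (fun x => F (π x)) (fun x => G (π x)) = l1 F G := by
  unfold l1
  exact Equiv.sum_comp π (fun x => |F x - G x|)

theorem l1_neg (F G : X → ℝ) : l1 (fun x => - F x) (fun x => - G x) = l1 F G := by
  unfold l1
  apply Finset.sum_congr rfl
  intro x _
  rw [← abs_neg]; congr 1; ring

theorem sum_sub_le_l1 (F G : X → ℝ) : |∑ x, F x - ∑ x, G x| ≤ l1 F G := by
  unfold l1
  rw [← Finset.sum_sub_distrib]
  exact Finset.abs_sum_le_sum_abs _ _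

theorem l1_eq_of_le (F G : X → ℝ) (h : ∀ x, G x ≤ F x) : l1 F G = ∑ x, F x - ∑ x, G x := by
  unfold l1
  rw [← Finset.sum_sub_distrib]
  apply Finset.sum_congr rfl
  intro x _
  rw [abs_of_nonneg]; linarith [h x]

theorem l1_D_left {Y Y' : Type} (φ φ' : X → Y) (ψ : X → Y') (k : ℝ) (h : df φ φ' ≤ k) :
    l1 (D φ ψ) (D φ' ψ) ≤ 6 * k := D_perturb φ φ' ψ k h

theorem l1_D_right {Y Y' : Type} (φ φ' : X → Y) (ψ : X → Y') (k : ℝ) (h : df φ φ' ≤ k) :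
    l1 (D ψ φ) (D ψ φ') ≤ 6 * k := by
  have := D_perturb φ φ' ψ k h
  have e : l1 (D ψ φ) (D ψ φ') = l1 (D φ ψ) (D φ' ψ) := by
    rw [← l1_neg]
    unfold l1
    apply Finset.sum_congr rfl
    intro x _
    rw [D_antisymm ψ φ x, D_antisymm ψ φ' x]
  rw [e]; exact this

theorem l1_D_both {Y Y' : Type} (φ φ' : X → Y) (ψ ψ' : X → Y') (k : ℝ)
    (h : df φ φ' ≤ k) (h' : df ψ ψ' ≤ k) :
    l1 (D φ ψ) (D φ' ψ') ≤ 12 * k := by
  have h1 := l1_D_left φ φ' ψ k h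
  have h2 := l1_D_right ψ ψ' φ' k h'
  have h3 := l1_triangle (D φ ψ) (D φ' ψ) (D φ' ψ')
  linarith

theorem D_perm_fun {Y Y' : Type} (φ : X → Y) (ψ : X → Y') (π : Equiv.Perm X) :
    D (fun y => φ (π y)) (fun y => ψ (π y)) = fun x => D φ ψ (π x) := by
  funext x; exact D_comp_perm φ ψ π x

theorem core {Y : Type} (φ0 φ1 φ2 φq : X → Y) (S1 S3 : Y → Y) (πh πg πs : Equiv.Perm X) (k : ℝ)
    (a1 : df φ0 (fun x => S1 (φq x)) ≤ k)
    (a2 : df φ2 (fun x => S3 (φq x)) ≤ k)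
    (h0 : df φ2 (fun x => φ0 (πh x)) ≤ k)
    (h1 : df φ1 (fun x => φ1 (πh x)) ≤ k)
    (g0 : df φq (fun x => φ0 (πg x)) ≤ k)
    (g1 : df φ1 (fun x => φ1 (πg x)) ≤ k)
    (s0 : df φ1 (fun x => φ0 (πs x)) ≤ k)
    (s1 : df φ2 (fun x => φ1 (πs x)) ≤ k)
    (s2 : df φ0 (fun x => φ2 (πs x)) ≤ k)
    (sep : ((univ.filter fun x => φ1 x = φ2 x).card : ℝ) ≤ k) :
    (Fintype.card X : ℝ) ≤ 12000 * k := by
  have hk : 0 ≤ k := by
    refine le_trans ?_ a1; unfold df; positivity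
  -- Step 1, 2
  have j1 : |∑ x, D φq φ1 x - ∑ x, D φ0 φ1 x| ≤ 12 * k := by
    have e1 := l1_D_both φq (fun x => φ0 (πg x)) φ1 (fun x => φ1 (πg x)) k g0 g1
    have e2 := sum_sub_le_l1 (D φq φ1) (D (fun x => φ0 (πg x)) (fun x => φ1 (πg x)))
    have e3 : ∑ x, D (fun x => φ0 (πg x)) (fun x => φ1 (πg x)) x = ∑ x, D φ0 φ1 x := by
      rw [D_perm_fun]; exact Equiv.sum_comp πg (fun x => D φ0 φ1 x)
    rw [e3] at e2
    linarith
  have j2 : |∑ x, D φ2 φ1 x - ∑ x, D φ0 φ1 x| ≤ 12 * k := by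
    have e1 := l1_D_both φ2 (fun x => φ0 (πh x)) φ1 (fun x => φ1 (πh x)) k h0 h1
    have e2 := sum_sub_le_l1 (D φ2 φ1) (D (fun x => φ0 (πh x)) (fun x => φ1 (πh x)))
    have e3 : ∑ x, D (fun x => φ0 (πh x)) (fun x => φ1 (πh x)) x = ∑ x, D φ0 φ1 x := by
      rw [D_perm_fun]; exact Equiv.sum_comp πh (fun x => D φ0 φ1 x)
    rw [e3] at e2
    linarith
  have j1' := abs_le.mp j1
  have j2' := abs_le.mp j2
  -- Step 3
  have d3 : l1 (D φ0 φ1) (D φq φ1) ≤ 24 * k := by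
    have e1 := l1_D_left φ0 (fun x => S1 (φq x)) φ1 k a1
    have e2 := l1_eq_of_le (D (fun x => S1 (φq x)) φ1) (D φq φ1)
      (fun x => D_mono_comp S1 φq φ1 x)
    have e3 := abs_le.mp (sum_sub_le_l1 (D φ0 φ1) (D (fun x => S1 (φq x)) φ1))
    have e4 := l1_triangle (D φ0 φ1) (D (fun x => S1 (φq x)) φ1) (D φq φ1)
    linarith [e3.1, e3.2, j1'.1, j1'.2]
  -- Step 4
  have d4 : l1 (D φ2 φ1) (D φq φ1) ≤ 36 * k := by
    have e1 := l1_D_left φ2 (fun x => S3 (φq x)) φ1 k a2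
    have e2 := l1_eq_of_le (D (fun x => S3 (φq x)) φ1) (D φq φ1)
      (fun x => D_mono_comp S3 φq φ1 x)
    have e3 := abs_le.mp (sum_sub_le_l1 (D φ2 φ1) (D (fun x => S3 (φq x)) φ1))
    have e4 := l1_triangle (D φ2 φ1) (D (fun x => S3 (φq x)) φ1) (D φq φ1)
    linarith [e3.1, e3.2, j1'.1, j1'.2, j2'.1, j2'.2]
  have c0 : l1 (D φ0 φ1) (D φ2 φ1) ≤ 60 * k := by
    have e1 := l1_triangle (D φ0 φ1) (D φq φ1) (D φ2 φ1)
    rw [l1_comm (D φq φ1) (D φ2 φ1)] at e1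
    linarith
  -- Step 5
  have c1 : l1 (D φ1 φ2) (D φ0 φ2) ≤ 84 * k := by
    have e1 := l1_D_both φ1 (fun x => φ0 (πs x)) φ2 (fun x => φ1 (πs x)) k s0 s1
    have e2 := l1_D_both φ0 (fun x => φ2 (πs x)) φ2 (fun x => φ1 (πs x)) k s2 s1
    rw [D_perm_fun] at e1 e2
    have e3 := l1_perm (D φ0 φ1) (D φ2 φ1) πs
    have e4 := l1_triangle (D φ1 φ2) (fun x => D φ0 φ1 (πs x)) (D φ0 φ2)
    have e5 := l1_triangle (fun x => D φ0 φ1 (πs x)) (fun x => D φ2 φ1 (πs x)) (D φ0 φ2)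
    rw [l1_comm (D φ0 φ2) _] at e2
    linarith
  -- Step 6
  have c2 : l1 (D φ2 φ0) (D φ1 φ0) ≤ 108 * k := by
    have e1 := l1_D_both φ2 (fun x => φ1 (πs x)) φ0 (fun x => φ2 (πs x)) k s1 s2
    have e2 := l1_D_both φ1 (fun x => φ0 (πs x)) φ0 (fun x => φ2 (πs x)) k s0 s2
    rw [D_perm_fun] at e1 e2
    have e3 := l1_perm (D φ1 φ2) (D φ0 φ2) πs
    have e4 := l1_triangle (D φ2 φ0) (fun x => D φ1 φ2 (πs x)) (D φ1 φ0)
    have e5 := l1_triangle (fun x => D φ1 φ2 (πs x)) (fun x => D φ0 φ2 (πs x)) (D φ1 φ0)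
    rw [l1_comm (D φ1 φ0) _] at e2
    linarith
  -- combine
  have z01 : ∑ x, |D φ0 φ1 x| ≤ 126 * k := by
    have e : ∑ x, 2 * |D φ0 φ1 x| ≤
        l1 (D φ0 φ1) (D φ2 φ1) + l1 (D φ1 φ2) (D φ0 φ2) + l1 (D φ2 φ0) (D φ1 φ0) := by
      unfold l1
      rw [← Finset.sum_add_distrib, ← Finset.sum_add_distrib]
      apply Finset.sum_le_sum
      intro x _
      have q1 := D_antisymm φ2 φ1 x
      have q2 := D_antisymm φ2 φ0 x
      have q3 := D_antisymm φ0 φ1 x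
      rw [q1, q2, q3]
      rcases abs_cases (D φ0 φ1 x) with ⟨h, _⟩ | ⟨h, _⟩ <;>
      rcases abs_cases (D φ0 φ1 x - D φ2 φ1 x) with ⟨h', _⟩ | ⟨h', _⟩ <;>
      rcases abs_cases (-D φ2 φ1 x - -D φ2 φ0 x) with ⟨h'', _⟩ | ⟨h'', _⟩ <;>
      rcases abs_cases (D φ2 φ0 x - -D φ0 φ1 x) with ⟨h''', _⟩ | ⟨h''', _⟩ <;>
      linarith
    rw [← Finset.mul_sum] at e
    linarith
  have zq1 : ∑ x, |D φq φ1 x| ≤ 150 * k := by
    have e : ∑ x, |D φq φ1 x| ≤ ∑ x, |D φ0 φ1 x| + l1 (D φ0 φ1) (D φq φ1) := by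
      unfold l1
      rw [← Finset.sum_add_distrib]
      apply Finset.sum_le_sum
      intro x _
      have := abs_sub_abs_le_abs_sub (D φq φ1 x) (D φ0 φ1 x)
      rw [abs_sub_comm] at this
      linarith
    linarith
  -- Step 7
  set πu : Equiv.Perm X := πs * πh * πs⁻¹ with hπu
  have hu : ∀ x, πu x = πs (πh (πs⁻¹ x)) := fun x => rfl
  have ps : ∀ x, πs (πs⁻¹ x) = x := fun x => by simp
  by_contra hcon
  push Not at hcon
  -- badness function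
  let b : X → ℝ := fun x =>
      ib (φ0 x ≠ S1 (φq x))
    + ib (φ0 (πu x) ≠ S1 (φq (πu x)))
    + ib (φ1 (πh (πs⁻¹ x)) ≠ φ0 (πs (πh (πs⁻¹ x))))
    + ib (φ1 (πs⁻¹ x) ≠ φ1 (πh (πs⁻¹ x)))
    + ib (φ1 (πs⁻¹ x) ≠ φ0 (πs (πs⁻¹ x)))
    + ib (φ2 (πu x) ≠ S3 (φq (πu x)))
    + ib (φ0 (πh (πs⁻¹ x)) ≠ φ2 (πs (πh (πs⁻¹ x))))
    + ib (φ2 (πs⁻¹ x) ≠ φ0 (πh (πs⁻¹ x)))
    + ib (φ2 (πs⁻¹ x) ≠ φ1 (πs (πs⁻¹ x)))
    + ib (φ2 x ≠ S3 (φq x))
    + ib (φ1 x = φ2 x)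
    + 20 * |D φ0 φ1 x| + 20 * |D φq φ1 x| + 20 * |D φq φ1 (πu x)| + 20 * |D φ0 φ1 (πu x)|
    + 20 * |D φ0 (fun x => S1 (φq x)) x|
  have hsum : ∑ x, b x ≤ 12000 * k := by
    have E1 : ∑ x, ib (φ0 x ≠ S1 (φq x)) ≤ k := by
      rw [← df_eq_sum φ0 (fun x => S1 (φq x))]; exact a1
    have E2 : ∑ x, ib (φ0 (πu x) ≠ S1 (φq (πu x))) ≤ k := by
      rw [Equiv.sum_comp πu (fun x => ib (φ0 x ≠ S1 (φq x)))]; exact E1
    have E3 : ∑ x, ib (φ1 (πh (πs⁻¹ x)) ≠ φ0 (πs (πh (πs⁻¹ x)))) ≤ k := by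
      have := Equiv.sum_comp (πh * πs⁻¹) (fun x => ib (φ1 x ≠ φ0 (πs x)))
      rw [← df_eq_sum φ1 (fun x => φ0 (πs x))] at this
      refine le_trans (le_of_eq ?_) s0
      rw [← this]; rfl
    have E4 : ∑ x, ib (φ1 (πs⁻¹ x) ≠ φ1 (πh (πs⁻¹ x))) ≤ k := by
      have := Equiv.sum_comp (πs⁻¹) (fun x => ib (φ1 x ≠ φ1 (πh x)))
      rw [← df_eq_sum φ1 (fun x => φ1 (πh x))] at this
      refine le_trans (le_of_eq ?_) h1
      rw [← this]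
    have E5 : ∑ x, ib (φ1 (πs⁻¹ x) ≠ φ0 (πs (πs⁻¹ x))) ≤ k := by
      have := Equiv.sum_comp (πs⁻¹) (fun x => ib (φ1 x ≠ φ0 (πs x)))
      rw [← df_eq_sum φ1 (fun x => φ0 (πs x))] at this
      refine le_trans (le_of_eq ?_) s0
      rw [← this]
    have E10 : ∑ x, ib (φ2 x ≠ S3 (φq x)) ≤ k := by
      rw [← df_eq_sum φ2 (fun x => S3 (φq x))]; exact a2
    have E6 : ∑ x, ib (φ2 (πu x) ≠ S3 (φq (πu x))) ≤ k := by
      rw [Equiv.sum_comp πu (fun x => ib (φ2 x ≠ S3 (φq x)))]; exact E10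
    have E7 : ∑ x, ib (φ0 (πh (πs⁻¹ x)) ≠ φ2 (πs (πh (πs⁻¹ x)))) ≤ k := by
      have := Equiv.sum_comp (πh * πs⁻¹) (fun x => ib (φ0 x ≠ φ2 (πs x)))
      rw [← df_eq_sum φ0 (fun x => φ2 (πs x))] at this
      refine le_trans (le_of_eq ?_) s2
      rw [← this]; rfl
    have E8 : ∑ x, ib (φ2 (πs⁻¹ x) ≠ φ0 (πh (πs⁻¹ x))) ≤ k := by
      have := Equiv.sum_comp (πs⁻¹) (fun x => ib (φ2 x ≠ φ0 (πh x)))
      rw [← df_eq_sum φ2 (fun x => φ0 (πh x))] at this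
      refine le_trans (le_of_eq ?_) h0
      rw [← this]
    have E9 : ∑ x, ib (φ2 (πs⁻¹ x) ≠ φ1 (πs (πs⁻¹ x))) ≤ k := by
      have := Equiv.sum_comp (πs⁻¹) (fun x => ib (φ2 x ≠ φ1 (πs x)))
      rw [← df_eq_sum φ2 (fun x => φ1 (πs x))] at this
      refine le_trans (le_of_eq ?_) s1
      rw [← this]
    have E11 : ∑ x, ib (φ1 x = φ2 x) ≤ k := by
      rw [sum_ib]; exact sep
    have E12 : ∑ x, 20 * |D φ0 φ1 x| ≤ 20 * (126 * k) := by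
      rw [← Finset.mul_sum]; linarith
    have E13 : ∑ x, 20 * |D φq φ1 x| ≤ 20 * (150 * k) := by
      rw [← Finset.mul_sum]; linarith
    have E14 : ∑ x, 20 * |D φq φ1 (πu x)| ≤ 20 * (150 * k) := by
      rw [Equiv.sum_comp πu (fun x => 20 * |D φq φ1 x|)]; exact E13
    have E15 : ∑ x, 20 * |D φ0 φ1 (πu x)| ≤ 20 * (126 * k) := by
      rw [Equiv.sum_comp πu (fun x => 20 * |D φ0 φ1 x|)]; exact E12
    have E16 : ∑ x, 20 * |D φ0 (fun x => S1 (φq x)) x| ≤ 20 * (6 * k) := by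
      rw [← Finset.mul_sum]
      have := l1_D_left φ0 (fun x => S1 (φq x)) (fun x => S1 (φq x)) k a1
      unfold l1 at this
      simp only [D_self, sub_zero] at this
      linarith
    simp only [b, Finset.sum_add_distrib]
    linarith
  have hex : ∃ x, b x < 1 := by
    by_contra hne
    push Not at hne
    have : (Fintype.card X : ℝ) ≤ ∑ x, b x := by
      have h3 : ∑ _x : X, (1:ℝ) ≤ ∑ x, b x := Finset.sum_le_sum fun x _ => hne x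
      simpa using h3
    linarith
  obtain ⟨x, hx⟩ := hex
  have A1 := ib_nonneg (φ0 x ≠ S1 (φq x))
  have A2 := ib_nonneg (φ0 (πu x) ≠ S1 (φq (πu x)))
  have A3 := ib_nonneg (φ1 (πh (πs⁻¹ x)) ≠ φ0 (πs (πh (πs⁻¹ x))))
  have A4 := ib_nonneg (φ1 (πs⁻¹ x) ≠ φ1 (πh (πs⁻¹ x)))
  have A5 := ib_nonneg (φ1 (πs⁻¹ x) ≠ φ0 (πs (πs⁻¹ x)))
  have A6 := ib_nonneg (φ2 (πu x) ≠ S3 (φq (πu x)))
  have A7 := ib_nonneg (φ0 (πh (πs⁻¹ x)) ≠ φ2 (πs (πh (πs⁻¹ x))))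
  have A8 := ib_nonneg (φ2 (πs⁻¹ x) ≠ φ0 (πh (πs⁻¹ x)))
  have A9 := ib_nonneg (φ2 (πs⁻¹ x) ≠ φ1 (πs (πs⁻¹ x)))
  have A10 := ib_nonneg (φ2 x ≠ S3 (φq x))
  have A11 := ib_nonneg (φ1 x = φ2 x)
  have B1 := abs_nonneg (D φ0 φ1 x)
  have B2 := abs_nonneg (D φq φ1 x)
  have B3 := abs_nonneg (D φq φ1 (πu x))
  have B4 := abs_nonneg (D φ0 φ1 (πu x))
  have B5 := abs_nonneg (D φ0 (fun x => S1 (φq x)) x)
  simp only [b] at hx
  have C1 := not_not.mp (not_of_ib (φ0 x ≠ S1 (φq x)) (by linarith))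
  have C2 := not_not.mp (not_of_ib (φ0 (πu x) ≠ S1 (φq (πu x))) (by linarith))
  have C3 := not_not.mp (not_of_ib (φ1 (πh (πs⁻¹ x)) ≠ φ0 (πs (πh (πs⁻¹ x)))) (by linarith))
  have C4 := not_not.mp (not_of_ib (φ1 (πs⁻¹ x) ≠ φ1 (πh (πs⁻¹ x))) (by linarith))
  have C5 := not_not.mp (not_of_ib (φ1 (πs⁻¹ x) ≠ φ0 (πs (πs⁻¹ x))) (by linarith))
  have C6 := not_not.mp (not_of_ib (φ2 (πu x) ≠ S3 (φq (πu x))) (by linarith))
  have C7 := not_not.mp (not_of_ib (φ0 (πh (πs⁻¹ x)) ≠ φ2 (πs (πh (πs⁻¹ x)))) (by linarith))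
  have C8 := not_not.mp (not_of_ib (φ2 (πs⁻¹ x) ≠ φ0 (πh (πs⁻¹ x))) (by linarith))
  have C9 := not_not.mp (not_of_ib (φ2 (πs⁻¹ x) ≠ φ1 (πs (πs⁻¹ x))) (by linarith))
  have C10 := not_not.mp (not_of_ib (φ2 x ≠ S3 (φq x)) (by linarith))
  have C11 := not_of_ib (φ1 x = φ2 x) (by linarith)
  have F1 : |D φ0 φ1 x| < 1/20 := by linarith
  have F2 : |D φq φ1 x| < 1/20 := by linarith
  have F3 : |D φq φ1 (πu x)| < 1/20 := by linarith
  have F4 : |D φ0 φ1 (πu x)| < 1/20 := by linarith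
  have F5 : |D φ0 (fun x => S1 (φq x)) x| < 1/20 := by linarith
  -- `φ0 (πu x) = φ0 x`
  have U1 : φ0 (πu x) = φ0 x := by
    rw [hu, ← C3, ← C4, C5, ps]
  -- same `S1 φq`
  have U2 : S1 (φq (πu x)) = S1 (φq x) := by rw [← C2, ← C1, U1]
  -- different `φq`
  have U3 : φq (πu x) ≠ φq x := by
    intro h
    have e1 : S3 (φq (πu x)) = S3 (φq x) := by rw [h]
    rw [← C6, ← C10, hu, ← C7, ← C8, C9, ps] at e1
    exact C11 e1
  have key := nf_add_le S1 φq x (πu x) U3 U2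
  have U4 : nf φ0 (πu x) = nf φ0 x := by
    unfold nf; rw [U1]
  -- numeric contradiction
  have P0 := nf_pos φ0 x
  have P1 := nf_pos φ1 x
  have Pq := nf_pos φq x
  have P1' := nf_pos φ1 (πu x)
  have Pq' := nf_pos φq (πu x)
  have PS := nf_pos (fun x => S1 (φq x)) x
  have P0' := nf_pos φ0 (πu x)
  unfold D at F1 F2 F3 F4 F5
  rw [abs_lt] at F1 F2 F3 F4 F5
  rw [lt_div_iff₀ (by linarith), div_lt_iff₀ (by linarith)] at F1 F2 F3 F4 F5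
  rw [U4] at F4
  obtain ⟨f1, f1'⟩ := F1
  obtain ⟨f2, f2'⟩ := F2
  obtain ⟨f3, f3'⟩ := F3
  obtain ⟨f4, f4'⟩ := F4
  obtain ⟨f5, f5'⟩ := F5
  linarith

end

end Pool.Agent.H42.Sof
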