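import Mathlib

/-!
Sofic monoids and the `𝓙`-class of the identity: definitions.
-/

set_option autoImplicit false

namespace Pool.Agent.H42.Sof

/-- The map `act : M → X → X`, `(m, x) ↦ act m x`, is a `(K, ε)`-action of the monoid `M` on the
(finite) set `X`: the identity acts as the identity, for `s, t ∈ K` at least a `(1 - ε)`-fraction
of `x ∈ X` satisfy `s · (t · x) = (s t) · x`, and for `s ≠ t` in `K` at least a
`(1 - ε)`-fraction of `x ∈ X` satisfy `s · x ≠ t · x`. -/
structure IsApproxAction {M : Type} [Monoid M] (K : Finset M) (ε : ℝ) {X : Type}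
    (act : M → X → X) : Prop where
  one_act : ∀ x, act 1 x = x
  mul_act : ∀ s ∈ K, ∀ t ∈ K,
    (1 - ε) * (Nat.card X : ℝ) ≤ (Nat.card {x : X // act s (act t x) = act (s * t) x} : ℝ)
  sep_act : ∀ s ∈ K, ∀ t ∈ K, s ≠ t →
    (1 - ε) * (Nat.card X : ℝ) ≤ (Nat.card {x : X // act s x ≠ act t x} : ℝ)

/-- `M` is sofic: it has a `(K, ε)`-action on some finite nonempty set for every finite `K` and
every `ε > 0`. -/
def IsSofic (M : Type) [Monoid M] : Prop :=
  ∀ (K : Finset M) (ε : ℝ), 0 < ε →
    ∃ (X : Type) (_ : Finite X) (_ : Nonempty X) (act : M → X → X), IsApproxAction K ε act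

/-- Green's relation `𝓙`: `M a M = M b M`. -/
def GreenJ {M : Type} [Monoid M] (a b : M) : Prop :=
  {x : M | ∃ u v, x = u * a * v} = {x : M | ∃ u v, x = u * b * v}

/-- The `𝓙`-class of the identity is a group, i.e. it equals the group of units. -/
def JClassOneIsGroup (M : Type) [Monoid M] : Prop := ∀ a : M, GreenJ a 1 ↔ IsUnit a

end Pool.Agent.H42.Sof
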