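import Mathlib
import Pool.Agent.H42.SofDefs

/-!
A monoid `M = F ∪ O` with `F` a free group and `m o = o` for all `m` and all `o ∉ F` is sofic.
-/

set_option autoImplicit false

namespace Pool.Agent.H42.Sof

open MulOpposite Classical

noncomputable section

/-- the partial permutation of `W` given by right multiplication by `b` -/
def partialEquiv {M : Type} [Monoid M] (W : Finset M) (b : Mˣ) :
    {w : {m // m ∈ W} // (w : M) * b ∈ W} ≃ {w : {m // m ∈ W} // (w : M) * (b⁻¹ : Mˣ) ∈ W} where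
  toFun w := ⟨⟨(w.1 : M) * b, w.2⟩, by simp⟩
  invFun w := ⟨⟨(w.1 : M) * (b⁻¹ : Mˣ), w.2⟩, by simp⟩
  left_inv w := by ext; simp
  right_inv w := by ext; simp

/-- extension of right multiplication to a permutation of the window -/
def extPerm {M : Type} [Monoid M] (W : Finset M) (b : Mˣ) : Equiv.Perm {m // m ∈ W} :=
  (partialEquiv W b).extendSubtype

theorem extPerm_apply {M : Type} [Monoid M] (W : Finset M) (b : Mˣ) (w : {m // m ∈ W})
    (h : (w : M) * b ∈ W) : ((extPerm W b w : {m // m ∈ W}) : M) = w * b := by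
  unfold extPerm
  rw [Equiv.extendSubtype_apply_of_mem (partialEquiv W b) w h]
  rfl

theorem extPerm_inv_apply {M : Type} [Monoid M] (W : Finset M) (b : Mˣ) (w : {m // m ∈ W})
    (h : (w : M) * (b⁻¹ : Mˣ) ∈ W) :
    (((extPerm W b)⁻¹ w : {m // m ∈ W}) : M) = w * (b⁻¹ : Mˣ) := by
  have h2 : ((⟨(w : M) * (b⁻¹ : Mˣ), h⟩ : {m // m ∈ W}) : M) * b ∈ W := by simp
  have h1 := extPerm_apply W b ⟨(w : M) * (b⁻¹ : Mˣ), h⟩ h2
  have h3 : extPerm W b ⟨(w : M) * (b⁻¹ : Mˣ), h⟩ = w := by
    apply Subtype.ext; rw [h1]; simp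
  have h4 : (extPerm W b)⁻¹ w = ⟨(w : M) * (b⁻¹ : Mˣ), h⟩ := by
    rw [Equiv.Perm.inv_eq_iff_eq]; exact h3.symm
  rw [h4]

variable {α M : Type} [Monoid M] (ι : FreeGroup α →* Mˣ)

/-- the homomorphism from the free group to the permutations of the window -/
def theta (W : Finset M) : FreeGroup α →* (Equiv.Perm {m // m ∈ W})ᵐᵒᵖ :=
  FreeGroup.lift fun s => op (extPerm W (ι (FreeGroup.of s)))

theorem theta_letter (W : Finset M) (a : α × Bool) (w : {m // m ∈ W})
    (h : (w : M) * (ι (FreeGroup.mk [a]) : Mˣ) ∈ W) :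
    ((unop (theta ι W (FreeGroup.mk [a])) w : {m // m ∈ W}) : M)
      = w * (ι (FreeGroup.mk [a]) : Mˣ) := by
  obtain ⟨s, b⟩ := a
  cases b with
  | true =>
    have e : (FreeGroup.mk [(s, true)] : FreeGroup α) = FreeGroup.of s := rfl
    rw [e] at h ⊢
    have : theta ι W (FreeGroup.of s) = op (extPerm W (ι (FreeGroup.of s))) := by
      unfold theta; simp
    rw [this, unop_op]
    exact extPerm_apply W _ w h
  | false =>
    have e : (FreeGroup.mk [(s, false)] : FreeGroup α) = (FreeGroup.of s)⁻¹ := rfl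
    rw [e] at h ⊢
    rw [map_inv] at h ⊢
    have : theta ι W (FreeGroup.of s) = op (extPerm W (ι (FreeGroup.of s))) := by
      unfold theta; simp
    rw [map_inv, this, unop_inv, unop_op]
    exact extPerm_inv_apply W _ w h

theorem theta_word (W : Finset M) (L : List (α × Bool)) :
    ∀ w : {m // m ∈ W}, (∀ i ≤ L.length, (w : M) * (ι (FreeGroup.mk (L.take i)) : Mˣ) ∈ W) →
    ((unop (theta ι W (FreeGroup.mk L)) w : {m // m ∈ W}) : M)
      = w * (ι (FreeGroup.mk L) : Mˣ) := by
  induction L with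
  | nil =>
    intro w _
    have e : (FreeGroup.mk [] : FreeGroup α) = 1 := rfl
    rw [e]; simp
  | cons a L ih =>
    intro w hw
    have e : (FreeGroup.mk (a :: L) : FreeGroup α) = FreeGroup.mk [a] * FreeGroup.mk L := by
      rw [FreeGroup.mul_mk]; rfl
    have h1 : (w : M) * (ι (FreeGroup.mk [a]) : Mˣ) ∈ W := by
      have := hw 1 (by simp)
      simpa using this
    have h2 := theta_letter ι W a w h1
    have h3 := ih (unop (theta ι W (FreeGroup.mk [a])) w) (by
      intro i hi
      rw [h2]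
      have := hw (i+1) (by simpa using hi)
      have e2 : (FreeGroup.mk ((a :: L).take (i+1)) : FreeGroup α)
          = FreeGroup.mk [a] * FreeGroup.mk (L.take i) := by
        rw [FreeGroup.mul_mk]; rfl
      rw [e2, map_mul] at this
      simpa [mul_assoc] using this)
    rw [e, map_mul, unop_mul, Equiv.Perm.mul_apply, h3, h2, map_mul]
    simp [mul_assoc]

/-- the window -/
def window (K : Finset M) (KF : Finset (FreeGroup α)) : Finset M :=
  (insert 1 K) ∪ (insert 1 K).biUnion fun m => KF.biUnion fun g =>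
    (Finset.range (g.toWord.length + 1)).image fun i =>
      m * (ι (FreeGroup.mk (g.toWord.take i)) : Mˣ)

theorem theta_window (K : Finset M) (KF : Finset (FreeGroup α)) (m : M) (hm : m ∈ insert 1 K)
    (g : FreeGroup α) (hg : g ∈ KF) :
    ∃ (h : m ∈ window ι K KF) (_ : m * (ι g : Mˣ) ∈ window ι K KF),
      ((unop (theta ι (window ι K KF) g) ⟨m, h⟩ : {m // m ∈ window ι K KF}) : M)
        = m * (ι g : Mˣ) := by
  have hmem : ∀ i ≤ g.toWord.length, m * (ι (FreeGroup.mk (g.toWord.take i)) : Mˣ)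
      ∈ window ι K KF := by
    intro i hi
    unfold window
    apply Finset.mem_union_right
    rw [Finset.mem_biUnion]
    refine ⟨m, hm, ?_⟩
    rw [Finset.mem_biUnion]
    refine ⟨g, hg, ?_⟩
    rw [Finset.mem_image]
    exact ⟨i, by rw [Finset.mem_range]; omega, rfl⟩
  have h0 : m ∈ window ι K KF := by
    unfold window; exact Finset.mem_union_left _ hm
  have hlast := hmem g.toWord.length le_rfl
  rw [List.take_length, FreeGroup.mk_toWord] at hlast
  refine ⟨h0, hlast, ?_⟩
  have := theta_word ι (window ι K KF) g.toWord ⟨m, h0⟩ hmem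
  rw [FreeGroup.mk_toWord] at this
  exact this

/-- counting: if all `inl` points are good, the fraction is at least `1 - ε` -/
theorem frac_bound {A B : Type} [Finite A] [Finite B] (ε : ℝ)
    (h : (Nat.card B : ℝ) ≤ ε * (Nat.card (A ⊕ B) : ℝ)) (p : A ⊕ B → Prop)
    (hp : ∀ a, p (Sum.inl a)) :
    (1 - ε) * (Nat.card (A ⊕ B) : ℝ) ≤ (Nat.card {x : A ⊕ B // p x} : ℝ) := by
  have h1 : Nat.card A ≤ Nat.card {x : A ⊕ B // p x} := by
    apply Nat.card_le_card_of_injective (fun a => (⟨Sum.inl a, hp a⟩ : {x : A ⊕ B // p x}))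
    intro a b hab
    simpa using hab
  have h2 : Nat.card (A ⊕ B) = Nat.card A + Nat.card B := Nat.card_sum
  have h3 : (Nat.card A : ℝ) ≤ (Nat.card {x : A ⊕ B // p x} : ℝ) := by exact_mod_cast h1
  have h4 : (Nat.card (A ⊕ B) : ℝ) = (Nat.card A : ℝ) + (Nat.card B : ℝ) := by
    rw [h2]; push_cast; ring
  rw [h4] at h ⊢
  linarith

theorem sofic_of_rightZero (hι : Function.Injective ι)
    (hR : ∀ m x : M, (∀ g, (ι g : M) ≠ x) → m * x = x) : IsSofic M := by
  intro K ε hε
  have hinj : Function.Injective (fun g : FreeGroup α => ((ι g : Mˣ) : M)) := by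
    intro a b h; exact hι (Units.ext h)
  let KF : Finset (FreeGroup α) := K.preimage (fun g => ((ι g : Mˣ) : M)) hinj.injOn
  have hKF : ∀ g, g ∈ KF ↔ ((ι g : Mˣ) : M) ∈ K := by
    intro g; simp [KF]
  let W := window ι K KF
  have h1W : (1 : M) ∈ W := by
    show (1:M) ∈ window ι K KF
    unfold window; exact Finset.mem_union_left _ (Finset.mem_insert_self _ _)
  let θ := theta ι W
  obtain ⟨n, hn⟩ := exists_nat_gt ((Nat.card {m // m ∈ W} : ℝ) / ε)
  let A : Type := (Equiv.Perm {m // m ∈ W})ᵐᵒᵖ × Fin (n+1)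
  let B : Type := {m // m ∈ W}
  let X : Type := A ⊕ B
  let actU : FreeGroup α → X → X := fun g x =>
    match x with
    | Sum.inl (x, i) => Sum.inl (θ g * x, i)
    | Sum.inr w => Sum.inr w
  let actO : M → X → X := fun m x =>
    match x with
    | Sum.inl (x, _) => Sum.inr (if h : m ∈ W then unop x ⟨m, h⟩ else ⟨1, h1W⟩)
    | Sum.inr w => Sum.inr w
  let act : M → X → X := fun m => if h : ∃ g, ((ι g : Mˣ) : M) = m then actU h.choose else actO m
  have actU_eq : ∀ g, act ((ι g : Mˣ) : M) = actU g := by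
    intro g
    have h : ∃ g', ((ι g' : Mˣ) : M) = ((ι g : Mˣ) : M) := ⟨g, rfl⟩
    show (if h : ∃ g', ((ι g' : Mˣ) : M) = ((ι g : Mˣ) : M) then actU h.choose
      else actO ((ι g : Mˣ) : M)) = actU g
    rw [dif_pos h]
    congr 1
    exact hinj h.choose_spec
  have actO_eq : ∀ m, (∀ g, ((ι g : Mˣ) : M) ≠ m) → act m = actO m := by
    intro m hm
    show (if h : ∃ g', ((ι g' : Mˣ) : M) = m then actU h.choose else actO m) = actO m
    rw [dif_neg]
    push Not; exact hm
  have hfin : Finite (Equiv.Perm {m // m ∈ W})ᵐᵒᵖ :=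
    Finite.of_equiv _ (MulOpposite.opEquiv (α := Equiv.Perm {m // m ∈ W}))
  have hcard : (Nat.card B : ℝ) ≤ ε * (Nat.card (A ⊕ B) : ℝ) := by
    have h2 : Nat.card (A ⊕ B) = Nat.card A + Nat.card B := Nat.card_sum
    have h3 : n + 1 ≤ Nat.card A := by
      have e : Nat.card A = Nat.card (Equiv.Perm {m // m ∈ W})ᵐᵒᵖ * (n+1) := by
        show Nat.card ((Equiv.Perm {m // m ∈ W})ᵐᵒᵖ × Fin (n+1)) = _
        rw [Nat.card_prod]; simp
      rw [e]
      have : 0 < Nat.card (Equiv.Perm {m // m ∈ W})ᵐᵒᵖ := Nat.card_pos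
      nlinarith
    have h4 : (n : ℝ) ≤ (Nat.card (A ⊕ B) : ℝ) := by
      have : n ≤ Nat.card (A ⊕ B) := by omega
      exact_mod_cast this
    rw [div_lt_iff₀ hε] at hn
    have : (Nat.card B : ℝ) = (Nat.card {m // m ∈ W} : ℝ) := rfl
    rw [this]
    nlinarith
  refine ⟨X, inferInstanceAs (Finite (A ⊕ B)), ⟨Sum.inr ⟨1, h1W⟩⟩, act, ?_, ?_, ?_⟩
  · intro x
    have e : (1 : M) = ((ι 1 : Mˣ) : M) := by simp
    rw [e, actU_eq]
    rcases x with ⟨x, i⟩ | w
    · show Sum.inl (θ 1 * x, i) = Sum.inl (x, i)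
      rw [map_one, one_mul]
    · rfl
  · intro s hs t ht
    refine frac_bound (A := A) (B := B) ε hcard _ ?_
    rintro ⟨x, i⟩
    by_cases ht' : ∃ g, ((ι g : Mˣ) : M) = t
    · obtain ⟨g, rfl⟩ := ht'
      by_cases hs' : ∃ f, ((ι f : Mˣ) : M) = s
      · obtain ⟨f, rfl⟩ := hs'
        have e : ((ι f : Mˣ) : M) * ((ι g : Mˣ) : M) = ((ι (f * g) : Mˣ) : M) := by simp
        rw [e, actU_eq, actU_eq, actU_eq]
        show Sum.inl (θ f * (θ g * x), i) = Sum.inl (θ (f * g) * x, i)
        rw [map_mul, mul_assoc]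
      · push Not at hs'
        have hs2 : ∀ f, ((ι f : Mˣ) : M) ≠ s * ((ι g : Mˣ) : M) := by
          intro f hf
          apply hs' (f * g⁻¹)
          rw [map_mul, Units.val_mul, hf, mul_assoc, ← Units.val_mul, ← map_mul]
          simp
        rw [actU_eq, actO_eq s hs', actO_eq _ hs2]
        obtain ⟨h1, h2, h3⟩ := theta_window ι K KF s (Finset.mem_insert_of_mem hs) g
          ((hKF g).mpr ht)
        show Sum.inr (if h : s ∈ W then unop (θ g * x) ⟨s, h⟩ else ⟨1, h1W⟩) =
          Sum.inr (if h : s * ((ι g : Mˣ) : M) ∈ W then unop x ⟨s * ((ι g : Mˣ) : M), h⟩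
            else ⟨1, h1W⟩)
        rw [dif_pos h1, dif_pos h2, unop_mul, Equiv.Perm.mul_apply]
        congr 2
        exact Subtype.ext h3
    · push Not at ht'
      rw [hR s t ht', actO_eq t ht']
      show act s (Sum.inr _) = Sum.inr _
      by_cases hs' : ∃ f, ((ι f : Mˣ) : M) = s
      · obtain ⟨f, rfl⟩ := hs'
        rw [actU_eq]
      · push Not at hs'
        rw [actO_eq s hs']
  · intro s hs t ht hst
    refine frac_bound (A := A) (B := B) ε hcard _ ?_
    rintro ⟨x, i⟩
    by_cases ht' : ∃ g, ((ι g : Mˣ) : M) = t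
    · obtain ⟨g, rfl⟩ := ht'
      by_cases hs' : ∃ f, ((ι f : Mˣ) : M) = s
      · obtain ⟨f, rfl⟩ := hs'
        rw [actU_eq, actU_eq]
        show Sum.inl (θ f * x, i) ≠ Sum.inl (θ g * x, i)
        intro hh
        have h1 : θ f * x = θ g * x := by
          have := Sum.inl.inj hh
          exact (Prod.mk.inj this).1
        have h2 : θ f = θ g := mul_right_cancel h1
        obtain ⟨a1, a2, a3⟩ := theta_window ι K KF 1 (Finset.mem_insert_self _ _) g
          ((hKF g).mpr ht)
        obtain ⟨b1, b2, b3⟩ := theta_window ι K KF 1 (Finset.mem_insert_self _ _) f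
          ((hKF f).mpr hs)
        apply hst
        rw [one_mul] at a3 b3
        rw [← a3, ← b3]
        show ((unop (θ f) ⟨1, b1⟩ : {m // m ∈ W}) : M) = ((unop (θ g) ⟨1, a1⟩ : {m // m ∈ W}) : M)
        rw [h2]
      · push Not at hs'
        rw [actU_eq, actO_eq s hs']
        show Sum.inr _ ≠ Sum.inl _
        exact Sum.inr_ne_inl
    · push Not at ht'
      by_cases hs' : ∃ f, ((ι f : Mˣ) : M) = s
      · obtain ⟨f, rfl⟩ := hs'
        rw [actU_eq, actO_eq t ht']
        show Sum.inl _ ≠ Sum.inr _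
        exact Sum.inl_ne_inr
      · push Not at hs'
        rw [actO_eq t ht', actO_eq s hs']
        have h1 : s ∈ W := by
          show s ∈ window ι K KF
          unfold window
          exact Finset.mem_union_left _ (Finset.mem_insert_of_mem hs)
        have h2 : t ∈ W := by
          show t ∈ window ι K KF
          unfold window
          exact Finset.mem_union_left _ (Finset.mem_insert_of_mem ht)
        show Sum.inr (if h : s ∈ W then unop x ⟨s, h⟩ else ⟨1, h1W⟩) ≠
          Sum.inr (if h : t ∈ W then unop x ⟨t, h⟩ else ⟨1, h1W⟩)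
        rw [dif_pos h1, dif_pos h2]
        intro hh
        have h3 := (unop x).injective (Sum.inr.inj hh)
        exact hst (Subtype.ext_iff.mp h3)

end

end Pool.Agent.H42.Sof
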