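import Mathlib
import Pool.Agent.H42.SofFree

/-!
The two monoid structures on the set `F ∪ E ∪ T ∪ {0}`.
-/

set_option autoImplicit false

namespace Pool.Agent.H42.Sof

/-- underlying set -/
inductive Elt (F E T : Type) : Type
  | u (g : F) : Elt F E T
  | e (a : E) : Elt F E T
  | t (τ : T) : Elt F E T
  | z : Elt F E T

/-- A set `T` with commuting actions: `E` on the left, `F` on the right. -/
structure Biact (F E T : Type) [Group F] [Monoid E] where
  r : T → F → T
  l : E → T → T
  r_one : ∀ τ, r τ 1 = τ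
  r_mul : ∀ τ g h, r τ (g * h) = r (r τ g) h
  l_mul : ∀ a b τ, l (a * b) τ = l a (l b τ)
  comm : ∀ a τ g, l a (r τ g) = r (l a τ) g

/-- carrier of the sofic monoid -/
structure MM {F E T : Type} [Group F] [Monoid E] (B : Biact F E T) : Type where
  val : Elt F E T

/-- carrier of the non-sofic monoid -/
structure NN {F E T : Type} [Group F] [Monoid E] (B : Biact F E T) : Type where
  val : Elt F E T

section

variable {F E T : Type} [Group F] [Monoid E] (B : Biact F E T)

/-- multiplication of `MM` -/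
def mulM : Elt F E T → Elt F E T → Elt F E T
  | .u g, .u h => .u (g * h)
  | .e a, .u _ => .e a
  | .t τ, .u g => .t (B.r τ g)
  | .z, .u _ => .z
  | _, .e b => .e b
  | _, .t τ => .t τ
  | _, .z => .z

/-- multiplication of `NN` -/
def mulN : Elt F E T → Elt F E T → Elt F E T
  | .u g, .u h => .u (g * h)
  | .u _, .e b => .e b
  | .u _, .t τ => .t τ
  | .u _, .z => .z
  | .e a, .u _ => .e a
  | .e a, .e b => .e (a * b)
  | .e a, .t τ => .t (B.l a τ)
  | .e _, .z => .z
  | .t τ, .u g => .t (B.r τ g)
  | .t _, .e _ => .z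
  | .t _, .t _ => .z
  | .t _, .z => .z
  | .z, _ => .z

theorem mulM_assoc (x y w : Elt F E T) :
    mulM B (mulM B x y) w = mulM B x (mulM B y w) := by
  cases x <;> cases y <;> cases w <;> simp [mulM, mul_assoc, B.r_mul]

theorem mulN_assoc (x y w : Elt F E T) :
    mulN B (mulN B x y) w = mulN B x (mulN B y w) := by
  cases x <;> cases y <;> cases w <;> simp [mulN, mul_assoc, B.r_mul, B.l_mul, B.comm]

instance : Monoid (MM B) where
  mul x y := ⟨mulM B x.val y.val⟩
  one := ⟨.u 1⟩
  mul_assoc x y w := congrArg MM.mk (mulM_assoc B x.val y.val w.val)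
  one_mul := by
    rintro ⟨x⟩
    refine congrArg MM.mk ?_
    cases x <;> simp [mulM]
  mul_one := by
    rintro ⟨x⟩
    refine congrArg MM.mk ?_
    cases x <;> simp [mulM, B.r_one]

instance : Monoid (NN B) where
  mul x y := ⟨mulN B x.val y.val⟩
  one := ⟨.u 1⟩
  mul_assoc x y w := congrArg NN.mk (mulN_assoc B x.val y.val w.val)
  one_mul := by
    rintro ⟨x⟩
    refine congrArg NN.mk ?_
    cases x <;> simp [mulN]
  mul_one := by
    rintro ⟨x⟩
    refine congrArg NN.mk ?_
    cases x <;> simp [mulN, B.r_one]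

theorem MM_mul_def (x y : Elt F E T) : (⟨x⟩ : MM B) * ⟨y⟩ = ⟨mulM B x y⟩ := rfl
theorem MM_one_def : (1 : MM B) = ⟨.u 1⟩ := rfl
theorem NN_mul_def (x y : Elt F E T) : (⟨x⟩ : NN B) * ⟨y⟩ = ⟨mulN B x y⟩ := rfl
theorem NN_one_def : (1 : NN B) = ⟨.u 1⟩ := rfl

end

/-! ### monoids with a group whose complement is an ideal -/

section general

variable {F M : Type} [Group F] [Monoid M] (ι : F →* M)

theorem isUnit_iff_of_ideal
    (hI : ∀ x : M, (∀ g, ι g ≠ x) → ∀ m, (∀ g, ι g ≠ m * x) ∧ (∀ g, ι g ≠ x * m)) (a : M) :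
    IsUnit a ↔ ∃ g, ι g = a := by
  constructor
  · rintro ⟨b, rfl⟩
    by_contra h
    push Not at h
    have := (hI _ h ((b⁻¹ : Mˣ) : M)).1 1
    apply this
    simp
  · rintro ⟨g, rfl⟩
    exact ⟨⟨ι g, ι g⁻¹, by rw [← map_mul]; simp, by rw [← map_mul]; simp⟩, rfl⟩

theorem jclass_of_ideal
    (hI : ∀ x : M, (∀ g, ι g ≠ x) → ∀ m, (∀ g, ι g ≠ m * x) ∧ (∀ g, ι g ≠ x * m)) :
    JClassOneIsGroup M := by
  intro a
  constructor
  · intro h
    have h1 : (1 : M) ∈ {x : M | ∃ u v, x = u * 1 * v} := ⟨1, 1, by simp⟩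
    rw [← h] at h1
    obtain ⟨u, v, huv⟩ := h1
    rw [isUnit_iff_of_ideal ι hI]
    by_contra hc
    push Not at hc
    have h2 := (hI a hc u).1
    have h3 := (hI _ h2 v).2 1
    apply h3
    rw [map_one, huv]
  · rintro ⟨b, rfl⟩
    ext x
    constructor
    · rintro ⟨u, v, rfl⟩
      exact ⟨u * b, v, by simp⟩
    · rintro ⟨u, v, rfl⟩
      exact ⟨u * ((b⁻¹ : Mˣ) : M), v, by simp⟩

/-- the unit group is `F` -/
noncomputable def unitsEquivOfIdeal (hinj : Function.Injective ι)
    (hI : ∀ x : M, (∀ g, ι g ≠ x) → ∀ m, (∀ g, ι g ≠ m * x) ∧ (∀ g, ι g ≠ x * m)) :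
    F ≃* Mˣ :=
  MulEquiv.ofBijective ι.toHomUnits (by
    constructor
    · intro a b h
      apply hinj
      have := congrArg (fun u : Mˣ => (u : M)) h
      simpa using this
    · intro b
      obtain ⟨g, hg⟩ := (isUnit_iff_of_ideal ι hI (b : M)).mp b.isUnit
      exact ⟨g, Units.ext (by simpa using hg)⟩)

theorem unitsEquivOfIdeal_apply (hinj : Function.Injective ι)
    (hI : ∀ x : M, (∀ g, ι g ≠ x) → ∀ m, (∀ g, ι g ≠ m * x) ∧ (∀ g, ι g ≠ x * m)) (g : F) :
    ((unitsEquivOfIdeal ι hinj hI g : Mˣ) : M) = ι g := rfl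

end general

section

variable {F E T : Type} [Group F] [Monoid E] (B : Biact F E T)

/-- `F → MM` -/
def iM : F →* MM B where
  toFun g := ⟨.u g⟩
  map_one' := rfl
  map_mul' _ _ := rfl

/-- `F → NN` -/
def iN : F →* NN B where
  toFun g := ⟨.u g⟩
  map_one' := rfl
  map_mul' _ _ := rfl

theorem iM_inj : Function.Injective (iM B) := by
  intro a b h
  have : (Elt.u a : Elt F E T) = Elt.u b := congrArg MM.val h
  exact Elt.u.inj this

theorem iN_inj : Function.Injective (iN B) := by
  intro a b h
  have : (Elt.u a : Elt F E T) = Elt.u b := congrArg NN.val h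
  exact Elt.u.inj this

theorem iM_ideal : ∀ x : MM B, (∀ g, iM B g ≠ x) → ∀ m, (∀ g, iM B g ≠ m * x) ∧
    (∀ g, iM B g ≠ x * m) := by
  rintro ⟨x⟩ hx ⟨m⟩
  cases x with
  | u g => exact absurd rfl (hx g)
  | e a => 
    constructor
    · intro g h
      have := congrArg MM.val h
      cases m <;> cases this
    · intro g h
      have := congrArg MM.val h
      cases m <;> cases this
  | t τ =>
    constructor
    · intro g h
      have := congrArg MM.val h
      cases m <;> cases this
    · intro g h
      have := congrArg MM.val h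
      cases m <;> cases this
  | z =>
    constructor
    · intro g h
      have := congrArg MM.val h
      cases m <;> cases this
    · intro g h
      have := congrArg MM.val h
      cases m <;> cases this

theorem iN_ideal : ∀ x : NN B, (∀ g, iN B g ≠ x) → ∀ m, (∀ g, iN B g ≠ m * x) ∧
    (∀ g, iN B g ≠ x * m) := by
  rintro ⟨x⟩ hx ⟨m⟩
  cases x with
  | u g => exact absurd rfl (hx g)
  | e a => 
    constructor
    · intro g h
      have := congrArg NN.val h
      cases m <;> cases this
    · intro g h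
      have := congrArg NN.val h
      cases m <;> cases this
  | t τ =>
    constructor
    · intro g h
      have := congrArg NN.val h
      cases m <;> cases this
    · intro g h
      have := congrArg NN.val h
      cases m <;> cases this
  | z =>
    constructor
    · intro g h
      have := congrArg NN.val h
      cases m <;> cases this
    · intro g h
      have := congrArg NN.val h
      cases m <;> cases this

theorem MM_rightZero : ∀ m x : MM B, (∀ g, iM B g ≠ x) → m * x = x := by
  rintro ⟨m⟩ ⟨x⟩ hx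
  cases x with
  | u g => exact absurd rfl (hx g)
  | e a => cases m <;> rfl
  | t a => cases m <;> rfl
  | z => cases m <;> rfl

/-- the identity map -/
def rho : MM B ≃ NN B where
  toFun x := ⟨x.val⟩
  invFun x := ⟨x.val⟩
  left_inv _ := rfl
  right_inv _ := rfl

theorem rho_mul_unit (s : MM B) (g : F) : rho B (s * iM B g) = rho B s * rho B (iM B g) := by
  obtain ⟨s⟩ := s
  cases s <;> rfl

end

/-- `MM` is sofic when `F` is free. -/
theorem MM_sofic {α E T : Type} [Monoid E] (B : Biact (FreeGroup α) E T) : IsSofic (MM B) := by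
  apply sofic_of_rightZero (iM B).toHomUnits
  · intro a b h
    apply iM_inj B
    have := congrArg (fun u : (MM B)ˣ => (u : MM B)) h
    simpa using this
  · intro m x hx
    exact MM_rightZero B m x (fun g hg => hx g (by simpa using hg))

end Pool.Agent.H42.Sof
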