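import Mathlib
import Pool.Agent.H42.SofCore
import Pool.Agent.H42.SofMon

/-!
The concrete biact and the non-soficity of `NN`.
-/

set_option autoImplicit false

namespace Pool.Agent.H42.Sof

open MulOpposite

/-! ### the concrete permutations -/

abbrev Om : Type := ℕ × Fin 4

/-- the three permutations: `s`, `h`, `g` -/
def permS : Equiv.Perm Om where
  toFun x := match x with
    | (n, 0) => (n, 1)
    | (n, 1) => (n, 2)
    | (n, 2) => (n, 0)
    | (n, 3) => (n, 3)
  invFun x := match x with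
    | (n, 0) => (n, 2)
    | (n, 1) => (n, 0)
    | (n, 2) => (n, 1)
    | (n, 3) => (n, 3)
  left_inv := by rintro ⟨n, i⟩; fin_cases i <;> rfl
  right_inv := by rintro ⟨n, i⟩; fin_cases i <;> rfl

def permH : Equiv.Perm Om where
  toFun x := match x with
    | (n, 0) => (n, 2)
    | (n, 1) => (n, 1)
    | (n, 2) => (n, 0)
    | (n, 3) => (n, 3)
  invFun x := match x with
    | (n, 0) => (n, 2)
    | (n, 1) => (n, 1)
    | (n, 2) => (n, 0)
    | (n, 3) => (n, 3)
  left_inv := by rintro ⟨n, i⟩; fin_cases i <;> rfl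
  right_inv := by rintro ⟨n, i⟩; fin_cases i <;> rfl

def permG : Equiv.Perm Om where
  toFun x := match x with
    | (n, 0) => if n % 2 = 0 then (n / 2, 0) else (n / 2, 2)
    | (n, 1) => (n, 1)
    | (n, 2) => (2 * n, 3)
    | (n, 3) => (2 * n + 1, 3)
  invFun x := match x with
    | (n, 0) => (2 * n, 0)
    | (n, 1) => (n, 1)
    | (n, 2) => (2 * n + 1, 0)
    | (n, 3) => if n % 2 = 0 then (n / 2, 2) else (n / 2, 3)
  left_inv := by
    rintro ⟨n, i⟩
    fin_cases i
    · show (match (if n % 2 = 0 then ((n / 2, 0) : Om) else (n / 2, 2)) with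
        | (n, 0) => ((2 * n, 0) : Om)
        | (n, 1) => (n, 1)
        | (n, 2) => (2 * n + 1, 0)
        | (n, 3) => if n % 2 = 0 then (n / 2, 2) else (n / 2, 3)) = (n, 0)
      by_cases h : n % 2 = 0
      · rw [if_pos h]
        show ((2 * (n / 2), 0) : Om) = (n, 0)
        congr 1; omega
      · rw [if_neg h]
        show ((2 * (n / 2) + 1, 0) : Om) = (n, 0)
        congr 1; omega
    · rfl
    · show (if (2 * n) % 2 = 0 then ((2 * n / 2, 2) : Om) else (2 * n / 2, 3)) = (n, 2)
      rw [if_pos (by omega)]; congr 1; omega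
    · show (if (2 * n + 1) % 2 = 0 then (((2 * n + 1) / 2, 2) : Om) else ((2 * n + 1) / 2, 3)) = (n, 3)
      rw [if_neg (by omega)]; congr 1; omega
  right_inv := by
    rintro ⟨n, i⟩
    fin_cases i
    · show (if (2 * n) % 2 = 0 then ((2 * n / 2, 0) : Om) else (2 * n / 2, 2)) = (n, 0)
      rw [if_pos (by omega)]; congr 1; omega
    · rfl
    · show (if (2 * n + 1) % 2 = 0 then (((2 * n + 1) / 2, 0) : Om) else ((2 * n + 1) / 2, 2)) = (n, 2)
      rw [if_neg (by omega)]; congr 1; omega
    · show (match (if n % 2 = 0 then ((n / 2, 2) : Om) else (n / 2, 3)) with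
        | (n, 0) => if n % 2 = 0 then ((n / 2, 0) : Om) else (n / 2, 2)
        | (n, 1) => (n, 1)
        | (n, 2) => (2 * n, 3)
        | (n, 3) => (2 * n + 1, 3)) = (n, 3)
      by_cases h : n % 2 = 0
      · rw [if_pos h]
        show ((2 * (n / 2), 3) : Om) = (n, 3)
        congr 1; omega
      · rw [if_neg h]
        show ((2 * (n / 2) + 1, 3) : Om) = (n, 3)
        congr 1; omega

/-! ### the biact -/

abbrev FF : Type := FreeGroup (Fin 3)
abbrev EE : Type := FreeMonoid (Fin 2)

/-- action of the free group on `Om` -/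
def pF : FF →* (Equiv.Perm Om)ᵐᵒᵖ := FreeGroup.lift ![op permS, op permH, op permG]

/-- the two injections of `ℕ` -/
def injE : Fin 2 → (Function.End ℕ)ᵐᵒᵖ :=
  ![op (fun n : ℕ => 2 * n), op (fun n : ℕ => 2 * n + 1)]

/-- action of the free monoid on `ℕ` -/
def pE : EE →* (Function.End ℕ)ᵐᵒᵖ := FreeMonoid.lift injE

/-- the base function -/
def base : ℕ → Om := fun n => (n, 0)

/-- the sheet: functions `ℕ → Om` obtained from the base function -/
def TT : Type := {τ : ℕ → Om // ∃ (w : EE) (g : FF), τ = fun n => unop (pF g) (base (unop (pE w) n))}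

theorem pF_mul (g h : FF) (x : Om) : unop (pF (g * h)) x = unop (pF h) (unop (pF g) x) := by
  rw [map_mul, unop_mul, Equiv.Perm.mul_apply]

theorem pE_mul (a b : EE) (n : ℕ) : unop (pE (a * b)) n = unop (pE b) (unop (pE a) n) := by
  rw [map_mul, unop_mul]; rfl

/-- the biact -/
def BB : Biact FF EE TT where
  r τ g := ⟨fun n => unop (pF g) (τ.1 n), by
    obtain ⟨τ, w, g', rfl⟩ := τ
    refine ⟨w, g' * g, ?_⟩
    funext n
    rw [pF_mul]⟩
  l a τ := ⟨fun n => τ.1 (unop (pE a) n), by
    obtain ⟨τ, w, g', rfl⟩ := τ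
    refine ⟨a * w, g', ?_⟩
    funext n
    rw [pE_mul]⟩
  r_one τ := by
    apply Subtype.ext; funext n
    show unop (pF 1) (τ.1 n) = τ.1 n
    rw [map_one]; rfl
  r_mul τ g h := by
    apply Subtype.ext; funext n
    exact pF_mul g h _
  l_mul a b τ := by
    apply Subtype.ext; funext n
    show τ.1 (unop (pE (a * b)) n) = τ.1 (unop (pE b) (unop (pE a) n))
    rw [pE_mul]
  comm a τ g := rfl

/-- base point of the sheet -/
def tau0 : TT := ⟨base, 1, 1, by funext n; rw [map_one, map_one]; rfl⟩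

def gS : FF := FreeGroup.of 0
def gH : FF := FreeGroup.of 1
def gG : FF := FreeGroup.of 2
def e1 : EE := FreeMonoid.of 0
def e3 : EE := FreeMonoid.of 1

def tau1 : TT := BB.r tau0 gS
def tau2 : TT := BB.r tau1 gS
def tauq : TT := BB.r tau0 gG

theorem pF_S : unop (pF gS) = permS := by
  unfold pF gS; rw [FreeGroup.lift_apply_of]; rfl
theorem pF_H : unop (pF gH) = permH := by
  unfold pF gH; rw [FreeGroup.lift_apply_of]; rfl
theorem pF_G : unop (pF gG) = permG := by
  unfold pF gG; rw [FreeGroup.lift_apply_of]; rfl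
theorem pE_1 (n : ℕ) : unop (pE e1) n = 2 * n := by
  unfold pE e1; rw [FreeMonoid.lift_eval_of]; rfl
theorem pE_3 (n : ℕ) : unop (pE e3) n = 2 * n + 1 := by
  unfold pE e3; rw [FreeMonoid.lift_eval_of]; rfl

theorem tau0_val (n : ℕ) : tau0.1 n = (n, 0) := rfl
theorem tau1_val (n : ℕ) : tau1.1 n = (n, 1) := by
  show unop (pF gS) (tau0.1 n) = _
  rw [pF_S]; rfl
theorem tau2_val (n : ℕ) : tau2.1 n = (n, 2) := by
  show unop (pF gS) (tau1.1 n) = _
  rw [pF_S, tau1_val]; rfl
theorem tauq_val (n : ℕ) : tauq.1 n = if n % 2 = 0 then (n / 2, 0) else (n / 2, 2) := by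
  show unop (pF gG) (tau0.1 n) = _
  rw [pF_G]; rfl

theorem rel_h0 : BB.r tau0 gH = tau2 := by
  apply Subtype.ext; funext n
  show unop (pF gH) (tau0.1 n) = tau2.1 n
  rw [pF_H, tau2_val]; rfl
theorem rel_h1 : BB.r tau1 gH = tau1 := by
  apply Subtype.ext; funext n
  show unop (pF gH) (tau1.1 n) = tau1.1 n
  rw [pF_H, tau1_val]; rfl
theorem rel_g1 : BB.r tau1 gG = tau1 := by
  apply Subtype.ext; funext n
  show unop (pF gG) (tau1.1 n) = tau1.1 n
  rw [pF_G, tau1_val]; rfl
theorem rel_s2 : BB.r tau2 gS = tau0 := by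
  apply Subtype.ext; funext n
  show unop (pF gS) (tau2.1 n) = tau0.1 n
  rw [pF_S, tau2_val]; rfl
theorem rel_a1 : BB.l e1 tauq = tau0 := by
  apply Subtype.ext; funext n
  show tauq.1 (unop (pE e1) n) = tau0.1 n
  rw [pE_1, tauq_val, if_pos (by omega), tau0_val]; congr 1; omega
theorem rel_a2 : BB.l e3 tauq = tau2 := by
  apply Subtype.ext; funext n
  show tauq.1 (unop (pE e3) n) = tau2.1 n
  rw [pE_3, tauq_val, if_neg (by omega), tau2_val]; congr 1; omega
theorem tau1_ne_tau2 : tau1 ≠ tau2 := by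
  intro h
  have := congrArg (fun τ : TT => τ.1 0) h
  simp only [tau1_val, tau2_val] at this
  exact absurd this (by decide)

/-! ### non-soficity -/

open Classical in
/-- an almost injective map agrees with a permutation off a small set -/
theorem exists_perm_of_almost_inv {X : Type} [Fintype X] (α β : X → X) :
    ∃ π : Equiv.Perm X, ∀ x, β (α x) = x → π x = α x := by
  let p : X → Prop := fun x => β (α x) = x
  let q : X → Prop := fun y => ∃ x, p x ∧ α x = y
  have hinj : ∀ x y, p x → p y → α x = α y → x = y := by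
    intro x y hx hy h
    have hx' : β (α x) = x := hx
    have hy' : β (α y) = y := hy
    rw [← hx', h, hy']
  let e : {x // p x} ≃ {y // q y} :=
    Equiv.ofBijective (fun x => ⟨α x.1, x.1, x.2, rfl⟩) (by
      constructor
      · intro x y h
        apply Subtype.ext
        exact hinj _ _ x.2 y.2 (congrArg Subtype.val h)
      · rintro ⟨y, x, hx, rfl⟩
        exact ⟨⟨x, hx⟩, rfl⟩)
  refine ⟨e.extendSubtype, ?_⟩
  intro x hx
  rw [Equiv.extendSubtype_apply_of_mem e x hx]
  rfl

open Classical in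
theorem NN_not_sofic : ¬ IsSofic (NN BB) := by
  intro hs
  let U : FF → NN BB := fun g => ⟨.u g⟩
  let TTo : TT → NN BB := fun τ => ⟨.t τ⟩
  let EEo : EE → NN BB := fun a => ⟨.e a⟩
  let K : Finset (NN BB) := {U gS, U gH, U gG, U gS⁻¹, U gH⁻¹, U gG⁻¹, TTo tau0, TTo tau1,
    TTo tau2, TTo tauq, EEo e1, EEo e3}
  obtain ⟨X, hfin, hne, act, hact⟩ := hs K (1/48000) (by norm_num)
  have : Fintype X := Fintype.ofFinite X
  set N : ℝ := (Fintype.card X : ℝ) with hN
  have hNpos : 0 < N := by
    rw [hN]; exact_mod_cast Fintype.card_pos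
  have hcardX : (Nat.card X : ℝ) = N := by rw [hN, Nat.card_eq_fintype_card]
  -- bad sets are small
  have small : ∀ p : X → Prop, (1 - 1/48000) * (Nat.card X : ℝ) ≤ (Nat.card {x : X // p x} : ℝ) →
      ((Finset.univ.filter fun x => ¬ p x).card : ℝ) ≤ N / 48000 := by
    intro p hp
    rw [hcardX] at hp
    have h1 : Nat.card {x : X // p x} = (Finset.univ.filter fun x => p x).card := by
      rw [Nat.card_eq_fintype_card, Fintype.card_subtype]
    have h2 := Finset.card_filter_add_card_filter_not (s := (Finset.univ : Finset X)) p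
    rw [Finset.card_univ] at h2
    have h3 : ((Finset.univ.filter fun x => p x).card : ℝ)
        + ((Finset.univ.filter fun x => ¬ p x).card : ℝ) = N := by
      rw [hN]; exact_mod_cast h2
    rw [h1] at hp
    linarith
  have hm : ∀ a b : NN BB, a ∈ K → b ∈ K →
      ((Finset.univ.filter fun x => act a (act b x) ≠ act (a * b) x).card : ℝ) ≤ N / 48000 := by
    intro a b ha hb
    exact small _ (hact.mul_act a ha b hb)
  -- permutations approximating the units
  have perm : ∀ g : FF, U g ∈ K → U g⁻¹ ∈ K → ∃ π : Equiv.Perm X,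
      ((Finset.univ.filter fun x => π x ≠ act (U g) x).card : ℝ) ≤ N / 48000 := by
    intro g hg hg'
    obtain ⟨π, hπ⟩ := exists_perm_of_almost_inv (act (U g)) (act (U g⁻¹))
    refine ⟨π, ?_⟩
    have h1 := hm (U g⁻¹) (U g) hg' hg
    have e : U g⁻¹ * U g = 1 := by
      show (⟨mulN BB (.u g⁻¹) (.u g)⟩ : NN BB) = ⟨.u 1⟩
      simp [mulN]
    rw [e] at h1
    refine le_trans ?_ h1
    have : (Finset.univ.filter fun x => π x ≠ act (U g) x) ⊆
        (Finset.univ.filter fun x => act (U g⁻¹) (act (U g) x) ≠ act 1 x) := by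
      intro x hx
      simp only [Finset.mem_filter, Finset.mem_univ, true_and] at hx ⊢
      intro h
      rw [hact.one_act] at h
      exact hx (hπ x h)
    exact_mod_cast Finset.card_le_card this
  have mK : ∀ a ∈ K, a ∈ K := fun a h => h
  obtain ⟨πs, hπs⟩ := perm gS (by simp [K]) (by simp [K])
  obtain ⟨πh, hπh⟩ := perm gH (by simp [K]) (by simp [K])
  obtain ⟨πg, hπg⟩ := perm gG (by simp [K]) (by simp [K])
  -- relations
  have unitRel : ∀ (τ τ' : TT) (g : FF) (π : Equiv.Perm X), TTo τ ∈ K → U g ∈ K →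
      BB.r τ g = τ' →
      ((Finset.univ.filter fun x => π x ≠ act (U g) x).card : ℝ) ≤ N / 48000 →
      df (act (TTo τ')) (fun x => act (TTo τ) (π x)) ≤ N / 24000 := by
    intro τ τ' g π h1 h2 h3 h4
    have h5 := hm (TTo τ) (U g) h1 h2
    have e : TTo τ * U g = TTo τ' := by
      show (⟨mulN BB (.t τ) (.u g)⟩ : NN BB) = ⟨.t τ'⟩
      simp [mulN, h3]
    rw [e] at h5
    unfold df
    have : (Finset.univ.filter fun x => act (TTo τ') x ≠ act (TTo τ) (π x)) ⊆
        (Finset.univ.filter fun x => act (TTo τ) (act (U g) x) ≠ act (TTo τ') x) ∪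
        (Finset.univ.filter fun x => π x ≠ act (U g) x) := by
      intro x hx
      simp only [Finset.mem_filter, Finset.mem_univ, true_and, Finset.mem_union] at hx ⊢
      by_contra hc
      push Not at hc
      apply hx
      rw [hc.2, hc.1]
    have h6 := (Finset.card_le_card this).trans (Finset.card_union_le _ _)
    have h7 : ((Finset.univ.filter fun x => act (TTo τ') x ≠ act (TTo τ) (π x)).card : ℝ) ≤
        ((Finset.univ.filter fun x => act (TTo τ) (act (U g) x) ≠ act (TTo τ') x).card : ℝ) +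
        ((Finset.univ.filter fun x => π x ≠ act (U g) x).card : ℝ) := by exact_mod_cast h6
    linarith
  have eRel : ∀ (τ τ' : TT) (a : EE), TTo τ ∈ K → EEo a ∈ K → BB.l a τ = τ' →
      df (act (TTo τ')) (fun x => act (EEo a) (act (TTo τ) x)) ≤ N / 24000 := by
    intro τ τ' a h1 h2 h3
    have h5 := hm (EEo a) (TTo τ) h2 h1
    have e : EEo a * TTo τ = TTo τ' := by
      show (⟨mulN BB (.e a) (.t τ)⟩ : NN BB) = ⟨.t τ'⟩
      simp [mulN, h3]
    rw [e] at h5
    unfold df
    have : (Finset.univ.filter fun x => act (TTo τ') x ≠ act (EEo a) (act (TTo τ) x)) ⊆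
        (Finset.univ.filter fun x => act (EEo a) (act (TTo τ) x) ≠ act (TTo τ') x) := by
      intro x hx
      simp only [Finset.mem_filter, Finset.mem_univ, true_and] at hx ⊢
      exact fun h => hx h.symm
    have h6 : ((Finset.univ.filter fun x => act (TTo τ') x ≠ act (EEo a) (act (TTo τ) x)).card : ℝ) ≤
        ((Finset.univ.filter fun x => act (EEo a) (act (TTo τ) x) ≠ act (TTo τ') x).card : ℝ) := by
      exact_mod_cast Finset.card_le_card this
    linarith
  have sep : ((Finset.univ.filter fun x => act (TTo tau1) x = act (TTo tau2) x).card : ℝ)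
      ≤ N / 24000 := by
    have hne' : TTo tau1 ≠ TTo tau2 := by
      intro h
      have h2 : (Elt.t tau1 : Elt FF EE TT) = Elt.t tau2 := congrArg NN.val h
      exact tau1_ne_tau2 (Elt.t.inj h2)
    have h1 := small _ (hact.sep_act (TTo tau1) (by simp [K]) (TTo tau2) (by simp [K]) hne')
    have : (Finset.univ.filter fun x => act (TTo tau1) x = act (TTo tau2) x) =
        (Finset.univ.filter fun x => ¬ (act (TTo tau1) x ≠ act (TTo tau2) x)) := by
      apply Finset.filter_congr; intro x _; simp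
    rw [this]
    refine le_trans (le_of_eq ?_) (h1.trans (by linarith))
    congr!
  have hfinal := core (act (TTo tau0)) (act (TTo tau1)) (act (TTo tau2)) (act (TTo tauq))
    (act (EEo e1)) (act (EEo e3)) πh πg πs (N / 24000)
    (eRel tauq tau0 e1 (by simp [K]) (by simp [K]) rel_a1)
    (eRel tauq tau2 e3 (by simp [K]) (by simp [K]) rel_a2)
    (unitRel tau0 tau2 gH πh (by simp [K]) (by simp [K]) rel_h0 hπh)
    (unitRel tau1 tau1 gH πh (by simp [K]) (by simp [K]) rel_h1 hπh)
    (unitRel tau0 tauq gG πg (by simp [K]) (by simp [K]) rfl hπg)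
    (unitRel tau1 tau1 gG πg (by simp [K]) (by simp [K]) rel_g1 hπg)
    (unitRel tau0 tau1 gS πs (by simp [K]) (by simp [K]) rfl hπs)
    (unitRel tau1 tau2 gS πs (by simp [K]) (by simp [K]) rfl hπs)
    (unitRel tau2 tau0 gS πs (by simp [K]) (by simp [K]) rel_s2 hπs)
    (by
      refine le_trans (le_of_eq ?_) sep
      congr!)
  have : (Fintype.card X : ℝ) = N := rfl
  linarith

end Pool.Agent.H42.Sof
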