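import Mathlib
import Pool.Agent.H42.SofMain

/-!
Final assembly.
-/

set_option autoImplicit false

namespace Pool.Agent.H42.Sof

open MulOpposite

instance : Countable FF := by
  show Countable (FreeGroup (Fin 3))
  exact Function.Injective.countable FreeGroup.toWord_injective

instance : Countable EE := inferInstanceAs (Countable (List (Fin 2)))

instance : Countable TT := by
  have : Function.Surjective (fun p : EE × FF =>
      (BB.r (BB.l p.1 tau0) p.2 : TT)) := by
    rintro ⟨τ, w, g, rfl⟩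
    exact ⟨(w, g), rfl⟩
  exact this.countable

instance : Countable (Elt FF EE TT) := by
  have : Function.Surjective (fun p : FF ⊕ EE ⊕ TT ⊕ Unit => (match p with
      | Sum.inl g => Elt.u g
      | Sum.inr (Sum.inl a) => Elt.e a
      | Sum.inr (Sum.inr (Sum.inl τ)) => Elt.t τ
      | Sum.inr (Sum.inr (Sum.inr _)) => Elt.z : Elt FF EE TT)) := by
    rintro (g | a | τ | _)
    · exact ⟨Sum.inl g, rfl⟩
    · exact ⟨Sum.inr (Sum.inl a), rfl⟩
    · exact ⟨Sum.inr (Sum.inr (Sum.inl τ)), rfl⟩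
    · exact ⟨Sum.inr (Sum.inr (Sum.inr ())), rfl⟩
  exact this.countable

theorem countable_NN : Countable (NN BB) :=
  Function.Injective.countable (f := NN.val) (by rintro ⟨a⟩ ⟨b⟩ h; exact congrArg NN.mk h)

theorem countable_MM : Countable (MM BB) :=
  Function.Injective.countable (f := MM.val) (by rintro ⟨a⟩ ⟨b⟩ h; exact congrArg MM.mk h)

theorem fg_NN : Monoid.FG (NN BB) := by
  classical
  rw [Monoid.fg_def]
  let S : Set (NN BB) := (Set.range fun i : Fin 3 => (⟨.u (FreeGroup.of i)⟩ : NN BB)) ∪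
    (Set.range fun i : Fin 3 => (⟨.u (FreeGroup.of i)⁻¹⟩ : NN BB)) ∪
    (Set.range fun i : Fin 2 => (⟨.e (FreeMonoid.of i)⟩ : NN BB)) ∪ {⟨.e 1⟩, ⟨.t tau0⟩}
  have hS : S.Finite := by
    refine Set.Finite.union (Set.Finite.union (Set.Finite.union ?_ ?_) ?_) ?_
    · exact Set.finite_range _
    · exact Set.finite_range _
    · exact Set.finite_range _
    · exact (Set.finite_singleton _).insert _
  refine ⟨hS.toFinset, ?_⟩
  rw [hS.coe_toFinset, eq_top_iff]
  have hu : ∀ g : FF, (⟨.u g⟩ : NN BB) ∈ Submonoid.closure S := by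
    intro g
    induction g using FreeGroup.induction_on with
    | C1 => exact one_mem _
    | of i =>
      apply Submonoid.subset_closure
      exact Or.inl (Or.inl (Or.inl ⟨i, rfl⟩))
    | inv_of i _ =>
      apply Submonoid.subset_closure
      exact Or.inl (Or.inl (Or.inr ⟨i, rfl⟩))
    | mul x y hx hy => exact mul_mem hx hy
  have he : ∀ a : EE, (⟨.e a⟩ : NN BB) ∈ Submonoid.closure S := by
    intro a
    induction a using FreeMonoid.recOn with
    | one =>
      apply Submonoid.subset_closure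
      exact Or.inr (Or.inl rfl)
    | of_mul x xs h =>
      have : (⟨.e (FreeMonoid.of x)⟩ : NN BB) ∈ Submonoid.closure S := by
        apply Submonoid.subset_closure
        exact Or.inl (Or.inr ⟨x, rfl⟩)
      exact mul_mem this h
  have ht0 : (⟨.t tau0⟩ : NN BB) ∈ Submonoid.closure S := by
    apply Submonoid.subset_closure
    exact Or.inr (Or.inr rfl)
  rintro ⟨x⟩ _
  cases x with
  | u g => exact hu g
  | e a => exact he a
  | t τ =>
    obtain ⟨τ, w, g, rfl⟩ := τ
    have h1 := mul_mem (mul_mem (he w) ht0) (hu g)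
    exact h1
  | z => exact mul_mem ht0 ht0

theorem main : ∃ (M N : Type) (_ : Monoid M) (_ : Monoid N) (ρ : M ≃ N) (e : Mˣ ≃* Nˣ),
    JClassOneIsGroup M ∧ JClassOneIsGroup N ∧
    (∀ u : Mˣ, ρ u = e u) ∧ (∀ (s : M) (t : Mˣ), ρ (s * t) = ρ s * ρ t) ∧
    IsSofic M ∧ ¬ IsSofic N ∧
    Countable M ∧ Monoid.FG N ∧ Nonempty (Mˣ ≃* FreeGroup (Fin 3)) := by
  let eM := unitsEquivOfIdeal (iM BB) (iM_inj BB) (iM_ideal BB)
  let eN := unitsEquivOfIdeal (iN BB) (iN_inj BB) (iN_ideal BB)
  have key : ∀ u : (MM BB)ˣ, (u : MM BB) = iM BB (eM.symm u) := by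
    intro u
    have := unitsEquivOfIdeal_apply (iM BB) (iM_inj BB) (iM_ideal BB) (eM.symm u)
    rw [← this]
    show (u : MM BB) = ((eM (eM.symm u) : (MM BB)ˣ) : MM BB)
    rw [MulEquiv.apply_symm_apply]
  refine ⟨MM BB, NN BB, inferInstance, inferInstance, rho BB, eM.symm.trans eN,
    jclass_of_ideal (iM BB) (iM_ideal BB), jclass_of_ideal (iN BB) (iN_ideal BB),
    ?_, ?_, MM_sofic BB, NN_not_sofic, countable_MM, fg_NN, ⟨eM.symm⟩⟩
  · intro u
    rw [key u]
    rfl
  · intro s t
    rw [key t]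
    exact rho_mul_unit BB s _

end Pool.Agent.H42.Sof
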